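import Pool.Agent.X290.Reg.Ord2

/-!
# Pure and potentially ordinary representations
-/

set_option autoImplicit false

namespace Pool.Agent.X290.Reg

open NumberField Pool.Agent.W569.FM Pool.Agent.W215.FM IsLocalRing Matrix

theorem two_mul_eq {q : ℕ} (hq : 1 < q) {a w : ℤ} (h : (q : ℝ) ^ a = (q : ℝ) ^ (-(w : ℝ) / 2)) :
    2 * a = -w := by
  have hq0 : (0 : ℝ) < q := by exact_mod_cast (by omega : 0 < q)
  have hq1 : (q : ℝ) ≠ 1 := by exact_mod_cast (by omega : q ≠ 1)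
  rw [← Real.rpow_intCast] at h
  have h1 := (Real.rpow_right_inj hq0 hq1).1 h
  have h2 : (2 * a : ℝ) = -w := by linarith
  exact_mod_cast h2

theorem slope {G : Type} [Group G] {L : Type} [Field L] {m : ℕ}
    (R : G →* Matrix (Fin m) (Fin m) L) (c : G →* L) (U : Subgroup G) [U.Normal]
    [Finite (G ⧸ U)] (W W' : Submodule L (Fin m → L)) (hlt : W < W') (a : ℤ)
    (hst : ∀ u ∈ U, ∀ v ∈ W', R u *ᵥ v ∈ W')
    (S : Set (Matrix (Fin m) (Fin m) L)) (hS : S.Finite)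
    (hfin : ∀ u ∈ U, ∃ s ∈ S, ∀ v ∈ W', R u *ᵥ v - (c u) ^ a • (s *ᵥ v) ∈ W)
    (φ : G) (q : ℕ) (hq : 1 < q) (hcφ : c φ = q) {E : Type} [Field E] (i : E →+* L)
    (τ : E →+* ℂ) (f : Polynomial E) (hf : f.map i = (R φ).charpoly) (w : ℤ)
    (hpure : ∀ z : ℂ, (f.map τ).IsRoot z → ‖z‖ = (q : ℝ) ^ (-(w : ℝ) / 2)) : 2 * a = -w := by
  obtain ⟨k, hk, hkU⟩ := Subgroup.exists_pow_mem_of_index_ne_zero (H := U)
    (by
      rw [Subgroup.index]
      have : Nonempty (G ⧸ U) := ⟨((1 : G) : G ⧸ U)⟩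
      exact Nat.card_pos.ne') φ
  have hk0 : 0 < k := hk
  have hkm : φ ^ k ∈ U := hkU.2
  set M := R φ with hM
  set d : L := ((q : L) ^ k) ^ a with hd
  have hu : IsUnit (M ^ k) := by
    have h1 : IsUnit (R φ) := ⟨⟨R φ, R φ⁻¹, by rw [← map_mul, mul_inv_cancel, map_one],
      by rw [← map_mul, inv_mul_cancel, map_one]⟩, rfl⟩
    exact h1.pow k
  have hqL : (q : L) ≠ 0 := by
    rw [← hcφ]
    have h1 : c φ * c φ⁻¹ = 1 := by rw [← map_mul, mul_inv_cancel, map_one]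
    exact left_ne_zero_of_mul_eq_one h1
  obtain ⟨N, hN, hN2⟩ := pigeon (M ^ k) hu d (zpow_ne_zero _ (pow_ne_zero _ hqL)) W W'
    (fun v hv => by
      rw [hM, ← map_pow]
      exact hst _ hkm v hv) S hS (fun t => by
      obtain ⟨s, hs, h⟩ := hfin ((φ ^ k) ^ t) (U.pow_mem hkm t)
      refine ⟨s, hs, fun v hv => ?_⟩
      have h1 := h v hv
      have h2 : (c ((φ ^ k) ^ t)) ^ a = d ^ t := by
        rw [map_pow, map_pow, hcφ, hd, ← zpow_natCast (((q : L) ^ k) ^ a), zpow_comm,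
          zpow_natCast]
      rw [h2, map_pow, map_pow] at h1
      exact h1)
  have h1 : ∀ v ∈ W', (M ^ (k * N)) *ᵥ v - (d ^ N) • v ∈ W := by
    intro v hv
    rw [pow_mul]
    exact hN2 v hv
  have h2 := not_coprime M (k * N) (d ^ N) W W' hlt h1
  have h3 : i ((((q : E) ^ k) ^ a) ^ N) = d ^ N := by
    rw [map_pow, map_zpow₀, map_pow, map_natCast]
  rw [← h3] at h2
  obtain ⟨z, hz, hzN⟩ := common_root i f M hf (k * N) _ h2 τ
  have h4 := hpure z hz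
  apply two_mul_eq hq
  rw [← h4]
  have h5 : ‖z‖ ^ (k * N) = ((q : ℝ) ^ a) ^ (k * N) := by
    have h6 := congrArg norm hzN
    rw [norm_pow, map_pow, map_zpow₀, map_pow, map_natCast, norm_pow, norm_zpow, norm_pow,
      Complex.norm_natCast] at h6
    rw [h6, pow_mul]
    congr 1
    rw [← zpow_natCast, ← zpow_natCast, zpow_comm]
  have h7 : 0 < k * N := Nat.mul_pos hk0 hN
  exact (pow_left_injective₀' h7 (norm_nonneg z) (by positivity) h5).symm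
where
  pow_left_injective₀' {n : ℕ} (hn : 0 < n) {x y : ℝ} (hx : 0 ≤ x) (hy : 0 ≤ y)
      (h : x ^ n = y ^ n) : x = y := (pow_left_inj₀ hx hy hn.ne').1 h

theorem ord_core {G : Type} [Group G] {L : Type} [Field L] {m : ℕ}
    (R : G →* Matrix (Fin m) (Fin m) L) (c : G →* L) (U : Subgroup G) [U.Normal]
    [Finite (G ⧸ U)] {r : ℕ} (W : ℕ → Submodule L (Fin m → L)) (a : ℕ → ℤ) (h0 : W 0 = ⊥)
    (hr : W r = ⊤) (hlt : ∀ j < r, W j < W (j + 1)) (ha : ∀ i j, i < j → j < r → a i ≠ a j)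
    (hst : ∀ j < r, ∀ u ∈ U, ∀ v ∈ W (j + 1), R u *ᵥ v ∈ W (j + 1))
    (hfin : ∀ j < r, ∃ S : Set (Matrix (Fin m) (Fin m) L), S.Finite ∧
      ∀ u ∈ U, ∃ s ∈ S, ∀ v ∈ W (j + 1), R u *ᵥ v - (c u) ^ (a j) • (s *ᵥ v) ∈ W j)
    (φ : G) (q : ℕ) (hq : 1 < q) (hcφ : c φ = q) {E : Type} [Field E] (i : E →+* L)
    (τ : E →+* ℂ) (f : Polynomial E) (hf : f.map i = (R φ).charpoly) (w : ℤ)
    (hpure : ∀ z : ℂ, (f.map τ).IsRoot z → ‖z‖ = (q : ℝ) ^ (-(w : ℝ) / 2)) :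
    ∃ b : ℤ, (2 * b = -w ∨ m = 0) ∧ ∃ S : Set (Matrix (Fin m) (Fin m) L), S.Finite ∧
      ∀ g, ∃ s ∈ S, R g = (c g) ^ b • s := by
  have hsl : ∀ j < r, 2 * a j = -w := by
    intro j hj
    obtain ⟨S, hS, hS2⟩ := hfin j hj
    exact slope R c U (W j) (W (j + 1)) (hlt j hj) (a j) (hst j hj) S hS hS2 φ q hq hcφ i τ f hf
      w hpure
  have hr1 : r ≤ 1 := by
    by_contra hcon
    have h1 := hsl 0 (by omega)
    have h2 := hsl 1 (by omega)
    exact ha 0 1 (by omega) (by omega) (by omega)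
  rcases Nat.eq_zero_or_pos r with hr0 | hrpos
  · subst hr0
    have hm : m = 0 := by
      by_contra hm
      have h1 : (⊥ : Submodule L (Fin m → L)) = ⊤ := by rw [← h0, hr]
      have h2 : (fun _ => (1 : L) : Fin m → L) ∈ (⊥ : Submodule L (Fin m → L)) := by
        rw [h1]; trivial
      rw [Submodule.mem_bot] at h2
      have h3 := congrFun h2 ⟨0, Nat.pos_of_ne_zero hm⟩
      simp at h3
    subst hm
    exact ⟨0, Or.inr rfl, {1}, Set.finite_singleton _, fun g =>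
      ⟨1, rfl, Subsingleton.elim _ _⟩⟩
  · obtain rfl : r = 1 := by omega
    obtain ⟨S, hS, hS2⟩ := hfin 0 (by omega)
    refine ⟨a 0, Or.inl (hsl 0 (by omega)), ?_⟩
    have hcne : ∀ g, c g ≠ 0 := fun g => by
      have h1 : c g * c g⁻¹ = 1 := by rw [← map_mul, mul_inv_cancel, map_one]
      exact left_ne_zero_of_mul_eq_one h1
    have hU : ∀ u ∈ U, ∃ s ∈ S, R u = (c u) ^ (a 0) • s := by
      intro u hu
      obtain ⟨s, hs, h⟩ := hS2 u hu
      refine ⟨s, hs, ?_⟩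
      apply Matrix.toLin'.injective
      ext1 j
      apply LinearMap.ext
      intro x
      have h1 := h (Pi.single j x) (by rw [show (0 + 1) = 1 from rfl, hr]; trivial)
      rw [h0, Submodule.mem_bot, sub_eq_zero] at h1
      simp only [LinearMap.comp_apply, Matrix.toLin'_apply, LinearMap.single_apply,
        Matrix.smul_mulVec]
      exact h1
    refine ⟨(fun x : Matrix (Fin m) (Fin m) L × (G ⧸ U) =>
      ((c x.2.out) ^ (a 0))⁻¹ • (R x.2.out * x.1)) '' (S ×ˢ Set.univ),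
      (hS.prod Set.finite_univ).image _, fun g => ?_⟩
    set t := ((g : G ⧸ U)).out with ht
    have htg : t⁻¹ * g ∈ U := by
      apply QuotientGroup.eq.1
      exact QuotientGroup.out_eq' _
    obtain ⟨s, hs, h⟩ := hU _ htg
    refine ⟨_, ⟨(s, (g : G ⧸ U)), ⟨hs, Set.mem_univ _⟩, rfl⟩, ?_⟩
    have h1 : R g = R t * R (t⁻¹ * g) := by rw [← map_mul, mul_inv_cancel_left]
    have h2 : c g = c t * c (t⁻¹ * g) := by rw [← map_mul, mul_inv_cancel_left]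
    show R g = (c g) ^ (a 0) • (((c t) ^ (a 0))⁻¹ • (R t * s))
    rw [h1, h, h2, mul_zpow, smul_smul, Matrix.mul_smul]
    congr 1
    field_simp [zpow_ne_zero (a 0) (hcne t)]

theorem twist_all {G : Type} [Group G] {L : Type} [Field L] {m : ℕ}
    (R : G →* Matrix (Fin m) (Fin m) L) (c : G →* L) (U : Subgroup G) [U.Normal]
    [Finite (G ⧸ U)] (W W' : Submodule L (Fin m → L)) (a : ℤ)
    (hW : ∀ g, ∀ v ∈ W, R g *ᵥ v ∈ W)
    (hfin : ∃ S : Set (Matrix (Fin m) (Fin m) L), S.Finite ∧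
      ∀ u ∈ U, ∃ s ∈ S, ∀ v ∈ W', R u *ᵥ v - (c u) ^ a • (s *ᵥ v) ∈ W) :
    ∃ S : Set (Matrix (Fin m) (Fin m) L), S.Finite ∧
      ∀ g, ∃ s ∈ S, ∀ v ∈ W', R g *ᵥ v - (c g) ^ a • (s *ᵥ v) ∈ W := by
  obtain ⟨S, hS, hS2⟩ := hfin
  have hcne : ∀ g, c g ≠ 0 := fun g => by
    have h1 : c g * c g⁻¹ = 1 := by rw [← map_mul, mul_inv_cancel, map_one]
    exact left_ne_zero_of_mul_eq_one h1
  refine ⟨(fun x : Matrix (Fin m) (Fin m) L × (G ⧸ U) =>
    ((c x.2.out) ^ a)⁻¹ • (R x.2.out * x.1)) '' (S ×ˢ Set.univ),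
    (hS.prod Set.finite_univ).image _, fun g => ?_⟩
  set t := ((g : G ⧸ U)).out with ht
  have htg : t⁻¹ * g ∈ U := by
    apply QuotientGroup.eq.1
    exact QuotientGroup.out_eq' _
  obtain ⟨s, hs, h⟩ := hS2 _ htg
  refine ⟨_, ⟨(s, (g : G ⧸ U)), ⟨hs, Set.mem_univ _⟩, rfl⟩, fun v hv => ?_⟩
  have h1 : R g = R t * R (t⁻¹ * g) := by rw [← map_mul, mul_inv_cancel_left]
  have h2 : c g = c t * c (t⁻¹ * g) := by rw [← map_mul, mul_inv_cancel_left]
  show R g *ᵥ v - (c g) ^ a • ((((c t) ^ a)⁻¹ • (R t * s)) *ᵥ v) ∈ W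
  have h3 := hW t _ (h v hv)
  rw [Matrix.mulVec_sub, Matrix.mulVec_mulVec, ← h1, Matrix.mulVec_smul, Matrix.mulVec_mulVec] at h3
  have h4 : (c g) ^ a • ((((c t) ^ a)⁻¹ • (R t * s)) *ᵥ v) =
      (c (t⁻¹ * g)) ^ a • ((R t * s) *ᵥ v) := by
    rw [Matrix.smul_mulVec, smul_smul]
    congr 1
    nth_rewrite 1 [h2]
    rw [mul_zpow]
    field_simp [zpow_ne_zero a (hcne t)]
  rw [h4]
  exact h3

theorem twist_one {G : Type} [Group G] {L : Type} [Field L] {m : ℕ}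
    (R : G →* Matrix (Fin m) (Fin m) L) (c : G →* L) (a : ℤ)
    (hfin : ∃ S : Set (Matrix (Fin m) (Fin m) L), S.Finite ∧
      ∀ g, ∃ s ∈ S, ∀ v ∈ (⊤ : Submodule L (Fin m → L)),
        R g *ᵥ v - (c g) ^ a • (s *ᵥ v) ∈ (⊥ : Submodule L (Fin m → L))) :
    ∃ S : Set (Matrix (Fin m) (Fin m) L), S.Finite ∧ ∀ g, ∃ s ∈ S, R g = (c g) ^ a • s := by
  obtain ⟨S, hS, hS2⟩ := hfin
  refine ⟨S, hS, fun g => ?_⟩
  obtain ⟨s, hs, h⟩ := hS2 g
  refine ⟨s, hs, ?_⟩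
  apply Matrix.toLin'.injective
  ext1 j
  apply LinearMap.ext
  intro x
  have h1 := h (Pi.single j x) trivial
  rw [Submodule.mem_bot, sub_eq_zero] at h1
  simp only [LinearMap.comp_apply, Matrix.toLin'_apply, LinearMap.single_apply,
    Matrix.smul_mulVec]
  exact h1

end Pool.Agent.X290.Reg
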