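import Pool.Agent.X290.Reg.Ord

/-!
# Two representations
-/

set_option autoImplicit false

namespace Pool.Agent.X290.Reg

open NumberField Pool.Agent.W569.FM Pool.Agent.W215.FM IsLocalRing Matrix

theorem nil_block2 {k n : ℕ} {F : Type} [CommRing F] (X : Matrix (Fin n) (Fin n) F)
    (Y : Matrix (Fin k) (Fin k) F) (hX : IsNilpotent X) (hY : IsNilpotent Y) :
    IsNilpotent (fromBlocks X 0 0 Y) := by
  obtain ⟨a, ha⟩ := hX
  obtain ⟨b, hb⟩ := hY
  have key : ∀ j : ℕ, (fromBlocks X 0 0 Y) ^ j = fromBlocks (X ^ j) 0 0 (Y ^ j) := by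
    intro j
    induction j with
    | zero => simp
    | succ j ih =>
      rw [pow_succ, ih, fromBlocks_multiply]
      simp only [Matrix.mul_zero, Matrix.zero_mul, add_zero, zero_add]
      rw [← pow_succ, ← pow_succ]
  refine ⟨a + b, ?_⟩
  rw [key, pow_add, ha, pow_add, hb]
  simp only [Matrix.zero_mul, Matrix.mul_zero]
  exact fromBlocks_zero

section
variable {G : Type} [Group G] {A : Type} [CommRing A] {n k : ℕ} (ρ : G →* GL (Fin n) A)
  (σ : G →* GL (Fin k) A)

/-- the block matrices -/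
noncomputable def blk2 : G →* Matrix (Fin n ⊕ Fin k) (Fin n ⊕ Fin k) A where
  toFun g := fromBlocks (ρ g : Matrix (Fin n) (Fin n) A) 0 0 (σ g : Matrix (Fin k) (Fin k) A)
  map_one' := by
    rw [map_one, map_one, Units.val_one, Units.val_one, fromBlocks_one]
  map_mul' g g' := by
    rw [fromBlocks_multiply, map_mul, map_mul, Units.val_mul, Units.val_mul]
    simp only [Matrix.mul_zero, Matrix.zero_mul, add_zero, zero_add]

/-- the sum of `ρ` and `σ` -/
noncomputable def sum2 : G →* GL (Fin (n + k)) A :=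
  MonoidHom.toHomUnits (((reindexAlgEquiv A A (finSumFinEquiv (m := n) (n := k))).toMonoidHom).comp
    (blk2 ρ σ))

theorem sum2_val (g : G) :
    (sum2 ρ σ g : Matrix (Fin (n + k)) (Fin (n + k)) A) =
      Matrix.reindex finSumFinEquiv finSumFinEquiv
        (fromBlocks (ρ g : Matrix (Fin n) (Fin n) A) 0 0 (σ g : Matrix (Fin k) (Fin k) A)) := rfl

variable {ρ σ}

theorem sum2_inj {g g' : G} (h : sum2 ρ σ g = sum2 ρ σ g') :
    ρ g = ρ g' ∧ σ g = σ g' := by
  have h1 : (sum2 ρ σ g : Matrix (Fin (n + k)) (Fin (n + k)) A) = sum2 ρ σ g' := by rw [h]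
  rw [sum2_val, sum2_val] at h1
  have h2 := (Matrix.reindex finSumFinEquiv finSumFinEquiv).injective h1
  rw [fromBlocks_inj] at h2
  exact ⟨Units.ext h2.1, Units.ext h2.2.2.2⟩

theorem sum2_one {g : G} (h1 : ρ g = 1) (h2 : σ g = 1) : sum2 ρ σ g = 1 := by
  apply Units.ext
  rw [sum2_val, h1, h2, Units.val_one, Units.val_one, Units.val_one, fromBlocks_one]
  exact map_one (reindexAlgEquiv A A (finSumFinEquiv (m := n) (n := k)))

theorem sum2_cont [TopologicalSpace A] [TopologicalSpace G] [IsTopologicalGroup G]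
    (hρ : Continuous ρ) (hσ : Continuous σ) : Continuous (sum2 ρ σ) := by
  have hv : Continuous fun g => (ρ g : Matrix (Fin n) (Fin n) A) :=
    Units.continuous_val.comp hρ
  have hw : Continuous fun g => (σ g : Matrix (Fin k) (Fin k) A) :=
    Units.continuous_val.comp hσ
  have h1 : Continuous fun g => (sum2 ρ σ g : Matrix (Fin (n + k)) (Fin (n + k)) A) := by
    have h2 : Continuous fun g => fromBlocks (ρ g : Matrix (Fin n) (Fin n) A)
        (0 : Matrix (Fin n) (Fin k) A) 0 (σ g : Matrix (Fin k) (Fin k) A) :=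
      Continuous.matrix_fromBlocks hv continuous_const continuous_const hw
    refine continuous_matrix fun i j => ?_
    have : (fun g => (sum2 ρ σ g : Matrix (Fin (n + k)) (Fin (n + k)) A) i j) = fun g =>
        fromBlocks (ρ g : Matrix (Fin n) (Fin n) A) (0 : Matrix (Fin n) (Fin k) A) 0
          (σ g : Matrix (Fin k) (Fin k) A)
          (finSumFinEquiv.symm i) (finSumFinEquiv.symm j) := rfl
    rw [this]
    exact h2.matrix_elem _ _
  refine Units.continuous_iff.2 ⟨h1, ?_⟩
  have h3 : (fun g => ((sum2 ρ σ g)⁻¹ : GL (Fin (n + k)) A).val) = fun g =>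
      (sum2 ρ σ g⁻¹ : Matrix (Fin (n + k)) (Fin (n + k)) A) := by
    funext g
    rw [map_inv]
  show Continuous (fun g => ((sum2 ρ σ g)⁻¹ : GL (Fin (n + k)) A).val)
  rw [h3]
  exact h1.comp continuous_inv

theorem sum2_nil [IsLocalRing A] {g : G}
    (hg : IsNilpotent ((ρ g : Matrix (Fin n) (Fin n) A).map (residue A) - 1))
    (hs : IsNilpotent ((σ g : Matrix (Fin k) (Fin k) A).map (residue A) - 1)) :
    IsNilpotent ((sum2 ρ σ g : Matrix (Fin (n + k)) (Fin (n + k)) A).map (residue A) - 1) := by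
  have h1 := nil_block2 _ _ hg hs
  have h2 : (sum2 ρ σ g : Matrix (Fin (n + k)) (Fin (n + k)) A).map (residue A) - 1 =
      reindexAlgEquiv (ResidueField A) (ResidueField A) (finSumFinEquiv (m := n) (n := k))
        (fromBlocks ((ρ g : Matrix (Fin n) (Fin n) A).map (residue A) - 1)
          0 0 ((σ g : Matrix (Fin k) (Fin k) A).map (residue A) - 1)) := by
    have h3 : fromBlocks ((ρ g : Matrix (Fin n) (Fin n) A).map (residue A) - 1)
          0 0 ((σ g : Matrix (Fin k) (Fin k) A).map (residue A) - 1) =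
        (fromBlocks (ρ g : Matrix (Fin n) (Fin n) A) 0 0
          (σ g : Matrix (Fin k) (Fin k) A)).map (residue A) - 1 := by
      rw [fromBlocks_map]
      ext i j
      rcases i with i | i <;> rcases j with j | j
      · simp [Matrix.one_apply]
      · simp
      · simp
      · simp [Matrix.one_apply]
    rw [h3, map_sub, map_one]
    rfl
  rw [h2]
  exact h1.map _

end

/-- joint values over a number field -/
theorem two_mainU {F : Type} [Field F] [NumberField F] {p : ℕ} [hp : Fact p.Prime]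
    (U : Subgroup (GF F)) [hUn : U.Normal]
    (hUo : IsOpen (U : Set (GF F))) (hNU : NoUnrF p (FF U)) (hone : OnePrime p (FF U))
    {n k : ℕ} {A : Type} [CommRing A]
    [IsLocalRing A] [IsNoetherianRing A] [TopologicalSpace A] (hA : IsAdic (maximalIdeal A))
    (hpA : (p : A) ∈ maximalIdeal A) (ρ : GF F →* GL (Fin n) A) (σ : GF F →* GL (Fin k) A)
    (hρ : Continuous ρ)
    (hur : ∀ Q : Ideal (OO F), Q.IsMaximal → (p : OO F) ∉ Q → ∀ τ, InInertia Q τ → ρ τ = 1)
    (hres : ∀ u ∈ U, IsNilpotent ((ρ u : Matrix (Fin n) (Fin n) A).map (residue A) - 1))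
    (hσ : Continuous σ)
    (hur2 : ∀ Q : Ideal (OO F), Q.IsMaximal → (p : OO F) ∉ Q → ∀ τ, InInertia Q τ → σ τ = 1)
    (hres2 : ∀ u ∈ U, IsNilpotent ((σ u : Matrix (Fin k) (Fin k) A).map (residue A) - 1))
    {P : Ideal (OO F)} (hP : P.IsMaximal) (hpP : (p : OO F) ∈ P) :
    (∀ u ∈ U, ∃ h, InInertia P h ∧ h ∈ U ∧ ρ h = ρ u ∧ σ h = σ u) ∧
    ∀ g, ∃ d, (∀ x : OO F, d • x ∈ P ↔ x ∈ P) ∧ ρ d = ρ g ∧ σ d = σ g := by
  have h0 := mainU U hUo hNU hone hA hpA (sum2 ρ σ) (sum2_cont hρ hσ)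
    (fun Q hQ hpQ τ hτ => sum2_one (hur Q hQ hpQ τ hτ) (hur2 Q hQ hpQ τ hτ))
    (fun u hu => sum2_nil (hres u hu) (hres2 u hu)) hP hpP
  refine ⟨fun u hu => ?_, fun g => ?_⟩
  · obtain ⟨d, hd, hdU, h⟩ := h0.1 u hu
    exact ⟨d, hd, hdU, sum2_inj h⟩
  · obtain ⟨d, hd, h⟩ := h0.2 g
    exact ⟨d, hd, sum2_inj h⟩

/-- joint values over `ℚ` -/
theorem two_main2 {p : ℕ} [hp : Fact p.Prime] (hNU : NoUnr p) {n k : ℕ} {A : Type} [CommRing A]
    [IsLocalRing A] [IsNoetherianRing A] [TopologicalSpace A] (hA : IsAdic (maximalIdeal A))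
    (hpA : (p : A) ∈ maximalIdeal A) (ρ : GF ℚ →* GL (Fin n) A) (σ : GF ℚ →* GL (Fin k) A)
    (hρ : Continuous ρ)
    (hur : ∀ Q : Ideal (OO ℚ), Q.IsMaximal → (p : OO ℚ) ∉ Q → ∀ τ, InInertia Q τ → ρ τ = 1)
    (hσ : Continuous σ)
    (hur2 : ∀ Q : Ideal (OO ℚ), Q.IsMaximal → (p : OO ℚ) ∉ Q → ∀ τ, InInertia Q τ → σ τ = 1)
    (kk : Type) [Field kk] [Algebra (ResidueField A) kk]
    (χ : Fin n → (GF ℚ →* kkˣ)) (ψ : Fin k → (GF ℚ →* kkˣ))
    (hres : ∀ g : GF ℚ, (((ρ g : Matrix (Fin n) (Fin n) A).map (residue A)).map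
          (algebraMap (ResidueField A) kk)).charpoly =
            ∏ i, (Polynomial.X - Polynomial.C ((χ i g : kkˣ) : kk)))
    (hres2 : ∀ g : GF ℚ, (((σ g : Matrix (Fin k) (Fin k) A).map (residue A)).map
          (algebraMap (ResidueField A) kk)).charpoly =
            ∏ i, (Polynomial.X - Polynomial.C ((ψ i g : kkˣ) : kk)))
    {P : Ideal (OO ℚ)} (hP : P.IsMaximal) (hpP : (p : OO ℚ) ∈ P) (g : GF ℚ) :
    ∃ h, InInertia P h ∧ ρ h = ρ g ∧ σ h = σ g := by
  obtain ⟨d, hd, h⟩ := main2 hNU hA hpA (sum2 ρ σ) (sum2_cont hρ hσ)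
    (fun Q hQ hpQ τ hτ => sum2_one (hur Q hQ hpQ τ hτ) (hur2 Q hQ hpQ τ hτ))
    ⟨kk, inferInstance, inferInstance, Fin.append χ ψ, fun g => by
      rw [sum2_val, Fin.prod_univ_add]
      simp only [Fin.append_left, Fin.append_right]
      rw [← hres g, ← hres2 g]
      have h1 : ((Matrix.reindex (finSumFinEquiv (m := n) (n := k)) finSumFinEquiv
          (fromBlocks (ρ g : Matrix (Fin n) (Fin n) A) 0 0
            (σ g : Matrix (Fin k) (Fin k) A))).map (residue A)).map
            (algebraMap (ResidueField A) kk) =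
          Matrix.reindex finSumFinEquiv finSumFinEquiv
            (fromBlocks (((ρ g : Matrix (Fin n) (Fin n) A).map (residue A)).map
              (algebraMap (ResidueField A) kk)) 0 0
              (((σ g : Matrix (Fin k) (Fin k) A).map (residue A)).map
              (algebraMap (ResidueField A) kk))) := by
        have h2 : fromBlocks (((ρ g : Matrix (Fin n) (Fin n) A).map (residue A)).map
              (algebraMap (ResidueField A) kk)) 0 0
              (((σ g : Matrix (Fin k) (Fin k) A).map (residue A)).map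
              (algebraMap (ResidueField A) kk)) =
            ((fromBlocks (ρ g : Matrix (Fin n) (Fin n) A) 0 0
              (σ g : Matrix (Fin k) (Fin k) A)).map (residue A)).map
              (algebraMap (ResidueField A) kk) := by
          rw [fromBlocks_map, fromBlocks_map]
          congr 1
          · ext i j; simp
          · ext i j; simp
        rw [h2]
        rfl
      rw [h1, charpoly_reindex, charpoly_fromBlocks_zero₁₂]⟩ hP hpP g
  exact ⟨d, hd, sum2_inj h⟩

end Pool.Agent.X290.Reg
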