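import Pool.Agent.X290.Reg.KW

/-!
# Representations whose reduction is a successive extension of characters
-/

set_option autoImplicit false

namespace Pool.Agent.X290.Reg

open NumberField Pool.Agent.W569.FM Pool.Agent.W215.FM IsLocalRing Polynomial

theorem chars_one {k : Type} [Field k] {n : ℕ} (c : Fin n → k)
    (h : (1 : Matrix (Fin n) (Fin n) k).charpoly = ∏ i, (X - C (c i))) (i : Fin n) : c i = 1 := by
  rw [Matrix.charpoly_one] at h
  have h1 := congrArg (Polynomial.eval (c i)) h
  rw [eval_prod, Finset.prod_eq_zero (Finset.mem_univ i) (by simp)] at h1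
  rw [eval_pow, eval_sub, eval_X, eval_one] at h1
  have h2 := pow_eq_zero_iff (M₀ := k) (a := c i - 1) (n := Fintype.card (Fin n)) (by
    have : 0 < Fintype.card (Fin n) := Fintype.card_pos_iff.2 ⟨i⟩
    omega)
  exact sub_eq_zero.1 (h2.1 h1)

theorem nil_of_charpoly {k0 k : Type} [Field k0] [Field k] [Algebra k0 k] {n : ℕ}
    (M : Matrix (Fin n) (Fin n) k0)
    (h : (M.map (algebraMap k0 k)).charpoly = ∏ _i : Fin n, (X - C (1 : k))) :
    IsNilpotent (M - 1) := by
  have h1 := Matrix.aeval_self_charpoly (M.map (algebraMap k0 k))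
  rw [h, Finset.prod_const, map_pow, map_sub, aeval_X, map_one, map_one] at h1
  have h2 : IsNilpotent (M.map (algebraMap k0 k) - 1) := ⟨_, h1⟩
  have h3 : (algebraMap k0 k).mapMatrix (M - 1) = M.map (algebraMap k0 k) - 1 := by
    rw [map_sub, map_one]
    rfl
  rw [← h3] at h2
  have hinj : Function.Injective ((algebraMap k0 k).mapMatrix (m := Fin n)) := by
    intro a b hab
    ext i j
    exact (algebraMap k0 k).injective (congrFun (congrFun hab i) j)
  exact (IsNilpotent.map_iff hinj).1 h2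

/-- The theorem. -/
theorem main2 {p : ℕ} [hp : Fact p.Prime] (hNU : NoUnr p) {n : ℕ} {A : Type} [CommRing A]
    [IsLocalRing A] [IsNoetherianRing A] [TopologicalSpace A] (hA : IsAdic (maximalIdeal A))
    (hpA : (p : A) ∈ maximalIdeal A) (ρ : GF ℚ →* Matrix.GeneralLinearGroup (Fin n) A)
    (hρ : Continuous ρ)
    (hur : ∀ Q : Ideal (OO ℚ), Q.IsMaximal → (p : OO ℚ) ∉ Q → ∀ τ, InInertia Q τ → ρ τ = 1)
    (hres : ∃ (k : Type) (_ : Field k) (_ : Algebra (ResidueField A) k)
      (χ : Fin n → (GF ℚ →* kˣ)), ∀ g : GF ℚ,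
        (((ρ g : Matrix (Fin n) (Fin n) A).map (residue A)).map
          (algebraMap (ResidueField A) k)).charpoly = ∏ i, (X - C ((χ i g : kˣ) : k)))
    {P : Ideal (OO ℚ)} (hP : P.IsMaximal) (hpP : (p : OO ℚ) ∈ P) (g : GF ℚ) :
    ∃ h, InInertia P h ∧ ρ h = ρ g := by
  obtain ⟨k, _, _, χ, hχ⟩ := hres
  obtain ⟨ζ, hζ⟩ := exists_root p
  have hc : CharP k p := by
    refine (CharP.charP_iff_prime_eq_zero hp.out).2 ?_
    have h1 : ((p : ℕ) : ResidueField A) = 0 := by
      rw [← map_natCast (residue A), residue_eq_zero_iff]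
      exact hpA
    rw [← map_natCast (algebraMap (ResidueField A) k), h1, map_zero]
  have h1 : ∀ g : GF ℚ, Co (maximalIdeal A) (ρ g : Matrix (Fin n) (Fin n) A) →
      ∀ i, χ i g = 1 := by
    intro g hg i
    have h2 : ((ρ g : Matrix (Fin n) (Fin n) A).map (residue A)).map
        (algebraMap (ResidueField A) k) = 1 := by
      have h3 : (ρ g : Matrix (Fin n) (Fin n) A).map (residue A) = 1 := by
        ext a b
        have h4 := hg a b
        rw [← residue_eq_zero_iff, Matrix.sub_apply, map_sub, sub_eq_zero] at h4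
        rw [Matrix.map_apply, h4, Matrix.one_apply, Matrix.one_apply]
        by_cases hab : a = b
        · simp [hab]
        · simp [hab]
      rw [h3]
      ext a b
      rw [Matrix.map_apply, Matrix.one_apply, Matrix.one_apply]
      by_cases hab : a = b
      · simp [hab]
      · simp [hab]
    have h5 := hχ g
    rw [h2] at h5
    exact Units.ext (chars_one (fun i => ((χ i g : kˣ) : k)) h5 i)
  have hχ1 : ∀ i, ∀ u ∈ Uz ζ, χ i u = 1 := by
    intro i u hu
    refine kw hζ (χ i) ?_ ?_ u hu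
    · refine Subgroup.isOpen_mono (H₁ := KK ρ (maximalIdeal A ^ 1)) ?_ (KK_open hA hρ 1)
      intro g hg
      rw [mem_KK, pow_one] at hg
      exact h1 g hg i
    · intro Q hQ hpQ τ hτ
      refine h1 τ ?_ i
      rw [hur Q hQ hpQ τ hτ]
      intro a b
      simp
  refine main hNU hA hpA ρ hρ hur ?_ hP hpP g
  intro u hu
  refine nil_of_charpoly (k := k) _ ?_
  have huU : u ∈ Uz ζ := hu ζ hζ.pow_eq_one
  rw [hχ u]
  refine Finset.prod_congr rfl fun i _ => ?_
  rw [hχ1 i u huU, Units.val_one]

end Pool.Agent.X290.Reg
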