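import Pool.Agent.X290.Reg.Base2
import Pool.Agent.X290.Reg.Fin

/-!
# Extensions of the trivial representation
-/

set_option autoImplicit false

namespace Pool.Agent.X290.Reg

open NumberField Pool.Agent.W569.FM Pool.Agent.W215.FM IsLocalRing Matrix

section
variable {G : Type} [Group G] {A : Type} [CommRing A] {n : ℕ} (ρ : G →* GL (Fin n) A)
  (z : G → Fin n → A)

/-- `z` is a cocycle -/
def Cocyc : Prop := ∀ g h, z (g * h) = z g + (ρ g : Matrix (Fin n) (Fin n) A) *ᵥ z h

/-- the column -/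
def colm (v : Fin n → A) : Matrix (Fin n) (Fin 1) A := fun i _ => v i

theorem colm_add (v w : Fin n → A) : colm (v + w) = colm v + colm w := rfl

theorem colm_mulVec (M : Matrix (Fin n) (Fin n) A) (v : Fin n → A) :
    colm (M *ᵥ v) = M * colm v := by
  ext i j
  rw [Matrix.mul_apply]
  rfl

variable {ρ z}

theorem cocyc_one (h : Cocyc ρ z) : z 1 = 0 := by
  have h1 := h 1 1
  rw [map_one, Units.val_one, Matrix.one_mulVec, mul_one] at h1
  exact left_eq_add.1 h1

/-- the block matrices -/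
noncomputable def blk (h : Cocyc ρ z) : G →* Matrix (Fin n ⊕ Fin 1) (Fin n ⊕ Fin 1) A where
  toFun g := fromBlocks (ρ g : Matrix (Fin n) (Fin n) A) (colm (z g)) 0 1
  map_one' := by
    rw [cocyc_one h, map_one, Units.val_one]
    have : colm (0 : Fin n → A) = 0 := rfl
    rw [this, fromBlocks_one]
  map_mul' g g' := by
    rw [fromBlocks_multiply, h g g', map_mul, Units.val_mul, colm_add, colm_mulVec]
    simp only [Matrix.mul_zero, Matrix.zero_mul, add_zero, zero_add, Matrix.mul_one]
    rw [add_comm]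

/-- the representation of dimension `n + 1` -/
noncomputable def ext (h : Cocyc ρ z) : G →* GL (Fin (n + 1)) A :=
  MonoidHom.toHomUnits (((reindexAlgEquiv A A (finSumFinEquiv (m := n) (n := 1))).toMonoidHom).comp
    (blk h))

theorem ext_val (h : Cocyc ρ z) (g : G) :
    (ext h g : Matrix (Fin (n + 1)) (Fin (n + 1)) A) =
      Matrix.reindex finSumFinEquiv finSumFinEquiv
        (fromBlocks (ρ g : Matrix (Fin n) (Fin n) A) (colm (z g)) 0 1) := rfl

theorem ext_inj (h : Cocyc ρ z) {g g' : G} (e : ext h g = ext h g') :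
    ρ g = ρ g' ∧ z g = z g' := by
  have h1 : (ext h g : Matrix (Fin (n + 1)) (Fin (n + 1)) A) = ext h g' := by rw [e]
  rw [ext_val, ext_val] at h1
  have h2 := (Matrix.reindex finSumFinEquiv finSumFinEquiv).injective h1
  rw [fromBlocks_inj] at h2
  refine ⟨Units.ext h2.1, ?_⟩
  funext i
  exact congrFun (congrFun h2.2.1 i) 0

theorem ext_one (h : Cocyc ρ z) {g : G} (h1 : ρ g = 1) (h2 : z g = 0) : ext h g = 1 := by
  apply Units.ext
  rw [ext_val, h1, h2, Units.val_one, Units.val_one]
  have : colm (0 : Fin n → A) = 0 := rfl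
  rw [this, fromBlocks_one]
  exact map_one (reindexAlgEquiv A A (finSumFinEquiv (m := n) (n := 1)))

theorem ext_cont [TopologicalSpace A] [TopologicalSpace G] [IsTopologicalGroup G]
    (h : Cocyc ρ z) (hρ : Continuous ρ) (hz : Continuous z) : Continuous (ext h) := by
  have hv : Continuous fun g => (ρ g : Matrix (Fin n) (Fin n) A) :=
    Units.continuous_val.comp hρ
  have h1 : Continuous fun g => (ext h g : Matrix (Fin (n + 1)) (Fin (n + 1)) A) := by
    have h2 : Continuous fun g => fromBlocks (ρ g : Matrix (Fin n) (Fin n) A) (colm (z g)) 0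
        (1 : Matrix (Fin 1) (Fin 1) A) := by
      refine Continuous.matrix_fromBlocks hv ?_ continuous_const continuous_const
      refine continuous_matrix fun i _ => ?_
      exact (continuous_apply i).comp hz
    refine continuous_matrix fun i j => ?_
    have : (fun g => (ext h g : Matrix (Fin (n + 1)) (Fin (n + 1)) A) i j) = fun g =>
        fromBlocks (ρ g : Matrix (Fin n) (Fin n) A) (colm (z g)) 0
        (1 : Matrix (Fin 1) (Fin 1) A) (finSumFinEquiv.symm i) (finSumFinEquiv.symm j) := rfl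
    rw [this]
    exact h2.matrix_elem _ _
  refine Units.continuous_iff.2 ⟨h1, ?_⟩
  have h3 : (fun g => ((ext h g)⁻¹ : GL (Fin (n + 1)) A).val) = fun g =>
      (ext h g⁻¹ : Matrix (Fin (n + 1)) (Fin (n + 1)) A) := by
    funext g
    rw [map_inv]
  show Continuous (fun g => ((ext h g)⁻¹ : GL (Fin (n + 1)) A).val)
  rw [h3]
  exact h1.comp continuous_inv

theorem nil_block {k : Type} [CommRing k] (X : Matrix (Fin n) (Fin n) k) (c : Matrix (Fin n) (Fin 1) k)
    (hX : IsNilpotent X) :
    IsNilpotent (fromBlocks X c 0 (0 : Matrix (Fin 1) (Fin 1) k)) := by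
  obtain ⟨m, hm⟩ := hX
  have key : ∀ j : ℕ, (fromBlocks X c 0 (0 : Matrix (Fin 1) (Fin 1) k)) ^ (j + 1) =
      fromBlocks (X ^ (j + 1)) (X ^ j * c) 0 0 := by
    intro j
    induction j with
    | zero => simp
    | succ j ih =>
      rw [pow_succ, ih, fromBlocks_multiply]
      simp only [Matrix.mul_zero, Matrix.zero_mul, add_zero]
      rw [← pow_succ]
  refine ⟨m + 1, ?_⟩
  rw [key, pow_succ, hm]
  simp only [Matrix.zero_mul]
  exact fromBlocks_zero

theorem ext_nil [IsLocalRing A] (h : Cocyc ρ z) {g : G}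
    (hg : IsNilpotent ((ρ g : Matrix (Fin n) (Fin n) A).map (residue A) - 1)) :
    IsNilpotent ((ext h g : Matrix (Fin (n + 1)) (Fin (n + 1)) A).map (residue A) - 1) := by
  have h1 := nil_block ((ρ g : Matrix (Fin n) (Fin n) A).map (residue A) - 1)
    ((colm (z g)).map (residue A)) hg
  have h2 : (ext h g : Matrix (Fin (n + 1)) (Fin (n + 1)) A).map (residue A) - 1 =
      reindexAlgEquiv (ResidueField A) (ResidueField A) (finSumFinEquiv (m := n) (n := 1))
        (fromBlocks ((ρ g : Matrix (Fin n) (Fin n) A).map (residue A) - 1)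
          ((colm (z g)).map (residue A)) 0 (0 : Matrix (Fin 1) (Fin 1) (ResidueField A))) := by
    have h3 : fromBlocks ((ρ g : Matrix (Fin n) (Fin n) A).map (residue A) - 1)
          ((colm (z g)).map (residue A)) 0 (0 : Matrix (Fin 1) (Fin 1) (ResidueField A)) =
        (fromBlocks (ρ g : Matrix (Fin n) (Fin n) A) (colm (z g)) 0 1).map (residue A) - 1 := by
      rw [fromBlocks_map]
      ext i j
      rcases i with i | i <;> rcases j with j | j
      · simp [Matrix.one_apply]
      · simp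
      · simp
      · obtain rfl : i = j := Subsingleton.elim i j
        simp
    rw [h3, map_sub, map_one]
    rfl
  rw [h2]
  exact h1.map _

end

/-- **Localisation is injective**, over a number field with one prime above `p`. -/
theorem coh_mainU {F : Type} [Field F] [NumberField F] {p : ℕ} [hp : Fact p.Prime]
    (U : Subgroup (GF F)) [hUn : U.Normal]
    (hUo : IsOpen (U : Set (GF F))) (hNU : NoUnrF p (FF U)) (hone : OnePrime p (FF U))
    {n : ℕ} {A : Type} [CommRing A]
    [IsLocalRing A] [IsNoetherianRing A] [TopologicalSpace A] (hA : IsAdic (maximalIdeal A))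
    (hpA : (p : A) ∈ maximalIdeal A) (ρ : GF F →* GL (Fin n) A)
    (hρ : Continuous ρ)
    (hur : ∀ Q : Ideal (OO F), Q.IsMaximal → (p : OO F) ∉ Q → ∀ τ, InInertia Q τ → ρ τ = 1)
    (hres : ∀ u ∈ U, IsNilpotent ((ρ u : Matrix (Fin n) (Fin n) A).map (residue A) - 1))
    (z : GF F → Fin n → A) (hz : Continuous z)
    (hzc : ∀ g h, z (g * h) = z g + (ρ g : Matrix (Fin n) (Fin n) A) *ᵥ z h)
    (hzur : ∀ Q : Ideal (OO F), Q.IsMaximal → (p : OO F) ∉ Q → ∀ τ, InInertia Q τ → z τ = 0)
    {P : Ideal (OO F)} (hP : P.IsMaximal) (hpP : (p : OO F) ∈ P) :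
    (∀ u ∈ U, ∃ h, InInertia P h ∧ h ∈ U ∧ ρ h = ρ u ∧ z h = z u) ∧
    ∀ g, ∃ d, (∀ x : OO F, d • x ∈ P ↔ x ∈ P) ∧ ρ d = ρ g ∧ z d = z g := by
  have hc : Cocyc ρ z := hzc
  have h0 := mainU U hUo hNU hone hA hpA (ext hc) (ext_cont hc hρ hz)
    (fun Q hQ hpQ τ hτ => ext_one hc (hur Q hQ hpQ τ hτ) (hzur Q hQ hpQ τ hτ))
    (fun u hu => ext_nil hc (hres u hu)) hP hpP
  refine ⟨fun u hu => ?_, fun g => ?_⟩
  · obtain ⟨d, hd, hdU, e⟩ := h0.1 u hu
    exact ⟨d, hd, hdU, ext_inj hc e⟩
  · obtain ⟨d, hd, e⟩ := h0.2 g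
    exact ⟨d, hd, ext_inj hc e⟩

/-- averaging: a cocycle which is a coboundary on a normal subgroup of finite index is one -/
theorem cob_of_finite {G : Type} [Group G] (U : Subgroup G) [U.Normal] [hf : Finite (G ⧸ U)]
    {L : Type} [Field L] [CharZero L] {m : ℕ} (S : G →* Matrix (Fin m) (Fin m) L)
    (z : G → Fin m → L) (hz : ∀ g h, z (g * h) = z g + S g *ᵥ z h) (v : Fin m → L)
    (hv : ∀ u ∈ U, z u = S u *ᵥ v - v) : ∃ w : Fin m → L, ∀ g, z g = S g *ᵥ w - w := by
  classical
  have := Fintype.ofFinite (G ⧸ U)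
  set y : G → Fin m → L := fun g => z g - (S g *ᵥ v - v) with hy
  have y1 : ∀ g h, y (g * h) = y g + S g *ᵥ y h := by
    intro g h
    simp only [hy, hz g h, map_mul, ← Matrix.mulVec_mulVec, Matrix.mulVec_sub]
    abel
  have y2 : ∀ g, ∀ u ∈ U, y (g * u) = y g := by
    intro g u hu
    rw [y1]
    have : y u = 0 := by simp only [hy, hv u hu, sub_self]
    rw [this, Matrix.mulVec_zero, add_zero]
  have y3 : ∀ g g' : G, (g : G ⧸ U) = g' → y g = y g' := by
    intro g g' h
    have h1 := QuotientGroup.eq.1 h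
    have h2 := y2 g _ h1
    rw [← h2, mul_inv_cancel_left]
  set s : Fin m → L := ∑ q : G ⧸ U, y q.out with hs
  have key : ∀ g, s = (Fintype.card (G ⧸ U) : L) • y g + S g *ᵥ s := by
    intro g
    have h1 : s = ∑ q : G ⧸ U, y (g * q.out) := by
      rw [hs]
      refine (Fintype.sum_equiv (MulAction.toPerm g) _ _ ?_).symm
      intro q
      apply y3
      rw [QuotientGroup.out_eq', QuotientGroup.mk_mul, QuotientGroup.out_eq']
      rfl
    have h2 : ∑ q : G ⧸ U, y (g * q.out) =
        (Fintype.card (G ⧸ U) : L) • y g + S g *ᵥ s := by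
      rw [Finset.sum_congr rfl (fun q _ => y1 g q.out), Finset.sum_add_distrib, hs,
        Finset.sum_const, Finset.card_univ, ← Matrix.mulVec_sum, Nat.cast_smul_eq_nsmul]
    exact h1.trans h2
  have hN : (Fintype.card (G ⧸ U) : L) ≠ 0 := by
    have : Nonempty (G ⧸ U) := ⟨((1 : G) : G ⧸ U)⟩
    exact_mod_cast Fintype.card_ne_zero
  refine ⟨v - (Fintype.card (G ⧸ U) : L)⁻¹ • s, fun g => ?_⟩
  have h1 : z g = y g + (S g *ᵥ v - v) := by simp only [hy]; abel
  have h2 : y g = (Fintype.card (G ⧸ U) : L)⁻¹ • (s - S g *ᵥ s) := by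
    have h3 := key g
    have h4 : s - S g *ᵥ s = (Fintype.card (G ⧸ U) : L) • y g := by
      nth_rewrite 1 [h3]
      abel
    rw [h4, smul_smul, inv_mul_cancel₀ hN, one_smul]
  rw [h1, h2, Matrix.mulVec_sub, Matrix.mulVec_smul, smul_sub]
  abel

/-- **Localisation at inertia is injective**, over `ℚ`. -/
theorem coh_main2 {p : ℕ} [hp : Fact p.Prime] (hNU : NoUnr p) {n : ℕ} {A : Type} [CommRing A]
    [IsLocalRing A] [IsNoetherianRing A] [TopologicalSpace A] (hA : IsAdic (maximalIdeal A))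
    (hpA : (p : A) ∈ maximalIdeal A) (ρ : GF ℚ →* GL (Fin n) A)
    (hρ : Continuous ρ)
    (hur : ∀ Q : Ideal (OO ℚ), Q.IsMaximal → (p : OO ℚ) ∉ Q → ∀ τ, InInertia Q τ → ρ τ = 1)
    (hres : ∃ (k : Type) (_ : Field k) (_ : Algebra (ResidueField A) k)
      (χ : Fin n → (GF ℚ →* kˣ)), ∀ g : GF ℚ,
        (((ρ g : Matrix (Fin n) (Fin n) A).map (residue A)).map
          (algebraMap (ResidueField A) k)).charpoly =
            ∏ i, (Polynomial.X - Polynomial.C ((χ i g : kˣ) : k)))
    (z : GF ℚ → Fin n → A) (hz : Continuous z)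
    (hzc : ∀ g h, z (g * h) = z g + (ρ g : Matrix (Fin n) (Fin n) A) *ᵥ z h)
    (hzur : ∀ Q : Ideal (OO ℚ), Q.IsMaximal → (p : OO ℚ) ∉ Q → ∀ τ, InInertia Q τ → z τ = 0)
    {P : Ideal (OO ℚ)} (hP : P.IsMaximal) (hpP : (p : OO ℚ) ∈ P) (g : GF ℚ) :
    ∃ h, InInertia P h ∧ ρ h = ρ g ∧ z h = z g := by
  have hc : Cocyc ρ z := hzc
  obtain ⟨k, _, _, χ, hχ⟩ := hres
  obtain ⟨d, hd, e⟩ := main2 hNU hA hpA (ext hc) (ext_cont hc hρ hz)
    (fun Q hQ hpQ τ hτ => ext_one hc (hur Q hQ hpQ τ hτ) (hzur Q hQ hpQ τ hτ))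
    ⟨k, inferInstance, inferInstance, Fin.snoc χ 1, fun g => by
      rw [ext_val, Fin.prod_univ_castSucc]
      simp only [Fin.snoc_castSucc, Fin.snoc_last]
      rw [← hχ g]
      have h1 : ((Matrix.reindex (finSumFinEquiv (m := n) (n := 1)) finSumFinEquiv
          (fromBlocks (ρ g : Matrix (Fin n) (Fin n) A) (colm (z g)) 0 1)).map (residue A)).map
            (algebraMap (ResidueField A) k) =
          Matrix.reindex finSumFinEquiv finSumFinEquiv
            (fromBlocks (((ρ g : Matrix (Fin n) (Fin n) A).map (residue A)).map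
              (algebraMap (ResidueField A) k)) (((colm (z g)).map (residue A)).map
              (algebraMap (ResidueField A) k)) 0 1) := by
        have h2 : fromBlocks (((ρ g : Matrix (Fin n) (Fin n) A).map (residue A)).map
              (algebraMap (ResidueField A) k)) (((colm (z g)).map (residue A)).map
              (algebraMap (ResidueField A) k)) 0 1 =
            ((fromBlocks (ρ g : Matrix (Fin n) (Fin n) A) (colm (z g)) 0
              (1 : Matrix (Fin 1) (Fin 1) A)).map (residue A)).map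
              (algebraMap (ResidueField A) k) := by
          rw [fromBlocks_map, fromBlocks_map]
          congr 1
          · ext i j; simp
          · ext i j
            obtain rfl : i = j := Subsingleton.elim i j
            simp
        rw [h2]
        rfl
      rw [h1, Matrix.charpoly_reindex, Matrix.charpoly_fromBlocks_zero₂₁, Matrix.charpoly_one]
      simp⟩ hP hpP g
  exact ⟨d, hd, ext_inj hc e⟩

end Pool.Agent.X290.Reg
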