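import Pool.Agent.X290.Reg.Base2

/-!
# Discrete Galois modules which behave like the points of an abelian variety
-/

set_option autoImplicit false

namespace Pool.Agent.X290.Reg

open NumberField Pool.Agent.W569.FM Pool.Agent.W215.FM Pointwise

section
variable {F : Type} [Field F] {p : ℕ} {M : Type} [AddCommGroup M] [DistribMulAction (GF F) M]

theorem pow_smul_eq (v : GF F) (y : M) (i : ℕ) :
    v ^ i • y = y + ∑ a ∈ Finset.range i, v ^ a • (v • y - y) := by
  induction i with
  | zero => simp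
  | succ i ih =>
    rw [Finset.sum_range_succ, ← add_assoc, ← ih, smul_sub, pow_succ, mul_smul]
    abel

theorem ppow (U : Subgroup (GF F))
    (hU : ∀ y : M, p • y = 0 → ∀ u ∈ U, ∃ k, u ^ p ^ k • y = y) (n : ℕ) :
    ∀ y : M, ∀ u ∈ U, u • (p ^ n • y) = p ^ n • y → ∃ k, u ^ p ^ k • y = y := by
  induction n with
  | zero =>
    intro y u _ h
    refine ⟨0, ?_⟩
    simpa using h
  | succ n ih =>
    intro y u hu h
    have h1 : u • (p ^ n • (p • y)) = p ^ n • (p • y) := by
      rw [smul_smul, ← pow_succ]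
      exact h
    obtain ⟨k, hk⟩ := ih (p • y) u hu h1
    set v := u ^ p ^ k with hv
    have hvU : v ∈ U := U.pow_mem hu _
    have hpt : p • (v • y - y) = 0 := by
      rw [smul_sub, ← smul_comm v p y, hk, sub_self]
    obtain ⟨j, hj⟩ := hU _ hpt v hvU
    set w := v ^ p ^ j with hw
    set t' := w • y - y with ht'
    have hwt : w • t' = t' := by
      have h2 : t' = ∑ a ∈ Finset.range (p ^ j), v ^ a • (v • y - y) := by
        rw [ht', hw, pow_smul_eq]
        abel
      rw [h2, Finset.smul_sum]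
      refine Finset.sum_congr rfl fun a _ => ?_
      rw [← mul_smul, hw, ← pow_add, add_comm, pow_add, mul_smul, hj]
    have hpt' : p • t' = 0 := by
      rw [ht', smul_sub, ← smul_comm w p y]
      have h3 : w • (p • y) = p • y := by
        rw [hw]
        have h4 : ∀ i : ℕ, v ^ i • (p • y) = p • y := by
          intro i
          induction i with
          | zero => simp
          | succ i ih => rw [pow_succ, mul_smul, hk, ih]
        exact h4 _
      rw [h3, sub_self]
    refine ⟨k + j + 1, ?_⟩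
    have h5 : u ^ p ^ (k + j + 1) = w ^ p := by
      rw [hw, hv, ← pow_mul, ← pow_mul]
      congr 1
      ring
    rw [h5, pow_smul_eq]
    have h6 : ∑ a ∈ Finset.range p, w ^ a • (w • y - y) = p • t' := by
      have h7 : ∀ a : ℕ, w ^ a • t' = t' := by
        intro a
        induction a with
        | zero => simp
        | succ a ih => rw [pow_succ, mul_smul, hwt]; exact ih
      rw [Finset.sum_congr rfl (fun a _ => h7 a), Finset.sum_const, Finset.card_range]
    rw [h6, hpt', add_zero]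

end

section
variable {F : Type} [Field F] [NumberField F] {p : ℕ} [hp : Fact p.Prime]
  {M : Type} [AddCommGroup M] [DistribMulAction (GF F) M]

theorem core_open {y : M} (hst : IsOpen (MulAction.stabilizer (GF F) y : Set (GF F))) :
    IsOpen ((MulAction.stabilizer (GF F) y).normalCore : Set (GF F)) := by
  have hfin : Finite (GF F ⧸ MulAction.stabilizer (GF F) y) :=
    Subgroup.quotient_finite_of_isOpen _ hst
  have hfi : (MulAction.stabilizer (GF F) y).FiniteIndex :=
    Subgroup.finiteIndex_of_finite_quotient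
  have hcl : IsClosed (MulAction.stabilizer (GF F) y : Set (GF F)) :=
    Subgroup.isClosed_of_isOpen _ hst
  have hcl2 : IsClosed ((MulAction.stabilizer (GF F) y).normalCore : Set (GF F)) := by
    have h1 : ((MulAction.stabilizer (GF F) y).normalCore : Set (GF F)) =
        ⋂ b : GF F, {a | b * a * b⁻¹ ∈ (MulAction.stabilizer (GF F) y : Set (GF F))} := by
      ext a
      rw [Set.mem_iInter]
      rfl
    rw [h1]
    refine isClosed_iInter fun b => hcl.preimage ?_
    exact (continuous_const.mul continuous_id).mul continuous_const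
  exact Subgroup.isOpen_of_isClosed_of_finiteIndex _ hcl2

theorem orbit_values (U : Subgroup (GF F)) [hUn : U.Normal]
    (hUo : IsOpen (U : Set (GF F))) (hNU : NoUnrF p (FF U)) (hone : OnePrime p (FF U))
    {P : Ideal (OO F)} (hP : P.IsMaximal) (hpP : (p : OO F) ∈ P) (y : M)
    (hst : IsOpen (MulAction.stabilizer (GF F) y : Set (GF F)))
    (hur : ∀ Q : Ideal (OO F), Q.IsMaximal → (p : OO F) ∉ Q → ∀ τ, InInertia Q τ → ∀ g : GF F,
      τ • (g • y) = g • y)
    (hpow : ∀ u ∈ U, ∀ g : GF F, ∃ k, u ^ p ^ k • (g • y) = g • y) :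
    (∀ u ∈ U, ∃ h, InInertia P h ∧ h ∈ U ∧ h • y = u • y) ∧
    ∀ g : GF F, ∃ d : GF F, (∀ x : OO F, d • x ∈ P ↔ x ∈ P) ∧ d • y = g • y := by
  have hUc : IsClosed (U : Set (GF F)) := Subgroup.isClosed_of_isOpen _ hUo
  set N := (MulAction.stabilizer (GF F) y).normalCore with hN
  have hmem : ∀ a : GF F, (∀ b : GF F, a • (b⁻¹ • y) = b⁻¹ • y) → a ∈ N := by
    intro a ha b
    rw [MulAction.mem_stabilizer_iff, mul_smul, mul_smul, ha b, smul_inv_smul]
  have hNo : IsOpen (N : Set (GF F)) := core_open hst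
  have hfinO : Finite (MulAction.orbit (GF F) y) := by
    have hfin : Finite (GF F ⧸ MulAction.stabilizer (GF F) y) :=
      Subgroup.quotient_finite_of_isOpen _ hst
    exact Finite.of_equiv _ (MulAction.orbitEquivQuotientStabilizer (GF F) y).symm
  have h1 : ∀ u ∈ U, ∃ h, InInertia P h ∧ h ∈ U ∧ h⁻¹ * u ∈ N := by
    intro u hu
    obtain ⟨h, hh, h2⟩ := mod_openU U hUo hNU hone hP hpP N hNo
      (fun Q hQ hpQ τ hτ => hmem τ fun b => hur Q hQ hpQ τ hτ b⁻¹)
      (fun u hu => by
        have h3 : ∀ y' : MulAction.orbit (GF F) y, ∃ k, u ^ p ^ k • (y' : M) = y' := by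
          rintro ⟨_, g, rfl⟩
          exact hpow u hu g
        choose k hk using h3
        have : Fintype (MulAction.orbit (GF F) y) := Fintype.ofFinite _
        refine ⟨Finset.univ.sup k, hmem _ fun b => ?_⟩
        have h4 := hk ⟨b⁻¹ • y, b⁻¹, rfl⟩
        have h5 : k ⟨b⁻¹ • y, b⁻¹, rfl⟩ ≤ Finset.univ.sup k := Finset.le_sup (Finset.mem_univ _)
        obtain ⟨e, he⟩ := Nat.exists_eq_add_of_le h5
        rw [he, pow_add, pow_mul]
        have h6 : ∀ i : ℕ, (u ^ p ^ k ⟨b⁻¹ • y, b⁻¹, rfl⟩) ^ i • (b⁻¹ • y) = b⁻¹ • y := by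
          intro i
          induction i with
          | zero => simp
          | succ i ih => rw [pow_succ, mul_smul, h4, ih]
        exact h6 _) u hu
    exact ⟨h, hh.1, hh.2, h2⟩
  have hfix : ∀ a ∈ N, a • y = y := fun a ha => Subgroup.normalCore_le _ ha
  refine ⟨fun u hu => ?_, fun g => ?_⟩
  · obtain ⟨h, hh, hhU, h2⟩ := h1 u hu
    refine ⟨h, hh, hhU, ?_⟩
    have h3 := hfix _ h2
    rw [mul_smul] at h3
    exact (inv_smul_eq_iff.1 h3).symm
  · have hgP : (g • P).IsMaximal := by
      rw [Ideal.pointwise_smul_def]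
      exact Ideal.map_isMaximal_of_equiv (MulSemiringAction.toRingEquiv (GF F) (OO F) g)
    have hpg : (p : OO F) ∈ g • P := by
      rw [Ideal.mem_pointwise_smul_iff_inv_smul_mem]
      have : g⁻¹ • (p : OO F) = (p : OO F) := by
        have := map_natCast (MulSemiringAction.toRingHom (GF F) (OO F) g⁻¹) p
        exact this
      rw [this]
      exact hpP
    obtain ⟨u, hu, hug⟩ := exists_conj_U U hUc hone hP hgP hpP hpg
    obtain ⟨h, hh, -, hhu⟩ := h1 u hu
    refine ⟨h * (u⁻¹ * g), ?_, ?_⟩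
    · intro x
      have h2 : (u⁻¹ * g) • P = P := by
        rw [mul_smul, hug, inv_smul_smul]
      have h3 : (u⁻¹ * g) • x ∈ P ↔ x ∈ P := by
        conv_lhs => rw [← h2]
        exact Ideal.smul_mem_pointwise_smul_iff
      rw [mul_smul, ← h3]
      have h4 := hh ((u⁻¹ * g) • x)
      constructor
      · intro h5
        have := P.sub_mem h5 h4
        rwa [sub_sub_cancel] at this
      · intro h5
        have := P.add_mem h4 h5
        rwa [sub_add_cancel] at this
    · -- `h * u⁻¹ ∈ N`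
      have hNn : N.Normal := by rw [hN]; infer_instance
      have h5 : (u * h⁻¹) ∈ N := by
        have h6 := hNn.conj_mem _ hhu u
        have e : u * (h⁻¹ * u) * u⁻¹ = u * h⁻¹ := by group
        rwa [e] at h6
      have h7 : h * u⁻¹ ∈ N := by
        have h8 := N.inv_mem h5
        have e : (u * h⁻¹)⁻¹ = h * u⁻¹ := by group
        rwa [e] at h8
      have h9 : g⁻¹ * (h * u⁻¹) * g ∈ N := by
        have h10 := hNn.conj_mem _ h7 g⁻¹
        rwa [inv_inv] at h10
      have h11 := hfix _ h9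
      have e : h * (u⁻¹ * g) = g * (g⁻¹ * (h * u⁻¹) * g) := by group
      rw [e, mul_smul, h11]

end

/-- integral points in a free module, `p`-adically -/
theorem padic_zero {p : ℕ} [hp : Fact p.Prime] {x : ℤ_[p]}
    (h : ∀ n : ℕ, x ∈ Ideal.span {(p : ℤ_[p]) ^ n}) : x = 0 := by
  have h1 : x ∈ ⨅ n : ℕ, IsLocalRing.maximalIdeal ℤ_[p] ^ n := by
    rw [Ideal.mem_iInf]
    intro n
    rw [PadicInt.maximalIdeal_eq_span_p, Ideal.span_singleton_pow]
    exact h n
  rw [Ideal.iInf_pow_eq_bot_of_isLocalRing _ (Ideal.IsPrime.ne_top inferInstance)] at h1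
  exact h1

theorem matrix_inj {p : ℕ} [hp : Fact p.Prime] {r s : ℕ} (X : Matrix (Fin s) (Fin r) ℤ)
    (hX : ∀ c : Fin r → ℤ, X.mulVec c = 0 → c = 0) (a : Fin r → ℤ_[p])
    (ha : (X.map (Int.cast : ℤ → ℤ_[p])).mulVec a = 0) : a = 0 := by
  -- injectivity over `ℚ`
  have hQ : ∀ c : Fin r → ℚ, (X.map (Int.cast : ℤ → ℚ)).mulVec c = 0 → c = 0 := by
    intro c hc
    obtain ⟨N, hN⟩ := IsLocalization.exist_integer_multiples_of_finite (nonZeroDivisors ℤ) c
    choose b hb using hN
    have hN0 : ((N : ℤ) : ℚ) ≠ 0 := by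
      exact_mod_cast nonZeroDivisors.ne_zero N.2
    have hb' : ∀ i, (b i : ℚ) = (N : ℤ) * c i := by
      intro i
      have := hb i
      rw [Algebra.smul_def] at this
      simpa using this
    have h1 : X.mulVec b = 0 := by
      funext j
      have h2 := congrFun hc j
      rw [Matrix.mulVec, dotProduct] at h2 ⊢
      have h3 : ((∑ i, X j i * b i : ℤ) : ℚ) = 0 := by
        push_cast
        have h4 : ∀ i, (X j i : ℚ) * (b i : ℚ) = (N : ℤ) * ((X.map (Int.cast : ℤ → ℚ)) j i * c i) := by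
          intro i
          rw [hb' i, Matrix.map_apply]
          ring
        rw [Finset.sum_congr rfl fun i _ => h4 i, ← Finset.mul_sum, h2]
        simp
      exact_mod_cast h3
    have h2 := hX b h1
    funext i
    have h3 := hb' i
    rw [h2] at h3
    have h4 : (N : ℤ) * c i = 0 := by rw [← h3]; simp
    exact (mul_eq_zero.1 h4).resolve_left hN0
  obtain ⟨g, hg⟩ := LinearMap.exists_leftInverse_of_injective
    (Matrix.toLin' (X.map (Int.cast : ℤ → ℚ))) (LinearMap.ker_eq_bot'.2 fun c hc => hQ c (by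
      rw [Matrix.toLin'_apply] at hc; exact hc))
  set Y := LinearMap.toMatrix' g with hY
  have h1 : Y * X.map (Int.cast : ℤ → ℚ) = 1 := by
    rw [hY]
    apply Matrix.toLin'.injective
    rw [Matrix.toLin'_mul, Matrix.toLin'_toMatrix', hg, Matrix.toLin'_one]
  have h2 : Y.map (algebraMap ℚ ℚ_[p]) * (X.map (Int.cast : ℤ → ℚ)).map (algebraMap ℚ ℚ_[p]) = 1 := by
    rw [← Matrix.map_mul, h1]
    exact Matrix.map_one _ (map_zero _) (map_one _)
  have h3 : ((X.map (Int.cast : ℤ → ℚ)).map (algebraMap ℚ ℚ_[p])).mulVec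
      (fun i => (a i : ℚ_[p])) = 0 := by
    funext j
    have h4 := congrArg (fun z : ℤ_[p] => (z : ℚ_[p])) (congrFun ha j)
    rw [Matrix.mulVec, dotProduct] at h4 ⊢
    simp only [Matrix.map_apply, Pi.zero_apply] at h4 ⊢
    rw [PadicInt.coe_zero] at h4
    rw [← h4]
    show _ = PadicInt.Coe.ringHom (∑ i, (X j i : ℤ_[p]) * a i)
    rw [map_sum]
    refine Finset.sum_congr rfl fun i _ => ?_
    rw [map_mul, map_intCast, map_intCast]
    rfl
  have h5 : (fun i => (a i : ℚ_[p])) = 0 := by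
    have h6 := congrArg (fun v => (Y.map (algebraMap ℚ ℚ_[p])).mulVec v) h3
    simp only [Matrix.mulVec_mulVec, Matrix.mulVec_zero] at h6
    rwa [h2, Matrix.one_mulVec] at h6
  funext i
  have h7 : (a i : ℚ_[p]) = 0 := congrFun h5 i
  show a i = 0
  exact PadicInt.ext (by rw [h7]; rfl)

/-- `p`-adic independence in a finitely generated group -/
theorem fg_indep {p : ℕ} [hp : Fact p.Prime] {Γ : Type} [AddCommGroup Γ] [hΓ : Module.Finite ℤ Γ]
    {r : ℕ} (x : Fin r → Γ) (hx : LinearIndependent ℤ x) (a : Fin r → ℤ_[p])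
    (h : ∀ n : ℕ, ∃ b : Fin r → ℤ, (∀ i, (b i : ℤ_[p]) - a i ∈ Ideal.span {(p : ℤ_[p]) ^ n}) ∧
      ∃ y : Γ, ∑ i, b i • x i = p ^ n • y) : a = 0 := by
  let T := Submodule.torsion ℤ Γ
  have hfree : Module.Free ℤ (Γ ⧸ T) := inferInstance
  let B := Module.Free.chooseBasis ℤ (Γ ⧸ T)
  obtain ⟨s, ⟨eqv⟩⟩ := Finite.exists_equiv_fin (Module.Free.ChooseBasisIndex ℤ (Γ ⧸ T))
  let f : Γ →ₗ[ℤ] (Fin s → ℤ) := (B.reindex eqv).equivFun.toLinearMap.comp T.mkQ
  let X : Matrix (Fin s) (Fin r) ℤ := fun j i => f (x i) j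
  have hfc : ∀ c : Fin r → ℤ, X.mulVec c = f (∑ i, c i • x i) := by
    intro c
    funext j
    rw [map_sum, Finset.sum_apply, Matrix.mulVec, dotProduct]
    refine Finset.sum_congr rfl fun i _ => ?_
    rw [map_smul, Pi.smul_apply, smul_eq_mul, mul_comm]
  refine matrix_inj X (fun c hc => ?_) a ?_
  · rw [hfc] at hc
    have h1 : T.mkQ (∑ i, c i • x i) = 0 := (B.reindex eqv).equivFun.map_eq_zero_iff.1 hc
    rw [Submodule.mkQ_apply, Submodule.Quotient.mk_eq_zero] at h1
    obtain ⟨N, hN⟩ := (Submodule.mem_torsion_iff _).1 h1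
    have h2 : ∑ i, ((N : ℤ) * c i) • x i = 0 := by
      have h3 : (N : ℤ) • (∑ i, c i • x i) = 0 := hN
      rw [Finset.smul_sum] at h3
      rw [← h3]
      exact Finset.sum_congr rfl fun i _ => by rw [mul_smul]
    have h3 := Fintype.linearIndependent_iff.1 hx _ h2
    funext i
    exact (mul_eq_zero.1 (h3 i)).resolve_left (nonZeroDivisors.ne_zero N.2)
  · funext j
    apply padic_zero
    intro n
    obtain ⟨b, hb, y, hy⟩ := h n
    have h1 : X.mulVec b j = p ^ n * f y j := by
      rw [hfc, hy, map_nsmul]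
      simp
    have h2 : (X.map (Int.cast : ℤ → ℤ_[p])).mulVec a j =
        ((X.mulVec b j : ℤ) : ℤ_[p]) - ∑ i, (X j i : ℤ_[p]) * ((b i : ℤ_[p]) - a i) := by
      rw [Matrix.mulVec, dotProduct, Matrix.mulVec, dotProduct]
      push_cast
      rw [← Finset.sum_sub_distrib]
      refine Finset.sum_congr rfl fun i _ => ?_
      rw [Matrix.map_apply]
      ring
    rw [h2, h1]
    refine Ideal.sub_mem _ ?_ (Ideal.sum_mem _ fun i _ => Ideal.mul_mem_left _ _ (hb i))
    push_cast
    exact Ideal.mul_mem_right _ _ (Ideal.mem_span_singleton_self _)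

end Pool.Agent.X290.Reg
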