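import Mathlib.GroupTheory.Frattini
import Mathlib.GroupTheory.PGroup
import Mathlib.GroupTheory.Perm.Cycle.Type
import Mathlib.Tactic

/-!
# Burnside's theorem on automorphisms of finite `p`-groups
-/

set_option autoImplicit false

namespace Pool.Agent.X290.Reg

theorem pow_aut_mem {P : Type} [Group P] (M : Subgroup P) (τ : MulAut P)
    (h : ∀ x : P, τ x * x⁻¹ ∈ M) (j : ℕ) : ∀ x : P, (τ ^ j) x * x⁻¹ ∈ M := by
  induction j with
  | zero => intro x; simp
  | succ j ih =>
    intro x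
    have e : (τ ^ (j + 1)) x * x⁻¹ = ((τ ^ j) (τ x) * (τ x)⁻¹) * (τ x * x⁻¹) := by
      rw [pow_succ, MulAut.mul_apply]
      group
    rw [e]
    exact mul_mem (ih _) (h _)

/-- An automorphism of prime order `q ≠ p` which is trivial modulo the Frattini subgroup. -/
theorem bur_prime {p q : ℕ} [hp : Fact p.Prime] [hq : Fact q.Prime] (hpq : p ≠ q) {P : Type}
    [Group P] [Finite P] (hP : IsPGroup p P) (τ : MulAut P) (hτ : τ ^ q = 1)
    (h : ∀ x : P, τ x * x⁻¹ ∈ frattini P) : τ = 1 := by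
  classical
  let Fx : Subgroup P :=
    { carrier := {x | τ x = x}
      mul_mem' := fun {a b} ha hb => by
        show τ (a * b) = a * b
        rw [map_mul, show τ a = a from ha, show τ b = b from hb]
      one_mem' := map_one τ
      inv_mem' := fun {a} ha => by
        show τ a⁻¹ = a⁻¹
        rw [map_inv, show τ a = a from ha] }
  have key : Fx ⊔ frattini P = ⊤ := by
    rw [eq_top_iff]
    rintro x -
    let α := {y : P // y * x⁻¹ ∈ frattini P}
    have : Fintype α := Fintype.ofFinite _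
    let f : Function.End α := fun y => ⟨τ y.1, by
      have e : τ y.1 * x⁻¹ = (τ y.1 * y.1⁻¹) * (y.1 * x⁻¹) := by group
      rw [e]
      exact mul_mem (h _) y.2⟩
    have hfp : ∀ (n : ℕ) (y : α), ((f ^ n) y : α).1 = (τ ^ n) y.1 := by
      intro n
      induction n with
      | zero => intro y; rfl
      | succ n ih =>
        intro y
        rw [pow_succ, pow_succ, MulAut.mul_apply]
        show ((f ^ n) (f y) : α).1 = _
        rw [ih]
    have hf : f ^ q ^ 1 = 1 := by
      funext y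
      apply Subtype.ext
      rw [hfp, pow_one, hτ]
      rfl
    have h1 := Equiv.Perm.card_fixedPoints_modEq (p := q) (n := 1) (f := f) hf
    have h2 : Fintype.card α = Nat.card (frattini P) := by
      rw [← Nat.card_eq_fintype_card]
      refine Nat.card_congr ?_
      exact (Equiv.mulRight x⁻¹).subtypeEquiv fun y => Iff.rfl
    obtain ⟨b, hb⟩ := IsPGroup.iff_card.1 (hP.to_subgroup (frattini P))
    have h3 : Fintype.card f.fixedPoints ≠ 0 := by
      intro h4
      rw [h4, h2, hb] at h1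
      have h5 : q ∣ p ^ b := (Nat.modEq_zero_iff_dvd).1 h1
      have h6 := hq.out.dvd_of_dvd_pow h5
      exact hpq ((Nat.prime_dvd_prime_iff_eq hq.out hp.out).1 h6).symm
    obtain ⟨⟨y, hy⟩⟩ := Fintype.card_pos_iff.1 (Nat.pos_of_ne_zero h3)
    have hy1 : y.1 ∈ Fx := congrArg Subtype.val hy
    have e : x = (y.1 * x⁻¹)⁻¹ * y.1 := by group
    rw [e]
    exact mul_mem (Subgroup.mem_sup_right (inv_mem y.2)) (Subgroup.mem_sup_left hy1)
  have hall := frattini_nongenerating key
  ext x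
  have hx : x ∈ Fx := by rw [hall]; trivial
  exact hx

/-- An automorphism of a finite `p`-group acting through a `p`-power on the maximal quotients has
`p`-power order. -/
theorem bur {p : ℕ} [hp : Fact p.Prime] {P : Type} [Group P] [Finite P] (hP : IsPGroup p P)
    (σ : MulAut P)
    (h : ∀ M : Subgroup P, IsCoatom M → ∃ k : ℕ, ∀ x : P, (σ ^ p ^ k) x * x⁻¹ ∈ M) :
    ∃ k : ℕ, σ ^ p ^ k = 1 := by
  classical
  have : Fintype {M : Subgroup P // IsCoatom M} := Fintype.ofFinite _
  have h' : ∀ M : {M : Subgroup P // IsCoatom M}, ∃ k : ℕ, ∀ x : P,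
      (σ ^ p ^ k) x * x⁻¹ ∈ M.1 := fun M => h M.1 M.2
  choose k hk using h'
  set K := Finset.univ.sup k with hK
  have h1 : ∀ x : P, (σ ^ p ^ K) x * x⁻¹ ∈ frattini P := by
    intro x
    rw [frattini, Order.radical, Subgroup.mem_iInf]
    intro M
    rw [Subgroup.mem_iInf]
    intro hM
    have h5 : k ⟨M, hM⟩ ≤ K := Finset.le_sup (Finset.mem_univ _)
    obtain ⟨e, he⟩ := Nat.exists_eq_add_of_le h5
    rw [he, pow_add, pow_mul]
    exact pow_aut_mem M _ (hk ⟨M, hM⟩) _ x
  set ψ := σ ^ p ^ K with hψ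
  have hfo : 0 < orderOf ψ := orderOf_pos ψ
  obtain ⟨a, m, hm, ham⟩ := Nat.exists_eq_pow_mul_and_not_dvd hfo.ne' p hp.out.ne_one
  refine ⟨K + a, ?_⟩
  rw [pow_add, pow_mul, ← hψ]
  by_contra hne
  set τ := ψ ^ p ^ a with hτ
  have hτm : τ ^ m = 1 := by
    rw [hτ, ← pow_mul, ← ham, pow_orderOf_eq_one]
  have hτo : orderOf τ ≠ 1 := fun h => hne (orderOf_eq_one_iff.1 h)
  obtain ⟨q, hq, hqd⟩ := Nat.exists_prime_and_dvd hτo
  have : Fact q.Prime := ⟨hq⟩
  have hqm : q ∣ m := hqd.trans (orderOf_dvd_of_pow_eq_one hτm)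
  have hpq : p ≠ q := by
    rintro rfl
    exact hm hqm
  have h2 : τ ^ (orderOf τ / q) = 1 := by
    refine bur_prime hpq hP _ ?_ ?_
    · rw [← pow_mul, Nat.div_mul_cancel hqd, pow_orderOf_eq_one]
    · rw [hτ, ← pow_mul]
      exact pow_aut_mem _ _ h1 _
  have h3 := orderOf_dvd_of_pow_eq_one h2
  have h4 : 0 < orderOf τ := orderOf_pos τ
  have h5 : orderOf τ / q < orderOf τ := Nat.div_lt_self h4 hq.one_lt
  have h6 : 0 < orderOf τ / q := Nat.div_pos (Nat.le_of_dvd h4 hqd) hq.pos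
  exact absurd (Nat.le_of_dvd h6 h3) (not_le.2 h5)

end Pool.Agent.X290.Reg
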