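import Pool.Agent.X290.Reg.Base2
import Pool.Agent.X290.Reg.Bur
import Mathlib.Topology.Algebra.ClopenNhdofOne

/-!
# Sections of extensions of the Galois group by pro-`p` groups
-/

set_option autoImplicit false

namespace Pool.Agent.X290.Reg

open NumberField Pool.Agent.W569.FM Pool.Agent.W215.FM Pointwise

section
variable {F : Type} [Field F] [NumberField F] {p : ℕ} [hp : Fact p.Prime]
  {X : Type} [MulAction (GF F) X]

theorem core_open' {y : X} (hst : IsOpen (MulAction.stabilizer (GF F) y : Set (GF F))) :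
    IsOpen ((MulAction.stabilizer (GF F) y).normalCore : Set (GF F)) := by
  have hfin : Finite (GF F ⧸ MulAction.stabilizer (GF F) y) :=
    Subgroup.quotient_finite_of_isOpen _ hst
  have hfi : (MulAction.stabilizer (GF F) y).FiniteIndex :=
    Subgroup.finiteIndex_of_finite_quotient
  have hcl : IsClosed (MulAction.stabilizer (GF F) y : Set (GF F)) :=
    Subgroup.isClosed_of_isOpen _ hst
  have hcl2 : IsClosed ((MulAction.stabilizer (GF F) y).normalCore : Set (GF F)) := by
    have h1 : ((MulAction.stabilizer (GF F) y).normalCore : Set (GF F)) =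
        ⋂ b : GF F, {a | b * a * b⁻¹ ∈ (MulAction.stabilizer (GF F) y : Set (GF F))} := by
      ext a
      rw [Set.mem_iInter]
      rfl
    rw [h1]
    refine isClosed_iInter fun b => hcl.preimage ?_
    exact (continuous_const.mul continuous_id).mul continuous_const
  exact Subgroup.isOpen_of_isClosed_of_finiteIndex _ hcl2

theorem orbit_values' (U : Subgroup (GF F)) [hUn : U.Normal]
    (hUo : IsOpen (U : Set (GF F))) (hNU : NoUnrF p (FF U)) (hone : OnePrime p (FF U))
    {P : Ideal (OO F)} (hP : P.IsMaximal) (hpP : (p : OO F) ∈ P) (y : X)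
    (hst : IsOpen (MulAction.stabilizer (GF F) y : Set (GF F)))
    (hur : ∀ Q : Ideal (OO F), Q.IsMaximal → (p : OO F) ∉ Q → ∀ τ, InInertia Q τ → ∀ g : GF F,
      τ • (g • y) = g • y)
    (hpow : ∀ u ∈ U, ∀ g : GF F, ∃ k, u ^ p ^ k • (g • y) = g • y) :
    (∀ u ∈ U, ∃ h, InInertia P h ∧ h ∈ U ∧ h • y = u • y) ∧
    ∀ g : GF F, ∃ d : GF F, (∀ x : OO F, d • x ∈ P ↔ x ∈ P) ∧ d • y = g • y := by
  have hUc : IsClosed (U : Set (GF F)) := Subgroup.isClosed_of_isOpen _ hUo
  set N := (MulAction.stabilizer (GF F) y).normalCore with hN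
  have hmem : ∀ a : GF F, (∀ b : GF F, a • (b⁻¹ • y) = b⁻¹ • y) → a ∈ N := by
    intro a ha b
    rw [MulAction.mem_stabilizer_iff, mul_smul, mul_smul, ha b, smul_inv_smul]
  have hNo : IsOpen (N : Set (GF F)) := core_open' hst
  have hfinO : Finite (MulAction.orbit (GF F) y) := by
    have hfin : Finite (GF F ⧸ MulAction.stabilizer (GF F) y) :=
      Subgroup.quotient_finite_of_isOpen _ hst
    exact Finite.of_equiv _ (MulAction.orbitEquivQuotientStabilizer (GF F) y).symm
  have h1 : ∀ u ∈ U, ∃ h, InInertia P h ∧ h ∈ U ∧ h⁻¹ * u ∈ N := by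
    intro u hu
    obtain ⟨h, hh, h2⟩ := mod_openU U hUo hNU hone hP hpP N hNo
      (fun Q hQ hpQ τ hτ => hmem τ fun b => hur Q hQ hpQ τ hτ b⁻¹)
      (fun u hu => by
        have h3 : ∀ y' : MulAction.orbit (GF F) y, ∃ k, u ^ p ^ k • (y' : X) = y' := by
          rintro ⟨_, g, rfl⟩
          exact hpow u hu g
        choose k hk using h3
        have : Fintype (MulAction.orbit (GF F) y) := Fintype.ofFinite _
        refine ⟨Finset.univ.sup k, hmem _ fun b => ?_⟩
        have h4 := hk ⟨b⁻¹ • y, b⁻¹, rfl⟩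
        have h5 : k ⟨b⁻¹ • y, b⁻¹, rfl⟩ ≤ Finset.univ.sup k := Finset.le_sup (Finset.mem_univ _)
        obtain ⟨e, he⟩ := Nat.exists_eq_add_of_le h5
        rw [he, pow_add, pow_mul]
        have h6 : ∀ i : ℕ, (u ^ p ^ k ⟨b⁻¹ • y, b⁻¹, rfl⟩) ^ i • (b⁻¹ • y) = b⁻¹ • y := by
          intro i
          induction i with
          | zero => simp
          | succ i ih => rw [pow_succ, mul_smul, h4, ih]
        exact h6 _) u hu
    exact ⟨h, hh.1, hh.2, h2⟩
  have hfix : ∀ a ∈ N, a • y = y := fun a ha => Subgroup.normalCore_le _ ha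
  refine ⟨fun u hu => ?_, fun g => ?_⟩
  · obtain ⟨h, hh, hhU, h2⟩ := h1 u hu
    refine ⟨h, hh, hhU, ?_⟩
    have h3 := hfix _ h2
    rw [mul_smul] at h3
    exact (inv_smul_eq_iff.1 h3).symm
  · have hgP : (g • P).IsMaximal := by
      rw [Ideal.pointwise_smul_def]
      exact Ideal.map_isMaximal_of_equiv (MulSemiringAction.toRingEquiv (GF F) (OO F) g)
    have hpg : (p : OO F) ∈ g • P := by
      rw [Ideal.mem_pointwise_smul_iff_inv_smul_mem]
      have : g⁻¹ • (p : OO F) = (p : OO F) := by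
        have := map_natCast (MulSemiringAction.toRingHom (GF F) (OO F) g⁻¹) p
        exact this
      rw [this]
      exact hpP
    obtain ⟨u, hu, hug⟩ := exists_conj_U U hUc hone hP hgP hpP hpg
    obtain ⟨h, hh, -, hhu⟩ := h1 u hu
    refine ⟨h * (u⁻¹ * g), ?_, ?_⟩
    · intro x
      have h2 : (u⁻¹ * g) • P = P := by
        rw [mul_smul, hug, inv_smul_smul]
      have h3 : (u⁻¹ * g) • x ∈ P ↔ x ∈ P := by
        conv_lhs => rw [← h2]
        exact Ideal.smul_mem_pointwise_smul_iff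
      rw [mul_smul, ← h3]
      have h4 := hh ((u⁻¹ * g) • x)
      constructor
      · intro h5
        have := P.sub_mem h5 h4
        rwa [sub_sub_cancel] at this
      · intro h5
        have := P.add_mem h4 h5
        rwa [sub_add_cancel] at this
    · have hNn : N.Normal := by rw [hN]; infer_instance
      have h5 : (u * h⁻¹) ∈ N := by
        have h6 := hNn.conj_mem _ hhu u
        have e : u * (h⁻¹ * u) * u⁻¹ = u * h⁻¹ := by group
        rwa [e] at h6
      have h7 : h * u⁻¹ ∈ N := by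
        have h8 := N.inv_mem h5
        have e : (u * h⁻¹)⁻¹ = h * u⁻¹ := by group
        rwa [e] at h8
      have h9 : g⁻¹ * (h * u⁻¹) * g ∈ N := by
        have h10 := hNn.conj_mem _ h7 g⁻¹
        rwa [inv_inv] at h10
      have h11 := hfix _ h9
      have e : h * (u⁻¹ * g) = g * (g⁻¹ * (h * u⁻¹) * g) := by group
      rw [e, mul_smul, h11]

end

section
variable {F : Type} [Field F] [NumberField F] {p : ℕ} [hp : Fact p.Prime]
  {E : Type} [Group E] [TopologicalSpace E] [IsTopologicalGroup E] [CompactSpace E]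

/-- Modulo an open normal subgroup, the difference of two sections takes the same values on
inertia, and on the decomposition group. -/
theorem sec_values (U : Subgroup (GF F)) [hUn : U.Normal]
    (hUo : IsOpen (U : Set (GF F))) (hNU : NoUnrF p (FF U)) (hone : OnePrime p (FF U))
    {P : Ideal (OO F)} (hP : P.IsMaximal) (hpP : (p : OO F) ∈ P)
    (N : Subgroup E) [hNn : N.Normal] (hNo : IsOpen (N : Set E)) (Δ : Subgroup E) [hΔn : Δ.Normal]
    (hΔ : ∀ δ ∈ Δ, ∃ k, δ ^ p ^ k ∈ N)
    (s s' : GF F →* E) (hs : Continuous s) (hs' : Continuous s')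
    (hss : ∀ g, s' g * (s g)⁻¹ ∈ Δ)
    (hur : ∀ Q : Ideal (OO F), Q.IsMaximal → (p : OO F) ∉ Q → ∀ τ, InInertia Q τ →
      s τ = 1 ∧ s' τ = 1)
    (huni : ∀ M : Subgroup Δ, IsOpen (M : Set Δ) → IsCoatom M → ∀ u ∈ U, ∃ k : ℕ, ∀ δ : Δ,
      MulAut.conjNormal (s u ^ p ^ k) δ * δ⁻¹ ∈ M) :
    (∀ u ∈ U, ∃ h, InInertia P h ∧ h ∈ U ∧ (s' h * (s h)⁻¹)⁻¹ * (s' u * (s u)⁻¹) ∈ N) ∧
    ∀ g : GF F, ∃ d : GF F, (∀ x : OO F, d • x ∈ P ↔ x ∈ P) ∧
      (s' d * (s d)⁻¹)⁻¹ * (s' g * (s g)⁻¹) ∈ N := by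
  classical
  have hfin : Finite (E ⧸ N) := Subgroup.quotient_finite_of_isOpen _ hNo
  let m : E →* E ⧸ N := QuotientGroup.mk' N
  have hm : Continuous m := continuous_quotient_mk'
  have hdis : DiscreteTopology (E ⧸ N) := QuotientGroup.discreteTopology hNo
  let Y : Subgroup (E ⧸ N) := Δ.map m
  have hYn : Y.Normal := hΔn.map m (QuotientGroup.mk'_surjective N)
  have hYm : ∀ δ ∈ Δ, m δ ∈ Y := fun δ hδ => ⟨δ, hδ, rfl⟩
  have hYp : IsPGroup p Y := by
    rintro ⟨_, δ, hδ, rfl⟩
    obtain ⟨k, hk⟩ := hΔ δ hδ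
    refine ⟨k, ?_⟩
    apply Subtype.ext
    show (m δ) ^ p ^ k = 1
    rw [← map_pow]
    exact (QuotientGroup.eq_one_iff _).2 hk
  let φ : Δ →* Y := m.subgroupMap Δ
  have hφ : Function.Surjective φ := MonoidHom.subgroupMap_surjective m Δ
  -- Burnside
  have hbur : ∀ u ∈ U, ∃ k : ℕ, ∀ y ∈ Y, (m (s u)) ^ p ^ k * y * ((m (s u)) ^ p ^ k)⁻¹ = y := by
    intro u hu
    obtain ⟨k, hk⟩ := bur hYp (MulAut.conjNormal (m (s u)) : MulAut Y) (by
      intro M hM
      have hM1 : IsCoatom (M.comap φ) := Subgroup.isCoatom_comap_of_surjective hφ hM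
      have hM2 : IsOpen ((M.comap φ : Subgroup Δ) : Set Δ) := by
        have h1 : IsOpen ((N.subgroupOf Δ : Subgroup Δ) : Set Δ) :=
          hNo.preimage continuous_subtype_val
        refine Subgroup.isOpen_mono (fun x hx => ?_) h1
        have h2 : φ x = 1 := by
          apply Subtype.ext
          exact (QuotientGroup.eq_one_iff _).2 hx
        show φ x ∈ M
        rw [h2]
        exact M.one_mem
      obtain ⟨k, hk⟩ := huni _ hM2 hM1 u hu
      refine ⟨k, fun x => ?_⟩
      obtain ⟨δ, rfl⟩ := hφ x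
      have h3 : φ (MulAut.conjNormal (s u ^ p ^ k) δ * δ⁻¹) ∈ M := hk δ
      rw [map_mul, map_inv] at h3
      have h4 : φ (MulAut.conjNormal (s u ^ p ^ k) δ) =
          ((MulAut.conjNormal (m (s u)) : MulAut Y) ^ p ^ k) (φ δ) := by
        have e1 : (MulAut.conjNormal (m (s u)) : MulAut Y) ^ p ^ k =
            MulAut.conjNormal (m (s u) ^ p ^ k) := (map_pow _ _ _).symm
        rw [e1]
        apply Subtype.ext
        rw [MulAut.conjNormal_apply]
        show m (MulAut.conjNormal (s u ^ p ^ k) δ : Δ) = _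
        rw [MulAut.conjNormal_apply, map_mul, map_mul, map_inv, map_pow]
        rfl
      rw [← h4]
      exact h3)
    refine ⟨k, fun y hy => ?_⟩
    rw [← map_pow] at hk
    have h5 := DFunLike.congr_fun hk (⟨y, hy⟩ : Y)
    have h6 := congrArg Subtype.val h5
    rw [MulAut.conjNormal_apply] at h6
    exact h6
  -- the action
  have hact : ∀ (g : GF F) (y : Y), m (s' g) * y * (m (s g))⁻¹ ∈ Y := by
    intro g y
    have e : m (s' g) * y * (m (s g))⁻¹ =
        m (s' g * (s g)⁻¹) * (m (s g) * y * (m (s g))⁻¹) := by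
      rw [map_mul, map_inv]
      group
    rw [e]
    exact mul_mem (hYm _ (hss g)) (hYn.conj_mem _ y.2 _)
  let _ : MulAction (GF F) Y :=
    { smul := fun g y => ⟨m (s' g) * y * (m (s g))⁻¹, hact g y⟩
      one_smul := fun y => by
        apply Subtype.ext
        show m (s' 1) * y * (m (s 1))⁻¹ = y
        simp
      mul_smul := fun a b y => by
        apply Subtype.ext
        show m (s' (a * b)) * y * (m (s (a * b)))⁻¹ =
          m (s' a) * (m (s' b) * y * (m (s b))⁻¹) * (m (s a))⁻¹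
        simp only [map_mul]
        group }
  have hsm : ∀ (g : GF F) (y : Y), ((g • y : Y) : E ⧸ N) = m (s' g) * y * (m (s g))⁻¹ :=
    fun g y => rfl
  have hpow : ∀ u ∈ U, ∀ y : Y, ∃ k, u ^ p ^ k • y = y := by
    intro u hu y
    obtain ⟨k, hk⟩ := hbur u hu
    set b : E := s' (u ^ p ^ k) * (s (u ^ p ^ k))⁻¹ with hb
    obtain ⟨l, hl⟩ := hΔ b (hss _)
    refine ⟨k + l, ?_⟩
    apply Subtype.ext
    rw [hsm, pow_add, pow_mul]
    set v := u ^ p ^ k with hv
    have hvc : ∀ y ∈ Y, m (s v) * y * (m (s v))⁻¹ = y := by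
      intro y hy
      have := hk y hy
      rwa [← map_pow, ← map_pow] at this
    have hcom : Commute (m (s v)) (m b) := by
      have h1 := hvc (m b) (hYm _ (hss _))
      exact mul_inv_eq_iff_eq_mul.1 h1
    have h2 : m (s' v) = m b * m (s v) := by
      rw [← map_mul, hb, inv_mul_cancel_right]
    have h3 : m (s' (v ^ p ^ l)) = m (s v) ^ p ^ l := by
      rw [map_pow, map_pow, h2, hcom.symm.mul_pow, ← map_pow m b]
      have h4 : m (b ^ p ^ l) = 1 := (QuotientGroup.eq_one_iff _).2 hl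
      rw [h4, one_mul]
    have h5 : ∀ i : ℕ, m (s v) ^ i * (y : E ⧸ N) * (m (s v) ^ i)⁻¹ = y := by
      intro i
      induction i with
      | zero => simp
      | succ i ih =>
        have e : m (s v) ^ (i + 1) * (y : E ⧸ N) * (m (s v) ^ (i + 1))⁻¹ =
            m (s v) ^ i * (m (s v) * y * (m (s v))⁻¹) * (m (s v) ^ i)⁻¹ := by
          rw [pow_succ]
          group
        rw [e, hvc _ y.2, ih]
    have h6 : m (s (v ^ p ^ l)) = m (s v) ^ p ^ l := by rw [map_pow, map_pow]
    rw [h3, h6]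
    exact h5 _
  have hval := orbit_values' U hUo hNU hone hP hpP (1 : Y) (by
      have h1 : (MulAction.stabilizer (GF F) (1 : Y) : Set (GF F)) =
          {g | m (s' g) * (m (s g))⁻¹ = 1} := by
        ext g
        show g • (1 : Y) = 1 ↔ _
        constructor
        · intro h
          have h2 := congrArg Subtype.val h
          rw [hsm] at h2
          simpa using h2
        · intro h
          apply Subtype.ext
          rw [hsm]
          simpa using h
      rw [h1]
      have h2 : Continuous fun g => m (s' g) * (m (s g))⁻¹ :=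
        (hm.comp hs').mul (hm.comp hs).inv
      exact (isOpen_discrete ({1} : Set (E ⧸ N))).preimage h2)
    (fun Q hQ hpQ τ hτ g => by
      obtain ⟨h1, h2⟩ := hur Q hQ hpQ τ hτ
      apply Subtype.ext
      rw [hsm, h1, h2]
      simp)
    (fun u hu g => hpow u hu _)
  have hconv : ∀ a b : GF F, a • (1 : Y) = b • (1 : Y) →
      (s' a * (s a)⁻¹)⁻¹ * (s' b * (s b)⁻¹) ∈ N := by
    intro a b h
    have h1 := congrArg Subtype.val h
    rw [hsm, hsm] at h1
    have h2 : m (s' a * (s a)⁻¹) = m (s' b * (s b)⁻¹) := by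
      rw [map_mul, map_mul, map_inv, map_inv]
      simpa using h1
    exact QuotientGroup.eq.1 h2
  refine ⟨fun u hu => ?_, fun g => ?_⟩
  · obtain ⟨h, hh, hhU, h2⟩ := hval.1 u hu
    exact ⟨h, hh, hhU, hconv _ _ h2⟩
  · obtain ⟨d, hd, h2⟩ := hval.2 g
    exact ⟨d, hd, hconv _ _ h2⟩

/-- In a profinite group an element of all open normal subgroups is trivial. -/
theorem eq_one_of_mem [T2Space E] [TotallyDisconnectedSpace E] {x : E}
    (h : ∀ N : Subgroup E, N.Normal → IsOpen (N : Set E) → x ∈ N) : x = 1 := by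
  by_contra hx
  obtain ⟨H, hH⟩ := ProfiniteGrp.exist_openNormalSubgroup_sub_open_nhds_of_one
    (isOpen_compl_singleton (x := x)) (Set.mem_compl_singleton_iff.2 fun h1 => hx h1.symm)
  exact hH (h H.toSubgroup H.isNormal' H.isOpen') rfl

end

end Pool.Agent.X290.Reg
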