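import Pool.Agent.X290.Reg.AV
import Pool.Agent.X290.Reg.Sec

/-!
# Classes of discrete Galois modules which are trivial at `p` and unramified elsewhere
-/

set_option autoImplicit false

namespace Pool.Agent.X290.Reg

open NumberField Pool.Agent.W569.FM Pool.Agent.W215.FM Pointwise

/-- the same type, with the affine action -/
def Aff (M : Type) : Type := M

section
variable {F : Type} [Field F] {p : ℕ} {M : Type} [AddCommGroup M] [DistribMulAction (GF F) M]

theorem coc_pow {c : GF F → M} (hc : ∀ g h, c (g * h) = c g + g • c h) (v : GF F) (j : ℕ) :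
    c (v ^ j) = ∑ a ∈ Finset.range j, v ^ a • c v := by
  induction j with
  | zero =>
    have h1 := hc 1 1
    rw [one_smul, mul_one] at h1
    have h2 : c 1 = 0 := by
      have := left_eq_add.1 h1
      exact this
    simpa using h2
  | succ j ih => rw [pow_succ, hc, ih, Finset.sum_range_succ]

theorem coc_kill (U : Subgroup (GF F))
    (hU : ∀ y : M, p • y = 0 → ∀ u ∈ U, ∃ k, u ^ p ^ k • y = y) {c : GF F → M}
    (hc : ∀ g h, c (g * h) = c g + g • c h) (n : ℕ) (hn : ∀ g, p ^ n • c g = 0)
    (x : M) (hx : p ^ n • x = 0) (u : GF F) (hu : u ∈ U) :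
    ∃ k : ℕ, u ^ p ^ k • x = x ∧ c (u ^ p ^ k) = 0 := by
  obtain ⟨k1, hk1⟩ := ppow U hU n x u hu (by rw [hx, smul_zero])
  set v := u ^ p ^ k1 with hv
  have hvU : v ∈ U := U.pow_mem hu _
  obtain ⟨k2, hk2⟩ := ppow U hU n (c v) v hvU (by rw [hn, smul_zero])
  set w := v ^ p ^ k2 with hw
  have hvx : ∀ i : ℕ, v ^ i • x = x := by
    intro i
    induction i with
    | zero => simp
    | succ i ih => rw [pow_succ, mul_smul, hk1, ih]
  have hws : w • c w = c w := by
    have h2 : c w = ∑ a ∈ Finset.range (p ^ k2), v ^ a • c v := coc_pow hc v _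
    rw [h2, Finset.smul_sum]
    refine Finset.sum_congr rfl fun a _ => ?_
    rw [← mul_smul, hw, ← pow_add, add_comm, pow_add, mul_smul, hk2]
  have hwi : ∀ i : ℕ, w ^ i • c w = c w := by
    intro i
    induction i with
    | zero => simp
    | succ i ih => rw [pow_succ, mul_smul, hws, ih]
  refine ⟨k1 + k2 + n, ?_, ?_⟩
  · have h5 : u ^ p ^ (k1 + k2 + n) = v ^ (p ^ k2 * p ^ n) := by
      rw [hv, ← pow_mul]
      congr 1
      ring
    rw [h5, hvx]
  · have h5 : u ^ p ^ (k1 + k2 + n) = w ^ p ^ n := by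
      rw [hw, hv, ← pow_mul, ← pow_mul]
      congr 1
      ring
    rw [h5, coc_pow hc, Finset.sum_congr rfl (fun a _ => hwi a), Finset.sum_const,
      Finset.card_range, hn]

end

section
variable {F : Type} [Field F] [NumberField F] {p : ℕ} [hp : Fact p.Prime]
  {M : Type} [AddCommGroup M] [DistribMulAction (GF F) M]

/-- A `p`-power torsion cocycle, unramified outside `p`, which is a coboundary at `p`. -/
theorem coc_global (U : Subgroup (GF F)) [hUn : U.Normal]
    (hUo : IsOpen (U : Set (GF F))) (hNU : NoUnrF p (FF U)) (hone : OnePrime p (FF U))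
    {P : Ideal (OO F)} (hP : P.IsMaximal) (hpP : (p : OO F) ∈ P)
    (hst : ∀ y : M, IsOpen (MulAction.stabilizer (GF F) y : Set (GF F)))
    (hur : ∀ Q : Ideal (OO F), Q.IsMaximal → (p : OO F) ∉ Q → ∀ (n : ℕ) (y : M),
      (∀ τ, InInertia Q τ → τ • (p ^ n • y) = p ^ n • y) → ∀ τ, InInertia Q τ → τ • y = y)
    (hU : ∀ y : M, p • y = 0 → ∀ u ∈ U, ∃ k, u ^ p ^ k • y = y) {c : GF F → M}
    (hc : ∀ g h, c (g * h) = c g + g • c h) (n : ℕ) (hn : ∀ g, p ^ n • c g = 0)
    (hc0 : {g : GF F | c g = 0} ∈ nhds (1 : GF F))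
    (hcur : ∀ Q : Ideal (OO F), Q.IsMaximal → (p : OO F) ∉ Q → ∀ τ, InInertia Q τ → c τ = 0)
    (t : M) (ht : p ^ n • t = 0)
    (htP : ∀ d : GF F, (∀ x : OO F, d • x ∈ P ↔ x ∈ P) → c d = d • t - t) (g : GF F) :
    c g = g • t - t := by
  let _ : MulAction (GF F) (Aff M) :=
    { smul := fun g y => (show M from g • (show M from y) - c g)
      one_smul := fun y => by
        show (1 : GF F) • (show M from y) - c 1 = y
        have h2 : c 1 = 0 := by
          have := coc_pow hc 1 0
          simpa using this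
        rw [one_smul, h2, sub_zero]
      mul_smul := fun a b y => by
        show (a * b) • (show M from y) - c (a * b) = a • (b • (show M from y) - c b) - c a
        rw [hc, mul_smul, smul_sub]
        abel }
  have hsm : ∀ (g : GF F) (y : M), ((g • (show Aff M from y) : Aff M) : M) = g • y - c g :=
    fun g y => rfl
  have hker : ∀ (g : GF F) (y : M), p ^ n • y = 0 → p ^ n • (g • y - c g) = 0 := by
    intro g y hy
    rw [smul_sub, hn, sub_zero, ← smul_comm g (p ^ n) y, hy, smul_zero]
  have key := orbit_values' (X := Aff M) U hUo hNU hone hP hpP (show Aff M from t) (by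
      apply Subgroup.isOpen_of_mem_nhds _ (g := 1)
      have h1 : (MulAction.stabilizer (GF F) t : Set (GF F)) ∈ nhds (1 : GF F) :=
        (hst t).mem_nhds (Subgroup.one_mem _)
      refine Filter.mem_of_superset (Filter.inter_mem h1 hc0) ?_
      rintro g ⟨hg1, hg2⟩
      show g • (show Aff M from t) = (show Aff M from t)
      have h3 : g • t = t := hg1
      have h4 : c g = 0 := hg2
      show g • t - c g = t
      rw [h3, h4, sub_zero])
    (fun Q hQ hpQ τ hτ g => by
      show τ • (g • t - c g) - c τ = g • t - c g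
      rw [hcur Q hQ hpQ τ hτ, sub_zero]
      refine hur Q hQ hpQ n _ (fun τ' _ => ?_) τ hτ
      rw [hker g t ht, smul_zero])
    (fun u hu g => by
      obtain ⟨k, hk1, hk2⟩ := coc_kill U hU hc n hn (g • t - c g) (hker g t ht) u hu
      refine ⟨k, ?_⟩
      show u ^ p ^ k • (g • t - c g) - c (u ^ p ^ k) = g • t - c g
      rw [hk1, hk2, sub_zero])
  obtain ⟨d, hd, h⟩ := key.2 g
  have h1 : d • t - c d = g • t - c g := h
  rw [htP d hd] at h1
  have h2 : d • t - (d • t - t) = t := by abel
  rw [h2] at h1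
  have h3 : c g = g • t - (g • t - c g) := by abel
  rw [h3, ← h1]

end

end Pool.Agent.X290.Reg
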