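import Mathlib

/-!
# Matrices over local rings: unipotent residue
-/

set_option autoImplicit false

namespace Pool.Agent.X290.Reg

open Matrix IsLocalRing

theorem one_add_pow_of_sq {R : Type} [Ring R] (z : R) (hz : z * z = 0) (k : ℕ) :
    (1 + z) ^ k = 1 + (k : R) * z := by
  induction k with
  | zero => simp
  | succ k ih =>
    rw [pow_succ, ih]
    have h1 : (1 + (k : R) * z) * (1 + z) = 1 + z + (k : R) * z + (k : R) * (z * z) := by
      noncomm_ring
    rw [h1, hz, mul_zero, add_zero, Nat.cast_succ, add_mul, one_mul]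
    abel

variable {A : Type} [CommRing A] {n : ℕ}

/-- congruent to `1` modulo the ideal `I` -/
def Co (I : Ideal A) (X : Matrix (Fin n) (Fin n) A) : Prop := ∀ i j, (X - 1) i j ∈ I

theorem co_iff {I : Ideal A} {X : Matrix (Fin n) (Fin n) A} :
    Co I X ↔ (Ideal.Quotient.mk I).mapMatrix X = 1 := by
  constructor
  · intro h
    have h1 : (Ideal.Quotient.mk I).mapMatrix (X - 1) = 0 := by
      ext i j
      rw [RingHom.mapMatrix_apply, Matrix.map_apply, Matrix.zero_apply,
        Ideal.Quotient.eq_zero_iff_mem]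
      exact h i j
    rwa [map_sub, map_one, sub_eq_zero] at h1
  · intro h i j
    have h1 : (Ideal.Quotient.mk I).mapMatrix (X - 1) = 0 := by
      rw [map_sub, map_one, h, sub_self]
    rw [← Ideal.Quotient.eq_zero_iff_mem]
    exact congrFun (congrFun h1 i) j

theorem co_step {p : ℕ} {m : Ideal A} (hpm : (p : A) ∈ m) {j : ℕ} (hj : 1 ≤ j)
    {X : Matrix (Fin n) (Fin n) A} (h : Co (m ^ j) X) : Co (m ^ (j + 1)) (X ^ p) := by
  set I := m ^ (j + 1) with hI
  rw [co_iff]
  set f := (Ideal.Quotient.mk I).mapMatrix (m := Fin n) with hf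
  set Z : Matrix (Fin n) (Fin n) A := X - 1 with hZ
  have hZ2 : f Z * f Z = 0 := by
    rw [← map_mul]
    ext a b
    rw [hf, RingHom.mapMatrix_apply, Matrix.map_apply, Matrix.zero_apply,
      Ideal.Quotient.eq_zero_iff_mem, Matrix.mul_apply]
    refine I.sum_mem fun c _ => ?_
    have h4 : Z a c * Z c b ∈ m ^ (j + j) := by
      rw [pow_add]; exact Ideal.mul_mem_mul (h _ _) (h _ _)
    exact Ideal.pow_le_pow_right (by omega) h4
  have hpZ : (p : Matrix (Fin n) (Fin n) (A ⧸ I)) * f Z = 0 := by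
    have h4 : (p : Matrix (Fin n) (Fin n) (A ⧸ I)) * f Z = (p : ℕ) • f Z := by
      rw [nsmul_eq_mul]
    rw [h4, ← map_nsmul]
    ext a b
    rw [hf, RingHom.mapMatrix_apply, Matrix.map_apply, Matrix.zero_apply,
      Ideal.Quotient.eq_zero_iff_mem, Matrix.smul_apply, nsmul_eq_mul, mul_comm, hI, pow_succ]
    exact Ideal.mul_mem_mul (h a b) hpm
  have h5 : f X = 1 + f Z := by
    rw [hZ, map_sub, map_one]; abel
  rw [map_pow, h5, one_add_pow_of_sq _ hZ2, hpZ, add_zero]

theorem co_base {p : ℕ} [Fact p.Prime] [IsLocalRing A] (hpm : (p : A) ∈ maximalIdeal A)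
    {X : Matrix (Fin n) (Fin n) A} (h : IsNilpotent (X.map (residue A) - 1)) :
    ∃ k : ℕ, Co (maximalIdeal A ^ 1) (X ^ p ^ k) := by
  have hp : p.Prime := Fact.out
  obtain ⟨m, hm⟩ := h
  have hc : CharP (ResidueField A) p := by
    refine (CharP.charP_iff_prime_eq_zero hp).2 ?_
    rw [← map_natCast (residue A), residue_eq_zero_iff]
    exact hpm
  refine ⟨m, ?_⟩
  have hXb : (X ^ p ^ m).map (residue A) = 1 := by
    have e : (X ^ p ^ m).map (residue A) = (X.map (residue A)) ^ p ^ m := by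
      have := map_pow ((residue A).mapMatrix (m := Fin n)) X (p ^ m)
      simpa using this
    have h1 : ((Polynomial.X : Polynomial (ResidueField A)) - 1) ^ p ^ m =
        Polynomial.X ^ p ^ m - 1 := by
      rw [sub_pow_char_pow, one_pow]
    have h2 := congrArg (Polynomial.aeval (X.map (residue A))) h1
    rw [map_pow, map_sub, map_sub, map_pow, map_one, Polynomial.aeval_X] at h2
    have h3 : m ≤ p ^ m := (Nat.lt_pow_self hp.one_lt).le
    rw [e, ← sub_eq_zero, ← h2]
    exact pow_eq_zero_of_le h3 hm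
  intro i j
  rw [pow_one, ← residue_eq_zero_iff, Matrix.sub_apply, map_sub]
  have h4 := congrFun (congrFun hXb i) j
  rw [Matrix.map_apply] at h4
  rw [h4, Matrix.one_apply, Matrix.one_apply]
  by_cases hij : i = j
  · simp [hij]
  · simp [hij]

theorem co_pow {p : ℕ} [Fact p.Prime] [IsLocalRing A] (hpm : (p : A) ∈ maximalIdeal A)
    {X : Matrix (Fin n) (Fin n) A} (h : IsNilpotent (X.map (residue A) - 1)) (N : ℕ) :
    ∃ k : ℕ, Co (maximalIdeal A ^ N) (X ^ p ^ k) := by
  obtain ⟨k, hk⟩ := co_base hpm h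
  have key : ∀ N : ℕ, Co (maximalIdeal A ^ (N + 1)) (X ^ p ^ (k + N)) := by
    intro N
    induction N with
    | zero => simpa using hk
    | succ N ih =>
      have := co_step hpm (j := N + 1) (by omega) ih
      rw [← pow_mul, ← pow_succ] at this
      exact this
  refine ⟨k + N, fun i j => ?_⟩
  exact Ideal.pow_le_pow_right (by omega) (key N i j)

section
variable {G : Type} [Group G] (ρ : G →* GL (Fin n) A)

/-- the elements which act trivially modulo `I` -/
def KK (I : Ideal A) : Subgroup G :=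
  ((GeneralLinearGroup.map (Ideal.Quotient.mk I)).comp ρ).ker

instance KK_normal (I : Ideal A) : (KK ρ I).Normal := by
  unfold KK; infer_instance

variable {ρ}

theorem mem_KK {I : Ideal A} {g : G} : g ∈ KK ρ I ↔ Co I (ρ g : Matrix (Fin n) (Fin n) A) := by
  unfold KK
  rw [co_iff, MonoidHom.mem_ker]
  constructor
  · intro h
    exact congrArg (fun Y : GL (Fin n) (A ⧸ I) => (Y : Matrix (Fin n) (Fin n) (A ⧸ I))) h
  · intro h
    exact Units.ext h

theorem KK_mono {I J : Ideal A} (h : I ≤ J) : KK ρ I ≤ KK ρ J := by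
  intro g hg
  rw [mem_KK] at hg ⊢
  exact fun i j => h (hg i j)

theorem KK_open [IsLocalRing A] [TopologicalSpace A] (hA : IsAdic (maximalIdeal A))
    [TopologicalSpace G] [IsTopologicalGroup G] (hρ : Continuous ρ) (N : ℕ) :
    IsOpen (KK ρ (maximalIdeal A ^ N) : Set G) := by
  have h1 : ∀ i j : Fin n, ∀ᶠ g in nhds (1 : G),
      ((ρ g : Matrix (Fin n) (Fin n) A) - 1) i j ∈ maximalIdeal A ^ N := by
    intro i j
    have hv : Continuous fun g => (ρ g : Matrix (Fin n) (Fin n) A) :=
      Units.continuous_val.comp hρ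
    have hc : Continuous fun g => (ρ g : Matrix (Fin n) (Fin n) A) i j := hv.matrix_elem i j
    have h2 := hc.continuousAt (x := (1 : G))
    rw [ContinuousAt, map_one, Units.val_one] at h2
    have h3 := h2.eventually ((hA.hasBasis_nhds ((1 : Matrix (Fin n) (Fin n) A) i j)).mem_of_mem
      (i := N) trivial)
    filter_upwards [h3] with g hg
    obtain ⟨y, hy, hy'⟩ := hg
    rw [Matrix.sub_apply, ← hy']
    simpa using hy
  apply Subgroup.isOpen_of_mem_nhds _ (g := 1)
  have h2 : ∀ᶠ g in nhds (1 : G), ∀ i j : Fin n,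
      ((ρ g : Matrix (Fin n) (Fin n) A) - 1) i j ∈ maximalIdeal A ^ N := by
    rw [Filter.eventually_all]
    intro i
    rw [Filter.eventually_all]
    exact h1 i
  filter_upwards [h2] with g hg
  show g ∈ KK ρ (maximalIdeal A ^ N)
  rw [mem_KK]
  exact hg

theorem one_of_KK [IsLocalRing A] [IsNoetherianRing A] {g : G}
    (h : ∀ N, g ∈ KK ρ (maximalIdeal A ^ N)) : ρ g = 1 := by
  have hbot := Ideal.iInf_pow_eq_bot_of_isLocalRing (maximalIdeal A)
    (Ideal.IsPrime.ne_top inferInstance)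
  apply Units.ext
  ext i j
  have h1 : ((ρ g : Matrix (Fin n) (Fin n) A) - 1) i j ∈ (⊥ : Ideal A) := by
    rw [← hbot, Submodule.mem_iInf]
    intro N
    exact mem_KK.1 (h N) i j
  rw [Ideal.mem_bot, Matrix.sub_apply, sub_eq_zero] at h1
  exact h1

/-- compactness -/
theorem exists_limit' [IsLocalRing A] [IsNoetherianRing A] [TopologicalSpace A]
    [TopologicalSpace G] [IsTopologicalGroup G]
    [CompactSpace G] (hA : IsAdic (maximalIdeal A)) (hρ : Continuous ρ)
    {D : Subgroup G} (hD : IsClosed (D : Set G)) {g : G}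
    (h : ∀ N : ℕ, ∃ d ∈ D, d⁻¹ * g ∈ KK ρ (maximalIdeal A ^ N)) :
    ∃ d ∈ D, ρ d = ρ g := by
  let t : ℕ → Set G := fun N => (D : Set G) ∩ {d | d⁻¹ * g ∈ KK ρ (maximalIdeal A ^ N)}
  have hcl : ∀ N, IsClosed (t N) := by
    intro N
    refine hD.inter ?_
    have h1 : IsClosed (KK ρ (maximalIdeal A ^ N) : Set G) :=
      Subgroup.isClosed_of_isOpen _ (KK_open hA hρ N)
    have h2 : Continuous fun d : G => d⁻¹ * g := continuous_inv.mul continuous_const
    exact h1.preimage h2
  obtain ⟨d, hd⟩ := IsCompact.nonempty_iInter_of_sequence_nonempty_isCompact_isClosed t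
    (fun N x hx => ⟨hx.1, KK_mono (Ideal.pow_le_pow_right (Nat.le_succ N)) hx.2⟩)
    (fun N => by
      obtain ⟨d, hd, hd'⟩ := h N
      exact ⟨d, hd, hd'⟩) (hcl 0).isCompact hcl
  rw [Set.mem_iInter] at hd
  refine ⟨d, (hd 0).1, ?_⟩
  have h2 : ρ (d⁻¹ * g) = 1 := one_of_KK fun N => (hd N).2
  rw [map_mul, map_inv, inv_mul_eq_one] at h2
  exact h2

end

end Pool.Agent.X290.Reg
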