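import Pool.Agent.X290.Reg.Gal
import Pool.Agent.X290.Reg.Mat
import Pool.Agent.X290.FM2.Quad
import Pool.Agent.W571.FM.Frob

/-!
# The image of inertia
-/

set_option autoImplicit false

namespace Pool.Agent.X290.Reg

open NumberField Pool.Agent.W569.FM Pool.Agent.W215.FM IsLocalRing
open scoped Pointwise

/-! ### roots of unity -/

theorem p_mem {p : ℕ} {Q : Ideal (OO ℚ)} {x : OO ℚ} (hx : x ^ p = 1)
    (hx1 : x ≠ 1) (h : 1 - x ∈ Q) : (p : OO ℚ) ∈ Q := by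
  have h1 : (∑ i ∈ Finset.range p, x ^ i) * (x - 1) = 0 := by
    rw [geom_sum_mul, hx, sub_self]
  have h2 : ∑ i ∈ Finset.range p, x ^ i = 0 :=
    (mul_eq_zero.1 h1).resolve_right (sub_ne_zero.2 hx1)
  have h3 : (p : OO ℚ) = ∑ i ∈ Finset.range p, (1 - x ^ i) := by
    rw [Finset.sum_sub_distrib, h2, sub_zero]
    simp
  rw [h3]
  refine Q.sum_mem fun i _ => ?_
  have h4 : (1 - x) ∣ (1 - x ^ i) := by
    have := sub_dvd_pow_sub_pow (1 : OO ℚ) x i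
    rwa [one_pow] at this
  obtain ⟨c, hc⟩ := h4
  rw [hc]
  exact Q.mul_mem_right _ h

theorem fix_of_inertia {p : ℕ} [hp : Fact p.Prime] {ζ : OO ℚ} (hζ : ζ ^ p = 1) {Q : Ideal (OO ℚ)}
    (hQ : (p : OO ℚ) ∉ Q) {τ : GF ℚ} (hτ : InInertia Q τ) : τ • ζ = ζ := by
  have hp1 : p - 1 + 1 = p := by have := hp.out.pos; omega
  have h1 : ζ ^ (p - 1) * ζ = 1 := by rw [← pow_succ, hp1, hζ]
  by_contra hne
  apply hQ
  refine p_mem (x := (τ • ζ) * ζ ^ (p - 1)) ?_ ?_ ?_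
  · rw [mul_pow, ← smul_pow', hζ, smul_one, one_mul, ← pow_mul, mul_comm, pow_mul, hζ, one_pow]
  · intro h
    apply hne
    calc τ • ζ = (τ • ζ) * (ζ ^ (p - 1) * ζ) := by rw [h1, mul_one]
      _ = ((τ • ζ) * ζ ^ (p - 1)) * ζ := by ring
      _ = ζ := by rw [h, one_mul]
  · have h2 := hτ ζ
    have h3 : 1 - (τ • ζ) * ζ ^ (p - 1) = -(ζ ^ (p - 1)) * (τ • ζ - ζ) := by
      rw [← h1]; ring
    rw [h3]
    exact Q.mul_mem_left _ h2

theorem smul_pow_root {p : ℕ} [hp : Fact p.Prime] {ζ : OO ℚ} (hζ : IsPrimitiveRoot ζ p) (g : GF ℚ) :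
    ∃ i : ℕ, g • ζ = ζ ^ i := by
  have h1 : (g • ζ) ^ p = 1 := by rw [← smul_pow', hζ.pow_eq_one, smul_one]
  have : NeZero p := ⟨hp.out.ne_zero⟩
  obtain ⟨i, -, hi⟩ := hζ.eq_pow_of_pow_eq_one h1
  exact ⟨i, hi.symm⟩

/-- the subgroup fixing the `p`-th roots of unity -/
noncomputable def Uz (ζ : OO ℚ) : Subgroup (GF ℚ) := MulAction.stabilizer (GF ℚ) ζ

theorem mem_Uz {ζ : OO ℚ} {g : GF ℚ} : g ∈ Uz ζ ↔ g • ζ = ζ := Iff.rfl

theorem comm_mem {p : ℕ} [hp : Fact p.Prime] {ζ : OO ℚ} (hζ : IsPrimitiveRoot ζ p) (g x : GF ℚ) :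
    g * x * g⁻¹ * x⁻¹ ∈ Uz ζ := by
  rw [mem_Uz]
  have h1 : ∀ y : OO ℚ, y ^ p = 1 → g • x • y = x • g • y := by
    intro y hy
    have : NeZero p := ⟨hp.out.ne_zero⟩
    obtain ⟨k, -, rfl⟩ := hζ.eq_pow_of_pow_eq_one hy
    obtain ⟨i, hi⟩ := smul_pow_root hζ g
    obtain ⟨j, hj⟩ := smul_pow_root hζ x
    have e1 : g • x • ζ ^ k = ((ζ ^ i) ^ j) ^ k := by
      rw [smul_pow', hj, smul_pow', smul_pow', hi]
    have e2 : x • g • ζ ^ k = ((ζ ^ j) ^ i) ^ k := by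
      rw [smul_pow', hi, smul_pow', smul_pow', hj]
    rw [e1, e2, pow_right_comm ζ i j]
  have h2 : (g⁻¹ • x⁻¹ • ζ) ^ p = 1 := by
    rw [← smul_pow', ← smul_pow', hζ.pow_eq_one, smul_one, smul_one]
  have h3 := h1 _ h2
  rw [mul_smul, mul_smul, mul_smul, h3, smul_inv_smul, smul_inv_smul]

theorem Uz_normal {p : ℕ} [hp : Fact p.Prime] {ζ : OO ℚ} (hζ : IsPrimitiveRoot ζ p) :
    (Uz ζ).Normal := by
  refine ⟨fun n hn g => ?_⟩
  have h1 := comm_mem hζ g n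
  have h2 := (Uz ζ).mul_mem h1 hn
  rwa [inv_mul_cancel_right] at h2

theorem Uz_open (ζ : OO ℚ) : IsOpen (Uz ζ : Set (GF ℚ)) := Pool.Agent.X290.FM2.stab_open ζ

/-- total ramification at `p` of the field of `p`-th roots of unity -/
theorem inertia_sup {p : ℕ} [hp : Fact p.Prime] {ζ : OO ℚ} (hζ : IsPrimitiveRoot ζ p)
    {P : Ideal (OO ℚ)} (hP : P.IsMaximal) (hpP : (p : OO ℚ) ∈ P) (g : GF ℚ) :
    ∃ h ∈ P.inertia (GF ℚ), ∃ u ∈ Uz ζ, g = u * h := by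
  have hUn := Uz_normal hζ
  let V : Subgroup (GF ℚ) := P.inertia (GF ℚ) ⊔ Uz ζ
  have hVn : V.Normal := by
    refine ⟨fun n hn g => ?_⟩
    have h1 : g * n * g⁻¹ * n⁻¹ ∈ V := (le_sup_right : Uz ζ ≤ V) (comm_mem hζ g n)
    have h2 := V.mul_mem h1 hn
    rwa [inv_mul_cancel_right] at h2
  have hGEN : S_GEN := Pool.Agent.W215.FM.main
  have hFROB : S_FROB := Pool.Agent.W571.FM.main
  have h1 := hGEN (GF ℚ ⧸ V) (QuotientGroup.mk' V) (by
    rw [QuotientGroup.ker_mk']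
    exact Subgroup.isOpen_mono (le_sup_right : Uz ζ ≤ V) (Uz_open ζ)) (by
    intro Q hQ τ hτ
    refine (QuotientGroup.eq_one_iff τ).2 ?_
    by_cases hpQ : (p : OO ℚ) ∈ Q
    · obtain ⟨c, hc⟩ := (hFROB p hp.out).2 P Q hP hQ hpP hpQ
      have h2 : c⁻¹ * τ * c ∈ V := (le_sup_left : P.inertia (GF ℚ) ≤ V) (hc τ hτ)
      have h3 := hVn.conj_mem _ h2 c
      have e : c * (c⁻¹ * τ * c) * c⁻¹ = τ := by group
      rwa [e] at h3
    · exact (le_sup_right : Uz ζ ≤ V) (fix_of_inertia hζ.pow_eq_one hpQ hτ)) g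
  have h2 : g ∈ V := (QuotientGroup.eq_one_iff g).1 h1
  have h3 : g ∈ ((Uz ζ ⊔ P.inertia (GF ℚ) : Subgroup (GF ℚ)) : Set (GF ℚ)) := by
    rw [sup_comm]; exact h2
  rw [Subgroup.normal_mul] at h3
  obtain ⟨u, hu, h, hh, rfl⟩ := h3
  exact ⟨h, hh, u, hu, rfl⟩

/-- The main step. -/
theorem mod_open {p : ℕ} [hp : Fact p.Prime] (hNU : NoUnr p) {ζ : OO ℚ}
    (hζ : IsPrimitiveRoot ζ p) {P : Ideal (OO ℚ)} (hP : P.IsMaximal) (hpP : (p : OO ℚ) ∈ P)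
    (K : Subgroup (GF ℚ)) [hKn : K.Normal] (hK : IsOpen (K : Set (GF ℚ)))
    (hur : ∀ Q : Ideal (OO ℚ), Q.IsMaximal → (p : OO ℚ) ∉ Q → ∀ τ, InInertia Q τ → τ ∈ K)
    (hpow : ∀ u ∈ Uz ζ, ∃ k : ℕ, u ^ p ^ k ∈ K) (g : GF ℚ) :
    ∃ h ∈ P.inertia (GF ℚ), h⁻¹ * g ∈ K := by
  classical
  have hUn := Uz_normal hζ
  have hFROB : S_FROB := Pool.Agent.W571.FM.main
  let S : Set (GF ℚ) := {τ | τ ∈ Uz ζ ∧ ∃ Q : Ideal (OO ℚ), Q.IsMaximal ∧ InInertia Q τ} ∪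
    ((Uz ζ ⊓ K : Subgroup (GF ℚ)) : Set (GF ℚ))
  let W : Subgroup (GF ℚ) := Subgroup.normalClosure S
  have hWn : W.Normal := Subgroup.normalClosure_normal
  have hSU : S ⊆ Uz ζ := by
    rintro x (hx | hx)
    · exact hx.1
    · exact hx.1
  have hWU : W ≤ Uz ζ := Subgroup.normalClosure_le_normal hSU
  have hKW : Uz ζ ⊓ K ≤ W := fun x hx => Subgroup.subset_normalClosure (Or.inr hx)
  have hWo : IsOpen (W : Set (GF ℚ)) :=
    Subgroup.isOpen_mono hKW ((Uz_open ζ).inter hK)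
  have hζ' : IsPrimitiveRoot (ζ : AlgebraicClosure ℚ) p :=
    hζ.map_of_injective (f := algebraMap (OO ℚ) (AlgebraicClosure ℚ))
      RingOfIntegers.coe_injective
  have hfix : ∀ u : GF ℚ, u (ζ : AlgebraicClosure ℚ) = ζ ↔ u ∈ Uz ζ := by
    intro u
    rw [mem_Uz]
    constructor
    · intro h
      exact RingOfIntegers.ext h
    · intro h
      exact congrArg (fun z : OO ℚ => (z : AlgebraicClosure ℚ)) h
  have hUW : Uz ζ ≤ W := by
    intro u hu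
    have h1 := ker_of_noUnr hNU hζ' (QuotientGroup.mk' W) (by
        rw [QuotientGroup.ker_mk']; exact hWo) (by
        intro g hg
        rw [QuotientGroup.ker_mk'] at hg
        exact (hfix g).2 (hWU hg)) (by
        intro u hu
        obtain ⟨k, hk⟩ := hpow u ((hfix u).1 hu)
        refine ⟨k, (QuotientGroup.eq_one_iff _).2 (hKW ⟨?_, hk⟩)⟩
        exact (Uz ζ).pow_mem ((hfix u).1 hu) _) (by
        intro Q hQ τ hτ hτζ
        refine (QuotientGroup.eq_one_iff _).2 (Subgroup.subset_normalClosure (Or.inl ?_))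
        exact ⟨(hfix τ).1 hτζ, Q, hQ, hτ⟩) u ((hfix u).2 hu)
    exact (QuotientGroup.eq_one_iff u).1 h1
  -- the finite `p`-group
  let K' : Subgroup (Uz ζ) := K.subgroupOf (Uz ζ)
  have hK'n : K'.Normal := Subgroup.normal_subgroupOf
  have hcpt : CompactSpace (Uz ζ) :=
    isCompact_iff_compactSpace.1 (Subgroup.isClosed_of_isOpen _ (Uz_open ζ)).isCompact
  have hK'o : IsOpen (K' : Set (Uz ζ)) := hK.preimage continuous_subtype_val
  have hfin : Finite (Uz ζ ⧸ K') := Subgroup.quotient_finite_of_isOpen _ hK'o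
  have hpG : IsPGroup p (Uz ζ ⧸ K') := by
    intro x
    obtain ⟨u, rfl⟩ := QuotientGroup.mk_surjective x
    obtain ⟨k, hk⟩ := hpow u.1 u.2
    refine ⟨k, ?_⟩
    rw [← QuotientGroup.mk_pow, QuotientGroup.eq_one_iff]
    exact hk
  let H : Subgroup (Uz ζ ⧸ K') :=
    ((P.inertia (GF ℚ)).subgroupOf (Uz ζ)).map (QuotientGroup.mk' K')
  have hHtop : H = ⊤ := by
    by_contra hne
    obtain ⟨M, hM, hle⟩ := (eq_top_or_exists_le_coatom H).resolve_left hne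
    have hnil : Group.IsNilpotent (Uz ζ ⧸ K') := hpG.isNilpotent
    have hMn : M.Normal := Subgroup.NormalizerCondition.normal_of_coatom M
      Group.normalizerCondition_of_isNilpotent hM
    let M1 : Subgroup (Uz ζ) := M.comap (QuotientGroup.mk' K')
    have hM1n : M1.Normal := hMn.comap _
    let M2 : Subgroup (GF ℚ) := M1.map (Uz ζ).subtype
    have hin : ∀ (x : GF ℚ) (hx : x ∈ Uz ζ), (⟨x, hx⟩ : Uz ζ) ∈ M1 → x ∈ M2 := by
      intro x hx h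
      exact ⟨⟨x, hx⟩, h, rfl⟩
    have hM2K : ∀ x ∈ Uz ζ ⊓ K, x ∈ M2 := by
      intro x hx
      refine hin x hx.1 ?_
      show QuotientGroup.mk' K' ⟨x, hx.1⟩ ∈ M
      have : QuotientGroup.mk' K' (⟨x, hx.1⟩ : Uz ζ) = 1 := (QuotientGroup.eq_one_iff _).2 hx.2
      rw [this]
      exact M.one_mem
    have hM2I : ∀ x ∈ Uz ζ, x ∈ P.inertia (GF ℚ) → x ∈ M2 := by
      intro x hx hxI
      refine hin x hx ?_
      exact hle ⟨⟨x, hx⟩, hxI, rfl⟩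
    have hM2c : ∀ x ∈ M2, ∀ u ∈ Uz ζ, u * x * u⁻¹ ∈ M2 := by
      rintro x ⟨y, hy, rfl⟩ u hu
      have := hM1n.conj_mem y hy ⟨u, hu⟩
      exact ⟨_, this, rfl⟩
    have hKn' : (Uz ζ ⊓ K).Normal := inferInstance
    have hS : ∀ s ∈ S, ∀ g : GF ℚ, g * s * g⁻¹ ∈ M2 := by
      rintro s (⟨hsU, Q, hQ, hsQ⟩ | hs) g
      · by_cases hpQ : (p : OO ℚ) ∈ Q
        · obtain ⟨c, hc⟩ := (hFROB p hp.out).2 P Q hP hQ hpP hpQ
          have ht : c⁻¹ * s * c ∈ P.inertia (GF ℚ) := hc s hsQ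
          obtain ⟨h, hh, u, hu, hgu⟩ := inertia_sup hζ hP hpP (g * c)
          have e : g * s * g⁻¹ = u * (h * (c⁻¹ * s * c) * h⁻¹) * u⁻¹ := by
            have : g = u * h * c⁻¹ := by rw [← hgu, mul_inv_cancel_right]
            rw [this]
            group
          rw [e]
          refine hM2c _ (hM2I _ ?_ ?_) u hu
          · have h5 : c⁻¹ * s * c⁻¹⁻¹ ∈ Uz ζ := hUn.conj_mem s hsU c⁻¹
            rw [inv_inv] at h5
            exact hUn.conj_mem _ h5 h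
          · exact (P.inertia (GF ℚ)).mul_mem ((P.inertia (GF ℚ)).mul_mem hh ht)
              ((P.inertia (GF ℚ)).inv_mem hh)
        · have hsK := hur Q hQ hpQ s hsQ
          exact hM2K _ (hKn'.conj_mem s ⟨hsU, hsK⟩ g)
      · exact hM2K _ (hKn'.conj_mem s hs g)
    have hcore : W ≤ M2.normalCore := by
      refine Subgroup.normalClosure_le_normal fun s hs => ?_
      intro g
      exact hS s hs g
    apply hM.1
    rw [eq_top_iff]
    rintro x -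
    obtain ⟨u, rfl⟩ := QuotientGroup.mk_surjective x
    obtain ⟨y, hy, hyu⟩ := Subgroup.normalCore_le M2 (hcore (hUW u.2))
    have : y = u := Subtype.ext hyu
    rw [← this]
    exact hy
  -- conclusion
  obtain ⟨h, hh, u, hu, rfl⟩ := inertia_sup hζ hP hpP g
  have h1 : (QuotientGroup.mk' K' ⟨u, hu⟩ : Uz ζ ⧸ K') ∈ H := by rw [hHtop]; trivial
  obtain ⟨y, hy, hyu⟩ := h1
  have h2' : (y⁻¹ * ⟨u, hu⟩ : Uz ζ) ∈ K' := QuotientGroup.eq.1 hyu
  have h2 : y.1⁻¹ * u ∈ K := h2'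
  refine ⟨y.1 * h, (P.inertia (GF ℚ)).mul_mem hy hh, ?_⟩
  have h3 := hKn.conj_mem _ h2 h⁻¹
  rw [inv_inv] at h3
  have e : (y.1 * h)⁻¹ * (u * h) = h⁻¹ * (y.1⁻¹ * u) * h := by group
  rw [e]
  exact h3

theorem inertia_closed (P : Ideal (OO ℚ)) : IsClosed (P.inertia (GF ℚ) : Set (GF ℚ)) := by
  let _ : TopologicalSpace (OO ℚ) := ⊥
  have : DiscreteTopology (OO ℚ) := ⟨rfl⟩
  have hcont : ContinuousSMul (GF ℚ) (OO ℚ) := Pool.Agent.X290.FM2.cont_act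
  have : (P.inertia (GF ℚ) : Set (GF ℚ)) = ⋂ x : OO ℚ, {g : GF ℚ | g • x - x ∈ P} := by
    ext g
    rw [Set.mem_iInter]
    rfl
  rw [this]
  refine isClosed_iInter fun x => ?_
  have h1 : Continuous fun g : GF ℚ => g • x := continuous_id.smul continuous_const
  exact (isClosed_discrete {y : OO ℚ | y - x ∈ P}).preimage h1

theorem exists_root (p : ℕ) [hp : Fact p.Prime] : ∃ ζ : OO ℚ, IsPrimitiveRoot ζ p := by
  have : NeZero p := ⟨hp.out.ne_zero⟩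
  have : NeZero ((p : ℕ) : AlgebraicClosure ℚ) := ⟨by exact_mod_cast hp.out.ne_zero⟩
  obtain ⟨ζ, hζ⟩ := HasEnoughRootsOfUnity.exists_primitiveRoot (AlgebraicClosure ℚ) p
  refine ⟨⟨ζ, hζ.isIntegral hp.out.pos⟩, ?_⟩
  exact IsPrimitiveRoot.of_map_of_injective (f := algebraMap (OO ℚ) (AlgebraicClosure ℚ)) hζ
    RingOfIntegers.coe_injective

/-- The theorem. -/
theorem main {p : ℕ} [hp : Fact p.Prime] (hNU : NoUnr p) {n : ℕ} {A : Type} [CommRing A]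
    [IsLocalRing A] [IsNoetherianRing A] [TopologicalSpace A] (hA : IsAdic (maximalIdeal A))
    (hpA : (p : A) ∈ maximalIdeal A) (ρ : GF ℚ →* Matrix.GeneralLinearGroup (Fin n) A)
    (hρ : Continuous ρ)
    (hur : ∀ Q : Ideal (OO ℚ), Q.IsMaximal → (p : OO ℚ) ∉ Q → ∀ τ, InInertia Q τ → ρ τ = 1)
    (hres : ∀ g : GF ℚ, (∀ x : OO ℚ, x ^ p = 1 → g • x = x) →
      IsNilpotent ((ρ g : Matrix (Fin n) (Fin n) A).map (residue A) - 1))
    {P : Ideal (OO ℚ)} (hP : P.IsMaximal) (hpP : (p : OO ℚ) ∈ P) (g : GF ℚ) :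
    ∃ h, InInertia P h ∧ ρ h = ρ g := by
  obtain ⟨ζ, hζ⟩ := exists_root p
  have : NeZero p := ⟨hp.out.ne_zero⟩
  have hU : ∀ u ∈ Uz ζ, ∀ x : OO ℚ, x ^ p = 1 → u • x = x := by
    intro u hu x hx
    obtain ⟨i, -, rfl⟩ := hζ.eq_pow_of_pow_eq_one hx
    rw [smul_pow', mem_Uz.1 hu]
  refine exists_limit' hA hρ (D := P.inertia (GF ℚ)) (inertia_closed P) fun N => ?_
  refine mod_open hNU hζ hP hpP (KK ρ (maximalIdeal A ^ N)) (KK_open hA hρ N) ?_ ?_ g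
  · intro Q hQ hpQ τ hτ
    rw [mem_KK, hur Q hQ hpQ τ hτ]
    intro i j
    simp
  · intro u hu
    obtain ⟨k, hk⟩ := co_pow hpA (hres u (hU u hu)) N
    refine ⟨k, mem_KK.2 ?_⟩
    rw [map_pow]
    exact hk

end Pool.Agent.X290.Reg
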