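import Pool.Agent.X290.Reg.KW
import Pool.Agent.W569.FM.MainC

/-!
# The image of inertia over a number field with one prime above `p`
-/

set_option autoImplicit false

namespace Pool.Agent.X290.Reg

open NumberField Pool.Agent.W569.FM Pool.Agent.W215.FM IsLocalRing
open scoped Pointwise

theorem unramified_of_inertia' (F L : Type) [Field F] [NumberField F] [Field L] [NumberField L]
    [Algebra F L] [IsGalois F L]
    (H : Subgroup (L ≃ₐ[F] L)) (h : ∀ P : Ideal (𝓞 L), P.IsMaximal →
      ∀ γ : L ≃ₐ[F] L, γ ∈ P.inertia (L ≃ₐ[F] L) → γ ∈ H → γ = 1)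
    (E : IntermediateField F L) (hE : E = FixedPoints.intermediateField H) [NumberField E]
    (Q : Ideal (𝓞 L)) (hQm : Q.IsMaximal) : Algebra.IsUnramifiedAt (𝓞 E) Q := by
  subst hE
  let E : IntermediateField F L := FixedPoints.intermediateField H
  have hgal : IsGaloisGroup H E L := IsGaloisGroup.subgroup (L ≃ₐ[F] L) F L H
  have hG2 : IsGaloisGroup H (𝓞 E) (𝓞 L) :=
    IsGaloisGroup.of_isFractionRing H (𝓞 E) (𝓞 L) E L
  let P : Ideal (𝓞 E) := Q.under (𝓞 E)
  have hPm : P.IsMaximal := Ideal.IsMaximal.under (𝓞 E) Q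
  have hQP : Q.LiesOver P := ⟨rfl⟩
  have hP0 : P ≠ ⊥ := Ideal.IsMaximal.ne_bot_of_isIntegral_int P
  have hQ0 : Q ≠ ⊥ := Ideal.IsMaximal.ne_bot_of_isIntegral_int Q
  have e2 : Nat.card (Q.inertia H) = Q.ramificationIdx (𝓞 E) := by
    rw [Ideal.card_inertia_eq_ramificationIdxIn P,
      Ideal.ramificationIdxIn_eq_ramificationIdx P Q H]
  have e3 : Nat.card (Q.inertia H) = 1 := by
    rw [Nat.card_eq_one_iff_unique]
    refine ⟨⟨fun a b => ?_⟩, ⟨1⟩⟩
    have key : ∀ a : Q.inertia H, a = 1 := by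
      intro a
      apply Subtype.ext
      apply Subtype.ext
      exact h Q hQm a.1.1 a.2 a.1.2
    rw [key a, key b]
  have e4 : Q.ramificationIdx (𝓞 E) = 1 := by rw [← e2, e3]
  exact (Ideal.ramificationIdx_eq_one_iff).1 e4

/-- `M` has no Galois extension of `p`-power degree different from `1` which is unramified at all
finite primes (stated for all fields isomorphic to `M`) -/
def NoUnrF (p : ℕ) (M : Type) [Field M] : Prop :=
  ∀ (M' L : Type) [Field M'] [NumberField M'] [Field L] [NumberField L] [Algebra M' L]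
    [IsGalois M' L], Nonempty (M' ≃+* M) →
    (∀ (Q : Ideal (𝓞 L)) [Q.IsMaximal], Algebra.IsUnramifiedAt (𝓞 M') Q) →
      ∀ k : ℕ, Module.finrank M' L = p ^ k → k = 0

theorem ker_coreU {F : Type} [Field F] [NumberField F] {p : ℕ} [hp : Fact p.Prime]
    (U : Subgroup (GF F)) [hUn : U.Normal] (hUo : IsOpen (U : Set (GF F)))
    (hNU : NoUnrF p (FF U))
    {E : Type} [Group E] (f : GF F →* E)
    (hf : IsOpen (f.ker : Set (GF F))) (hle : f.ker ≤ U)
    (hpU : ∀ u ∈ U, ∃ k : ℕ, f (u ^ p ^ k) = 1)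
    (hI : ∀ P : Ideal (OO F), P.IsMaximal → ∀ τ : GF F, InInertia P τ → τ ∈ U → f τ = 1) :
    ∀ u ∈ U, f u = 1 := by
  classical
  have hclosed : IsClosed (f.ker : Set (GF F)) := Subgroup.isClosed_of_isOpen _ hf
  have hfix : (FF f.ker).fixingSubgroup = f.ker :=
    InfiniteGalois.fixingSubgroup_fixedField ⟨f.ker, hclosed⟩
  have hfixU : (FF U).fixingSubgroup = U :=
    InfiniteGalois.fixingSubgroup_fixedField ⟨U, Subgroup.isClosed_of_isOpen _ hUo⟩
  have hfd : FiniteDimensional F (FF f.ker) :=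
    (InfiniteGalois.isOpen_iff_finite (FF f.ker)).1 (by rw [hfix]; exact hf)
  have hgal : IsGalois F (FF f.ker) :=
    (InfiniteGalois.normal_iff_isGalois (FF f.ker)).1 (by rw [hfix]; infer_instance)
  have hfd' : FiniteDimensional ℚ (FF f.ker) := FiniteDimensional.trans ℚ F (FF f.ker)
  have hnf : NumberField (FF f.ker) := ⟨⟩
  let L := FF f.ker
  let C : IntermediateField F (AlgebraicClosure F) := FF U
  have hCL : C ≤ L := by
    intro x hx
    rw [IntermediateField.mem_fixedField_iff] at hx ⊢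
    exact fun g hg => hx g (hle hg)
  let res := AlgEquiv.restrictNormalHom (F := F) (K₁ := AlgebraicClosure F) L
  have hres : ∀ (g : GF F) (x : L), ((res g x : L) : AlgebraicClosure F) = g x := by
    intro g x
    exact AlgEquiv.restrictNormal_commutes g L x
  have hkerres : ∀ u : GF F, res u = 1 ↔ u ∈ f.ker := by
    intro u
    rw [← hfix, IntermediateField.mem_fixingSubgroup_iff]
    constructor
    · intro h x hx
      have h1 := hres u ⟨x, hx⟩
      rw [h] at h1
      exact h1.symm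
    · intro h
      ext x
      rw [hres]
      exact h _ x.2
  let H : Subgroup (L ≃ₐ[F] L) := U.map res
  let E0 : IntermediateField F L := FixedPoints.intermediateField H
  have hlift : IntermediateField.lift E0 = C := by
    ext x
    rw [IntermediateField.mem_fixedField_iff]
    constructor
    · intro hx g hg
      have hxL : x ∈ L := IntermediateField.lift_le E0 hx
      have h1 : (⟨x, hxL⟩ : L) ∈ E0 := (IntermediateField.mem_lift (⟨x, hxL⟩ : L)).1 hx
      have h2 := h1 ⟨res g, Subgroup.mem_map_of_mem res hg⟩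
      have h3 := congrArg (fun z : L => (z : AlgebraicClosure F)) h2
      exact (hres g ⟨x, hxL⟩).symm.trans h3
    · intro hx
      have hxC : x ∈ C := (IntermediateField.mem_fixedField_iff U x).2 hx
      have hxL : x ∈ L := hCL hxC
      refine (IntermediateField.mem_lift (⟨x, hxL⟩ : L)).2 ?_
      rintro ⟨h, hh⟩
      obtain ⟨g, hg, rfl⟩ := hh
      apply Subtype.ext
      exact (hres g ⟨x, hxL⟩).trans (hx g hg)
  have hiso : Nonempty (E0 ≃+* C) := by
    rw [← hlift]
    exact ⟨(IntermediateField.liftAlgEquiv E0).toRingEquiv⟩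
  have hH1 : ∀ P : Ideal (𝓞 L), P.IsMaximal →
      ∀ γ : L ≃ₐ[F] L, γ ∈ P.inertia (L ≃ₐ[F] L) → γ ∈ H → γ = 1 := by
    intro P hP γ hγ hγH
    obtain ⟨Q, τ, hQ, hτ, hτγ⟩ := exists_lift f hf P hP γ hγ
    obtain ⟨u, hu, huγ⟩ := hγH
    have h1 : u⁻¹ * τ ∈ f.ker := by
      rw [← hkerres, map_mul, map_inv, huγ]
      have : res τ = γ := hτγ
      rw [this, inv_mul_cancel]
    have h2 : τ ∈ U := by
      have := U.mul_mem hu (hle h1)
      rwa [mul_inv_cancel_left] at this
    have h3 := hI Q hQ τ hτ h2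
    have h4 : res τ = 1 := (hkerres τ).2 h3
    exact hτγ.symm.trans h4
  have hHp : IsPGroup p H := by
    rintro ⟨h, hh⟩
    obtain ⟨u, hu, rfl⟩ := hh
    obtain ⟨k, hk⟩ := hpU u hu
    refine ⟨k, Subtype.ext ?_⟩
    show (res u) ^ p ^ k = 1
    rw [← map_pow, hkerres]
    exact hk
  obtain ⟨k, hk⟩ := (IsPGroup.iff_card).1 hHp
  have hnE : NumberField E0 := by
    have h1 : FiniteDimensional ℚ E0 := FiniteDimensional.left ℚ E0 L
    exact ⟨⟩
  have hgalE : IsGaloisGroup H E0 L := IsGaloisGroup.subgroup (L ≃ₐ[F] L) F L H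
  have hcard : Nat.card H = Module.finrank E0 L := IsGaloisGroup.card_eq_finrank H E0 L
  have hk0 : k = 0 := hNU E0 L hiso
    (fun Q hQ => unramified_of_inertia' F L H hH1 E0 rfl Q hQ) k (by rw [← hcard, hk])
  rw [hk0, pow_zero] at hk
  intro u hu
  have h1 : res u ∈ H := Subgroup.mem_map_of_mem res hu
  have h2 : H = ⊥ := Subgroup.card_eq_one.1 hk
  rw [h2, Subgroup.mem_bot] at h1
  exact (hkerres u).1 h1

end Pool.Agent.X290.Reg
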