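import Pool.Agent.X290.Reg.Base

/-!
# The image of inertia over a number field with one prime above `p`, part 2
-/

set_option autoImplicit false

namespace Pool.Agent.X290.Reg

open NumberField Pool.Agent.W569.FM Pool.Agent.W215.FM IsLocalRing
open scoped Pointwise

section
variable {F : Type} [Field F] [NumberField F]

theorem cont_act' : letI : TopologicalSpace (OO F) := ⊥
    ContinuousSMul (GF F) (OO F) := by
  let _ : TopologicalSpace (OO F) := ⊥
  have : DiscreteTopology (OO F) := ⟨rfl⟩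
  exact continuousSMul_iff_stabilizer_isOpen.2 Pool.Agent.X290.FM2.stab_open'

/-- transitivity on the primes above a prime of the fixed field -/
theorem trans_U (U : Subgroup (GF F)) (hU : IsClosed (U : Set (GF F))) (P Q : Ideal (OO F))
    (hP : P.IsPrime) (hQ : Q.IsPrime) (h : P.under (𝓞 (FF U)) = Q.under (𝓞 (FF U))) :
    ∃ u ∈ U, Q = u • P := by
  have hcomm : SMulCommClass U (𝓞 (FF U)) (OO F) := smulComm U
  have hinv : Algebra.IsInvariant (𝓞 (FF U)) (OO F) U := isInv U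
  have hcpt : CompactSpace U := isCompact_iff_compactSpace.1 hU.isCompact
  let _ : TopologicalSpace (OO F) := ⊥
  have : DiscreteTopology (OO F) := ⟨rfl⟩
  have hcont : ContinuousSMul (GF F) (OO F) := cont_act'
  have hcontU : ContinuousSMul U (OO F) := inferInstance
  obtain ⟨g, hg⟩ := Algebra.IsInvariant.exists_smul_of_under_eq_of_profinite
    (A := 𝓞 (FF U)) (G := U) P Q h
  exact ⟨g.1, g.2, hg⟩

theorem natCast_mem_under (U : Subgroup (GF F)) (P : Ideal (OO F)) (p : ℕ) :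
    (p : 𝓞 (FF U)) ∈ P.under (𝓞 (FF U)) ↔ (p : OO F) ∈ P := by
  rw [Ideal.under_def, Ideal.mem_comap, map_natCast]

/-- exactly one prime above `p` -/
def OnePrime (p : ℕ) (M : Type) [Field M] : Prop :=
  ∀ P Q : Ideal (𝓞 M), P.IsMaximal → Q.IsMaximal → (p : 𝓞 M) ∈ P → (p : 𝓞 M) ∈ Q → P = Q

theorem under_max (U : Subgroup (GF F)) (P : Ideal (OO F)) (hP : P.IsMaximal) :
    (P.under (𝓞 (FF U))).IsMaximal := by
  have : Algebra.IsIntegral (𝓞 (FF U)) (OO F) := by
    refine ⟨fun x => ?_⟩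
    have h1 : IsIntegral ℤ x := RingOfIntegers.isIntegral x
    exact h1.tower_top
  exact Ideal.IsMaximal.under (𝓞 (FF U)) P

theorem exists_conj_U {p : ℕ} (U : Subgroup (GF F)) (hU : IsClosed (U : Set (GF F)))
    (hone : OnePrime p (FF U)) {P Q : Ideal (OO F)} (hP : P.IsMaximal) (hQ : Q.IsMaximal)
    (hpP : (p : OO F) ∈ P) (hpQ : (p : OO F) ∈ Q) : ∃ u ∈ U, Q = u • P :=
  trans_U U hU P Q hP.isPrime hQ.isPrime (hone _ _ (under_max U P hP) (under_max U Q hQ)
    ((natCast_mem_under U P p).2 hpP) ((natCast_mem_under U Q p).2 hpQ))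

/-- The main step. -/
theorem mod_openU {p : ℕ} [hp : Fact p.Prime] (U : Subgroup (GF F)) [hUn : U.Normal]
    (hUo : IsOpen (U : Set (GF F))) (hNU : NoUnrF p (FF U)) (hone : OnePrime p (FF U))
    {P : Ideal (OO F)} (hP : P.IsMaximal) (hpP : (p : OO F) ∈ P)
    (K : Subgroup (GF F)) [hKn : K.Normal] (hK : IsOpen (K : Set (GF F)))
    (hur : ∀ Q : Ideal (OO F), Q.IsMaximal → (p : OO F) ∉ Q → ∀ τ, InInertia Q τ → τ ∈ K)
    (hpow : ∀ u ∈ U, ∃ k : ℕ, u ^ p ^ k ∈ K) (u : GF F) (hu : u ∈ U) :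
    ∃ h ∈ P.inertia (GF F) ⊓ U, h⁻¹ * u ∈ K := by
  classical
  have hUc : IsClosed (U : Set (GF F)) := Subgroup.isClosed_of_isOpen _ hUo
  let S : Set (GF F) := {τ | τ ∈ U ∧ ∃ Q : Ideal (OO F), Q.IsMaximal ∧ InInertia Q τ} ∪
    ((U ⊓ K : Subgroup (GF F)) : Set (GF F))
  let W : Subgroup (GF F) := Subgroup.normalClosure S
  have hWn : W.Normal := Subgroup.normalClosure_normal
  have hSU : S ⊆ U := by
    rintro x (hx | hx)
    · exact hx.1
    · exact hx.1
  have hWU : W ≤ U := Subgroup.normalClosure_le_normal hSU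
  have hKW : U ⊓ K ≤ W := fun x hx => Subgroup.subset_normalClosure (Or.inr hx)
  have hWo : IsOpen (W : Set (GF F)) := Subgroup.isOpen_mono hKW (hUo.inter hK)
  have hUW : U ≤ W := by
    intro u hu
    have h1 := ker_coreU U hUo hNU (QuotientGroup.mk' W) (by
        rw [QuotientGroup.ker_mk']; exact hWo) (by
        rw [QuotientGroup.ker_mk']; exact hWU) (by
        intro u hu
        obtain ⟨k, hk⟩ := hpow u hu
        exact ⟨k, (QuotientGroup.eq_one_iff _).2 (hKW ⟨U.pow_mem hu _, hk⟩)⟩) (by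
        intro Q hQ τ hτ hτU
        exact (QuotientGroup.eq_one_iff _).2
          (Subgroup.subset_normalClosure (Or.inl ⟨hτU, Q, hQ, hτ⟩))) u hu
    exact (QuotientGroup.eq_one_iff u).1 h1
  -- the finite `p`-group
  let K' : Subgroup U := K.subgroupOf U
  have hK'n : K'.Normal := Subgroup.normal_subgroupOf
  have hcpt : CompactSpace U := isCompact_iff_compactSpace.1 hUc.isCompact
  have hK'o : IsOpen (K' : Set U) := hK.preimage continuous_subtype_val
  have hfin : Finite (U ⧸ K') := Subgroup.quotient_finite_of_isOpen _ hK'o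
  have hpG : IsPGroup p (U ⧸ K') := by
    intro x
    obtain ⟨u, rfl⟩ := QuotientGroup.mk_surjective x
    obtain ⟨k, hk⟩ := hpow u.1 u.2
    refine ⟨k, ?_⟩
    rw [← QuotientGroup.mk_pow, QuotientGroup.eq_one_iff]
    exact hk
  let H : Subgroup (U ⧸ K') := ((P.inertia (GF F)).subgroupOf U).map (QuotientGroup.mk' K')
  have hHtop : H = ⊤ := by
    by_contra hne
    obtain ⟨M, hM, hle⟩ := (eq_top_or_exists_le_coatom H).resolve_left hne
    have hnil : Group.IsNilpotent (U ⧸ K') := hpG.isNilpotent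
    have hMn : M.Normal := Subgroup.NormalizerCondition.normal_of_coatom M
      Group.normalizerCondition_of_isNilpotent hM
    let M1 : Subgroup U := M.comap (QuotientGroup.mk' K')
    have hM1n : M1.Normal := hMn.comap _
    let M2 : Subgroup (GF F) := M1.map U.subtype
    have hin : ∀ (x : GF F) (hx : x ∈ U), (⟨x, hx⟩ : U) ∈ M1 → x ∈ M2 := by
      intro x hx h
      exact ⟨⟨x, hx⟩, h, rfl⟩
    have hM2K : ∀ x ∈ U ⊓ K, x ∈ M2 := by
      intro x hx
      refine hin x hx.1 ?_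
      show QuotientGroup.mk' K' ⟨x, hx.1⟩ ∈ M
      have : QuotientGroup.mk' K' (⟨x, hx.1⟩ : U) = 1 := (QuotientGroup.eq_one_iff _).2 hx.2
      rw [this]
      exact M.one_mem
    have hM2I : ∀ x ∈ U, x ∈ P.inertia (GF F) → x ∈ M2 := by
      intro x hx hxI
      refine hin x hx ?_
      exact hle ⟨⟨x, hx⟩, hxI, rfl⟩
    have hM2c : ∀ x ∈ M2, ∀ u ∈ U, u * x * u⁻¹ ∈ M2 := by
      rintro x ⟨y, hy, rfl⟩ u hu
      have := hM1n.conj_mem y hy ⟨u, hu⟩
      exact ⟨_, this, rfl⟩
    have hKn' : (U ⊓ K).Normal := inferInstance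
    have hS : ∀ s ∈ S, ∀ g : GF F, g * s * g⁻¹ ∈ M2 := by
      rintro s (⟨hsU, Q, hQ, hsQ⟩ | hs) g
      · obtain ⟨Q', hQ', hl, hc⟩ := conj_ideal g Q hQ
        have hs' := hc s hsQ
        have hsU' : g * s * g⁻¹ ∈ U := hUn.conj_mem s hsU g
        by_cases hpQ : (p : OO F) ∈ Q'
        · obtain ⟨u, hu, hQu⟩ := exists_conj_U U hUc hone hP hQ' hpP hpQ
          have h1 : InInertia P (u⁻¹ * (g * s * g⁻¹) * u) := by
            refine Pool.Agent.W571.FM.inertia_conj (Q := Q') (g := u) ?_ hs'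
            intro x
            rw [hQu]
            exact Ideal.mem_pointwise_smul_iff_inv_smul_mem
          have h2 : u⁻¹ * (g * s * g⁻¹) * u ∈ U := by
            have := hUn.conj_mem _ hsU' u⁻¹
            rwa [inv_inv] at this
          have h3 := hM2c _ (hM2I _ h2 h1) u hu
          have e : u * (u⁻¹ * (g * s * g⁻¹) * u) * u⁻¹ = g * s * g⁻¹ := by group
          rwa [e] at h3
        · exact hM2K _ ⟨hsU', hur Q' hQ' hpQ _ hs'⟩
      · exact hM2K _ (hKn'.conj_mem s hs g)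
    have hcore : W ≤ M2.normalCore := by
      refine Subgroup.normalClosure_le_normal fun s hs => ?_
      intro g
      exact hS s hs g
    apply hM.1
    rw [eq_top_iff]
    rintro x -
    obtain ⟨u, rfl⟩ := QuotientGroup.mk_surjective x
    obtain ⟨y, hy, hyu⟩ := Subgroup.normalCore_le M2 (hcore (hUW u.2))
    have : y = u := Subtype.ext hyu
    rw [← this]
    exact hy
  have h1 : (QuotientGroup.mk' K' ⟨u, hu⟩ : U ⧸ K') ∈ H := by rw [hHtop]; trivial
  obtain ⟨y, hy, hyu⟩ := h1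
  have h2' : (y⁻¹ * ⟨u, hu⟩ : U) ∈ K' := QuotientGroup.eq.1 hyu
  exact ⟨y.1, ⟨hy, y.2⟩, h2'⟩

theorem inertia_closed' (P : Ideal (OO F)) : IsClosed (P.inertia (GF F) : Set (GF F)) := by
  let _ : TopologicalSpace (OO F) := ⊥
  have : DiscreteTopology (OO F) := ⟨rfl⟩
  have hcont : ContinuousSMul (GF F) (OO F) := cont_act'
  have : (P.inertia (GF F) : Set (GF F)) = ⋂ x : OO F, {g : GF F | g • x - x ∈ P} := by
    ext g
    rw [Set.mem_iInter]
    rfl
  rw [this]
  refine isClosed_iInter fun x => ?_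
  have h1 : Continuous fun g : GF F => g • x := continuous_id.smul continuous_const
  exact (isClosed_discrete {y : OO F | y - x ∈ P}).preimage h1

/-- The theorem over a general number field. -/
theorem mainU {p : ℕ} [hp : Fact p.Prime] (U : Subgroup (GF F)) [hUn : U.Normal]
    (hUo : IsOpen (U : Set (GF F))) (hNU : NoUnrF p (FF U)) (hone : OnePrime p (FF U))
    {n : ℕ} {A : Type} [CommRing A]
    [IsLocalRing A] [IsNoetherianRing A] [TopologicalSpace A] (hA : IsAdic (maximalIdeal A))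
    (hpA : (p : A) ∈ maximalIdeal A) (ρ : GF F →* Matrix.GeneralLinearGroup (Fin n) A)
    (hρ : Continuous ρ)
    (hur : ∀ Q : Ideal (OO F), Q.IsMaximal → (p : OO F) ∉ Q → ∀ τ, InInertia Q τ → ρ τ = 1)
    (hres : ∀ u ∈ U, IsNilpotent ((ρ u : Matrix (Fin n) (Fin n) A).map (residue A) - 1))
    {P : Ideal (OO F)} (hP : P.IsMaximal) (hpP : (p : OO F) ∈ P) :
    (∀ u ∈ U, ∃ h, InInertia P h ∧ h ∈ U ∧ ρ h = ρ u) ∧
    ∀ g, ∃ d, (∀ x : OO F, d • x ∈ P ↔ x ∈ P) ∧ ρ d = ρ g := by
  have hUc : IsClosed (U : Set (GF F)) := Subgroup.isClosed_of_isOpen _ hUo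
  have h1 : ∀ u ∈ U, ∃ h, InInertia P h ∧ h ∈ U ∧ ρ h = ρ u := by
    intro u hu
    obtain ⟨d, hd, h⟩ := exists_limit' hA hρ (D := P.inertia (GF F) ⊓ U)
      ((inertia_closed' P).inter hUc) (g := u) (fun N => by
        refine mod_openU U hUo hNU hone hP hpP (KK ρ (maximalIdeal A ^ N)) (KK_open hA hρ N)
          ?_ ?_ u hu
        · intro Q hQ hpQ τ hτ
          rw [mem_KK, hur Q hQ hpQ τ hτ]
          intro i j
          simp
        · intro u hu
          obtain ⟨k, hk⟩ := co_pow hpA (hres u hu) N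
          refine ⟨k, mem_KK.2 ?_⟩
          rw [map_pow]
          exact hk)
    exact ⟨d, hd.1, hd.2, h⟩
  refine ⟨h1, fun g => ?_⟩
  have hgP : (g • P).IsMaximal := by
    rw [Ideal.pointwise_smul_def]
    exact Ideal.map_isMaximal_of_equiv (MulSemiringAction.toRingEquiv (GF F) (OO F) g)
  have hpg : (p : OO F) ∈ g • P := by
    rw [Ideal.mem_pointwise_smul_iff_inv_smul_mem]
    have : g⁻¹ • (p : OO F) = (p : OO F) := by
      have := map_natCast (MulSemiringAction.toRingHom (GF F) (OO F) g⁻¹) p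
      exact this
    rw [this]
    exact hpP
  obtain ⟨u, hu, hug⟩ := exists_conj_U U hUc hone hP hgP hpP hpg
  obtain ⟨h, hh, -, hhu⟩ := h1 u hu
  refine ⟨h * (u⁻¹ * g), ?_, ?_⟩
  · intro x
    have h2 : (u⁻¹ * g) • P = P := by
      rw [mul_smul, hug, inv_smul_smul]
    have h3 : (u⁻¹ * g) • x ∈ P ↔ x ∈ P := by
      conv_lhs => rw [← h2]
      exact Ideal.smul_mem_pointwise_smul_iff
    rw [mul_smul, ← h3]
    have h4 := hh ((u⁻¹ * g) • x)
    constructor
    · intro h5
      have := P.sub_mem h5 h4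
      rwa [sub_sub_cancel] at this
    · intro h5
      have := P.add_mem h4 h5
      rwa [sub_add_cancel] at this
  · rw [map_mul, hhu, ← map_mul, mul_inv_cancel_left]

end

end Pool.Agent.X290.Reg
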