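import Mathlib

/-!
# Discriminants of unramified extensions
-/

set_option autoImplicit false

namespace Pool.Agent.X290.Reg

open NumberField
open scoped Pointwise

/-- the discriminant of an unramified extension -/
theorem natAbs_discr_of_unramified (K L : Type) [Field K] [NumberField K] [Field L] [NumberField L]
    [Algebra K L] (h : ∀ (Q : Ideal (𝓞 L)) [Q.IsMaximal], Algebra.IsUnramifiedAt (𝓞 K) Q) :
    (discr L).natAbs = (discr K).natAbs ^ Module.finrank K L := by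
  have h1 : differentIdeal (𝓞 K) (𝓞 L) = ⊤ := by
    by_contra h2
    obtain ⟨Q, hQ, hle⟩ := Ideal.exists_le_maximal _ h2
    have hQp := hQ.isPrime
    have h3 : Q ∣ differentIdeal (𝓞 K) (𝓞 L) := Ideal.dvd_iff_le.2 hle
    exact (not_dvd_differentIdeal_iff (A := 𝓞 K)).2 (h Q) h3
  have h4 := natAbs_discr_eq_absNorm_differentIdeal_mul_natAbs_discr_pow K (𝓞 K) L (𝓞 L)
  rw [h1, Ideal.absNorm_top, one_mul] at h4
  exact h4

/-- an intermediate field `K` such that no inertia group meets `Gal(L/K)` -/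
theorem unramified_of_inertia (L : Type) [Field L] [NumberField L] [IsGalois ℚ L]
    (H : Subgroup (L ≃ₐ[ℚ] L)) (h : ∀ P : Ideal (𝓞 L), P.IsMaximal →
      ∀ γ : L ≃ₐ[ℚ] L, γ ∈ P.inertia (L ≃ₐ[ℚ] L) → γ ∈ H → γ = 1)
    (Q : Ideal (𝓞 L)) (hQm : Q.IsMaximal) :
    Algebra.IsUnramifiedAt (𝓞 (FixedPoints.intermediateField H : IntermediateField ℚ L)) Q := by
  let E : IntermediateField ℚ L := FixedPoints.intermediateField H
  have hgal : IsGaloisGroup H E L := IsGaloisGroup.subgroup (L ≃ₐ[ℚ] L) ℚ L H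
  have hG2 : IsGaloisGroup H (𝓞 E) (𝓞 L) :=
    IsGaloisGroup.of_isFractionRing H (𝓞 E) (𝓞 L) E L
  let P : Ideal (𝓞 E) := Q.under (𝓞 E)
  have hPm : P.IsMaximal := Ideal.IsMaximal.under (𝓞 E) Q
  have hQP : Q.LiesOver P := ⟨rfl⟩
  have hP0 : P ≠ ⊥ := Ideal.IsMaximal.ne_bot_of_isIntegral_int P
  have hQ0 : Q ≠ ⊥ := Ideal.IsMaximal.ne_bot_of_isIntegral_int Q
  have e2 : Nat.card (Q.inertia H) = Q.ramificationIdx (𝓞 E) := by
    rw [Ideal.card_inertia_eq_ramificationIdxIn P,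
      Ideal.ramificationIdxIn_eq_ramificationIdx P Q H]
  have e3 : Nat.card (Q.inertia H) = 1 := by
    rw [Nat.card_eq_one_iff_unique]
    refine ⟨⟨fun a b => ?_⟩, ⟨1⟩⟩
    have key : ∀ a : Q.inertia H, a = 1 := by
      intro a
      apply Subtype.ext
      apply Subtype.ext
      exact h Q hQm a.1.1 a.2 a.1.2
    rw [key a, key b]
  have e4 : Q.ramificationIdx (𝓞 E) = 1 := by rw [← e2, e3]
  exact (Ideal.ramificationIdx_eq_one_iff).1 e4

end Pool.Agent.X290.Reg
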