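import Pool.Agent.X290.Reg.Base2

/-!
# Fields without unramified extensions
-/

set_option autoImplicit false

namespace Pool.Agent.X290.Reg

open NumberField Real

theorem mb4 : (4 : ℝ) ^ 2 < mb 4 := by
  have h : mb 4 = (4 : ℝ) ^ 8 * (π / 4) ^ 4 / 24 ^ 2 := by
    unfold mb
    have hpi : π ≠ 0 := Real.pi_ne_zero
    rw [div_pow, div_pow, show (4 : ℕ).factorial = 24 by rfl]
    push_cast
    field_simp
  rw [h]
  have h9 := Real.pi_gt_d2
  calc (4 : ℝ) ^ 2 < (4 : ℝ) ^ 8 * (3.14 / 4) ^ 4 / 24 ^ 2 := by norm_num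
    _ ≤ _ := by gcongr

theorem mb8 : (144 : ℝ) ^ 2 < mb 8 := by
  have h : mb 8 = (8 : ℝ) ^ 16 * (π / 4) ^ 8 / 40320 ^ 2 := by
    unfold mb
    have hpi : π ≠ 0 := Real.pi_ne_zero
    rw [div_pow, div_pow, show (8 : ℕ).factorial = 40320 by rfl]
    push_cast
    field_simp
  rw [h]
  have h9 := Real.pi_gt_d2
  calc (144 : ℝ) ^ 2 < (8 : ℝ) ^ 16 * (3.14 / 4) ^ 8 / 40320 ^ 2 := by norm_num
    _ ≤ _ := by gcongr

theorem big4 (m : ℕ) (hm : 2 ≤ m) : (4 : ℝ) ^ m < mb (2 * m) := by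
  obtain ⟨j, rfl⟩ : ∃ j, m = 2 + j := ⟨m - 2, by omega⟩
  have h1 := growth (c := 3.7) (by norm_num) (n0 := 4) (by norm_num) (by norm_num) (2 * j)
  have h2 : (4 : ℝ) ^ j ≤ 3.7 ^ (2 * j) := by
    rw [pow_mul]; gcongr; norm_num
  rw [show 2 * (2 + j) = 4 + 2 * j by ring]
  calc (4 : ℝ) ^ (2 + j) = 4 ^ j * 4 ^ 2 := by ring
    _ < 4 ^ j * mb 4 := by gcongr; exact mb4
    _ ≤ 3.7 ^ (2 * j) * mb 4 := by
      gcongr
      exact (mb_pos (by norm_num)).le
    _ ≤ _ := h1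

theorem big144 (m : ℕ) (hm : 2 ≤ m) : (144 : ℝ) ^ m < mb (4 * m) := by
  obtain ⟨j, rfl⟩ : ∃ j, m = 2 + j := ⟨m - 2, by omega⟩
  have h1 := growth (c := 4.5) (by norm_num) (n0 := 8) (by norm_num) (by norm_num) (4 * j)
  have h2 : (144 : ℝ) ^ j ≤ 4.5 ^ (4 * j) := by
    rw [pow_mul]; gcongr; norm_num
  rw [show 4 * (2 + j) = 8 + 4 * j by ring]
  calc (144 : ℝ) ^ (2 + j) = 144 ^ j * 144 ^ 2 := by ring
    _ < 144 ^ j * mb 8 := by gcongr; exact mb8
    _ ≤ 4.5 ^ (4 * j) * mb 8 := by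
      gcongr
      exact (mb_pos (by norm_num)).le
    _ ≤ _ := h1

theorem noUnrF_cyc {n : ℕ} (hn : 2 < n) {p : ℕ}
    (h : ∀ k, 1 ≤ k →
      ((n ^ n.totient / ∏ q ∈ n.primeFactors, q ^ (n.totient / (q - 1)) : ℕ) : ℝ) ^ (p ^ k) <
        mb (n.totient * p ^ k))
    (M : Type) [Field M] [NumberField M] [IsCyclotomicExtension {n} ℚ M] : NoUnrF p M := by
  intro K L _ _ _ _ _ _ he hur k hk
  obtain ⟨e⟩ := he
  by_contra h0
  have hnz : NeZero n := ⟨by omega⟩
  have hcyc : IsCyclotomicExtension {n} ℚ K :=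
    IsCyclotomicExtension.equiv {n} ℚ M
      (AlgEquiv.ofRingEquiv (f := e.symm) (fun r => by simp))
  have hKc : IsTotallyComplex K := IsCyclotomicExtension.Rat.isTotallyComplex K hn
  have hLc : IsTotallyComplex L := isTotallyComplex_of_algebra K L
  have h1 := natAbs_discr_of_unramified K L hur
  have hd : (discr K).natAbs =
      n ^ n.totient / ∏ q ∈ n.primeFactors, q ^ (n.totient / (q - 1)) := by
    have := IsCyclotomicExtension.Rat.natAbs_discr n K
    convert this using 1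
  rw [hd, hk] at h1
  have h2 : Module.finrank ℚ L = n.totient * p ^ k := by
    rw [← Module.finrank_mul_finrank ℚ K L, IsCyclotomicExtension.Rat.finrank n K, hk]
  have h3 := mink L
  rw [h1, h2] at h3
  have h4 := h k (by omega)
  push_cast at h3 h4
  exact absurd h3 (not_le.2 h4)

theorem two_le_pow {p k : ℕ} (hp : p.Prime) (hk : 1 ≤ k) : 2 ≤ p ^ k :=
  hp.two_le.trans (Nat.le_self_pow (by omega) p)

theorem noUnrF3 {p : ℕ} (hp : p.Prime) (M : Type) [Field M] [NumberField M]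
    [IsCyclotomicExtension {3} ℚ M] : NoUnrF p M := by
  refine noUnrF_cyc (n := 3) (by norm_num) (fun k hk => ?_) M
  have h1 : Nat.totient 3 = 2 := by decide
  have h2 : (3 : ℕ).primeFactors = {3} := Nat.Prime.primeFactors (by norm_num)
  rw [h1, h2, Finset.prod_singleton]
  have h3 := big4 (p ^ k) (two_le_pow hp hk)
  refine lt_of_le_of_lt ?_ h3
  norm_num
  gcongr
  norm_num

theorem noUnrF4 {p : ℕ} (hp : p.Prime) (M : Type) [Field M] [NumberField M]
    [IsCyclotomicExtension {4} ℚ M] : NoUnrF p M := by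
  refine noUnrF_cyc (n := 4) (by norm_num) (fun k hk => ?_) M
  have h1 : Nat.totient 4 = 2 := by decide
  have h2 : (4 : ℕ).primeFactors = {2} := by
    rw [show (4 : ℕ) = 2 ^ 2 by norm_num, Nat.primeFactors_pow _ (by norm_num)]
    exact Nat.Prime.primeFactors (by norm_num)
  rw [h1, h2, Finset.prod_singleton]
  have h3 := big4 (p ^ k) (two_le_pow hp hk)
  refine lt_of_le_of_lt (le_of_eq ?_) h3
  norm_num

theorem noUnrF5 {p : ℕ} (hp : p.Prime) (M : Type) [Field M] [NumberField M]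
    [IsCyclotomicExtension {5} ℚ M] : NoUnrF p M := by
  refine noUnrF_cyc (n := 5) (by norm_num) (fun k hk => ?_) M
  have h1 : Nat.totient 5 = 4 := by decide
  have h2 : (5 : ℕ).primeFactors = {5} := Nat.Prime.primeFactors (by norm_num)
  rw [h1, h2, Finset.prod_singleton]
  have h3 := big144 (p ^ k) (two_le_pow hp hk)
  refine lt_of_le_of_lt ?_ h3
  norm_num
  gcongr
  norm_num

theorem noUnrF12 {p : ℕ} (hp : p.Prime) (M : Type) [Field M] [NumberField M]
    [IsCyclotomicExtension {12} ℚ M] : NoUnrF p M := by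
  refine noUnrF_cyc (n := 12) (by norm_num) (fun k hk => ?_) M
  have h1 : Nat.totient 12 = 4 := by decide
  have h2 : (12 : ℕ).primeFactors = {2, 3} := by
    rw [show (12 : ℕ) = 2 ^ 2 * 3 by norm_num, Nat.primeFactors_mul (by norm_num) (by norm_num),
      Nat.primeFactors_pow _ (by norm_num), Nat.Prime.primeFactors (by norm_num),
      Nat.Prime.primeFactors (by norm_num)]
    rfl
  rw [h1, h2, Finset.prod_pair (by norm_num)]
  have h3 := big144 (p ^ k) (two_le_pow hp hk)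
  refine lt_of_le_of_lt (le_of_eq ?_) h3
  norm_num

theorem noUnrF7 (M : Type) [Field M] [NumberField M]
    [IsCyclotomicExtension {7} ℚ M] : NoUnrF 7 M := by
  refine noUnrF_cyc (n := 7) (by norm_num) (fun k hk => ?_) M
  have h1 : Nat.totient 7 = 6 := by decide
  have h2 : (7 : ℕ).primeFactors = {7} := Nat.Prime.primeFactors (by norm_num)
  rw [h1, h2, Finset.prod_singleton]
  obtain ⟨m, rfl⟩ : ∃ m, k = m + 1 := ⟨k - 1, by omega⟩
  have h1 : 7 ^ (m + 1) = 7 + (7 ^ (m + 1) - 7) := by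
    have : 7 ^ 1 ≤ 7 ^ (m + 1) := Nat.pow_le_pow_right (by norm_num) (by omega)
    omega
  have h2 := big7 (7 ^ (m + 1) - 7)
  rw [← h1] at h2
  rw [show 6 * 7 ^ (m + 1) = 42 + 6 * (7 ^ (m + 1) - 7) by omega]
  refine lt_of_le_of_lt (le_of_eq ?_) h2
  norm_num

end Pool.Agent.X290.Reg
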