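import Pool.Agent.X290.Reg.Min
import Pool.Agent.W215.FM.Gen

/-!
# Subgroups of the absolute Galois group of `ℚ`: the field of `p`-th roots of unity
-/

set_option autoImplicit false

namespace Pool.Agent.X290.Reg

open NumberField Pool.Agent.W569.FM Pool.Agent.W215.FM
open scoped Pointwise

/-- Elements of inertia groups at finite level come from elements of the absolute inertia group. -/
theorem exists_lift {F : Type} [Field F] [NumberField F] {E : Type} [Group E] (f : GF F →* E) (hf : IsOpen (f.ker : Set (GF F)))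
    [NumberField (FF f.ker)] [IsGalois F (FF f.ker)]
    (P : Ideal (𝓞 (FF f.ker))) (hP : P.IsMaximal) (γ : FF f.ker ≃ₐ[F] FF f.ker)
    (hγ : γ ∈ P.inertia (FF f.ker ≃ₐ[F] FF f.ker)) :
    ∃ (Q : Ideal (OO F)) (τ : GF F), Q.IsMaximal ∧ InInertia Q τ ∧
      AlgEquiv.restrictNormalHom (FF f.ker) τ = γ := by
  classical
  have hclosed : IsClosed (f.ker : Set (GF F)) := Subgroup.isClosed_of_isOpen _ hf
  have hfix : (FF f.ker).fixingSubgroup = f.ker :=
    InfiniteGalois.fixingSubgroup_fixedField ⟨f.ker, hclosed⟩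
  have hcomm : SMulCommClass f.ker (𝓞 (FF f.ker)) (OO F) := smulComm f.ker
  have hinv : Algebra.IsInvariant (𝓞 (FF f.ker)) (OO F) f.ker := isInv f.ker
  have hcpt : CompactSpace f.ker := isCompact_iff_compactSpace.1 hclosed.isCompact
  let _ : TopologicalSpace (OO F) := ⊥
  have : DiscreteTopology (OO F) := ⟨rfl⟩
  have hcont : ContinuousSMul (GF F) (OO F) := by
    rw [continuousSMul_iff_stabilizer_isOpen]
    intro x
    have h1 := stabilizer_isOpen_of_isIntegral (K := F) (x : AlgebraicClosure F)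
    convert h1 using 2
    ext g
    rw [MulAction.mem_stabilizer_iff, MulAction.mem_stabilizer_iff]
    constructor
    · intro h
      exact congrArg (fun z : OO F => (z : AlgebraicClosure F)) h
    · intro h
      exact RingOfIntegers.ext h
  have hcontU : ContinuousSMul f.ker (OO F) := inferInstance
  have hkerres : ∀ u ∈ f.ker, AlgEquiv.restrictNormalHom (FF f.ker) u = 1 := by
    intro u hu
    rw [← hfix, IntermediateField.mem_fixingSubgroup_iff] at hu
    ext x
    have h7 := AlgEquiv.restrictNormal_commutes u (FF f.ker) x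
    have h8 := hu _ x.2
    exact h7.trans h8
  obtain ⟨Q, hQm, hQP⟩ := Ideal.exists_maximal_ideal_liesOver_of_isIntegral (S := OO F) P
  obtain ⟨g0, hg0⟩ := AlgEquiv.restrictNormalHom_surjective (F := F) (K₁ := FF f.ker)
    (AlgebraicClosure F) γ
  have hres : ∀ a : 𝓞 (FF f.ker), g0 • (algebraMap (𝓞 (FF f.ker)) (OO F) a) =
      algebraMap (𝓞 (FF f.ker)) (OO F) (γ • a) := by
    intro a
    apply RingOfIntegers.ext
    rw [coe_smul]
    have := AlgEquiv.restrictNormal_commutes g0 (FF f.ker) (a : FF f.ker)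
    rw [← hg0]
    exact this.symm
  have hres' : ∀ a : 𝓞 (FF f.ker), g0⁻¹ • (algebraMap (𝓞 (FF f.ker)) (OO F) a) =
      algebraMap (𝓞 (FF f.ker)) (OO F) (γ⁻¹ • a) := by
    intro a
    rw [inv_smul_eq_iff, hres, smul_inv_smul]
  have hmemP : ∀ a : 𝓞 (FF f.ker), algebraMap (𝓞 (FF f.ker)) (OO F) a ∈ Q ↔ a ∈ P := by
    intro a
    rw [hQP.over]
    rfl
  have hQ' : (g0 • Q).IsPrime := inferInstance
  have hunder : (g0 • Q).under (𝓞 (FF f.ker)) = Q.under (𝓞 (FF f.ker)) := by
    ext a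
    rw [Ideal.under_def, Ideal.mem_comap, Ideal.under_def, Ideal.mem_comap,
      Ideal.mem_pointwise_smul_iff_inv_smul_mem, hres', hmemP, hmemP]
    have h1 : γ⁻¹ • a - a ∈ P := (inv_mem hγ) a
    constructor
    · intro h2
      have := P.sub_mem h2 h1
      rwa [sub_sub_cancel] at this
    · intro h2
      have := P.add_mem h1 h2
      rwa [sub_add_cancel] at this
  obtain ⟨h, hh⟩ := Algebra.IsInvariant.exists_smul_of_under_eq_of_profinite
    (A := 𝓞 (FF f.ker)) (G := f.ker) (g0 • Q) Q hunder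
  set g1 : GF F := h.1 * g0 with hg1
  have hg1Q : g1 • Q = Q := by
    rw [hg1, mul_smul]
    exact hh.symm
  have hres1 : ∀ a : 𝓞 (FF f.ker), g1 • (algebraMap (𝓞 (FF f.ker)) (OO F) a) =
      algebraMap (𝓞 (FF f.ker)) (OO F) (γ • a) := by
    intro a
    rw [hg1, mul_smul, hres]
    exact smul_algebraMap h (γ • a)
  have hmap : Q = Q.map (MulSemiringAction.toRingEquiv (GF F) (OO F) g1 : OO F →+* OO F) := by
    conv_lhs => rw [← hg1Q]
    rw [Ideal.pointwise_smul_def]
    rfl
  let σ : (OO F ⧸ Q) ≃ₐ[𝓞 (FF f.ker) ⧸ P] (OO F ⧸ Q) :=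
    AlgEquiv.ofRingEquiv (f := Ideal.quotientEquiv Q Q
      (MulSemiringAction.toRingEquiv (GF F) (OO F) g1) hmap) (by
      intro a
      obtain ⟨a, rfl⟩ := Ideal.Quotient.mk_surjective a
      show Ideal.Quotient.mk Q (g1 • algebraMap (𝓞 (FF f.ker)) (OO F) a) =
        Ideal.Quotient.mk Q (algebraMap (𝓞 (FF f.ker)) (OO F) a)
      rw [Ideal.Quotient.mk_eq_mk_iff_sub_mem, hres1, ← map_sub, hmemP]
      exact hγ a)
  obtain ⟨k, hk⟩ := Ideal.Quotient.stabilizerHom_surjective_of_profinite (G := f.ker) P Q σ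
  have hk' : ∀ x : OO F, g1 • x - k.1.1 • x ∈ Q := by
    intro x
    have h1 := DFunLike.congr_fun hk (Ideal.Quotient.mk Q x)
    rw [Ideal.Quotient.stabilizerHom_apply] at h1
    rw [← Ideal.Quotient.mk_eq_mk_iff_sub_mem]
    exact h1.symm
  obtain ⟨k1, hkU, hkQ, hk'⟩ : ∃ k1 : GF F, k1 ∈ f.ker ∧ k1 • Q = Q ∧
      ∀ x : OO F, g1 • x - k1 • x ∈ Q := ⟨k.1.1, k.1.2, k.2, hk'⟩
  refine ⟨Q, k1⁻¹ * g1, hQm, ?_, ?_⟩
  · intro x
    have h1 := hk' x
    rw [← hkQ, Ideal.mem_pointwise_smul_iff_inv_smul_mem, smul_sub, inv_smul_smul,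
      ← mul_smul] at h1
    exact h1
  · rw [hg1, map_mul, map_mul, map_inv, hkerres k1 hkU, hkerres h.1 h.2, inv_one, one_mul, one_mul,
      hg0]

/-- A homomorphism whose kernel is contained in `Gal(Qbar/Q(ζ))` with index a power of `p`, and
which is injective on no inertia group of `Q(ζ)`. -/
theorem ker_core {F : Type} [Field F] [NumberField F] {p : ℕ} [hp : Fact p.Prime]
    (hNU : ∀ (L : IntermediateField F (AlgebraicClosure F)) [NumberField L] [IsGalois F L]
      (H : Subgroup (L ≃ₐ[F] L)),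
      IsCyclotomicExtension {p} F (FixedPoints.intermediateField H : IntermediateField F L) →
      (∀ P : Ideal (𝓞 L), P.IsMaximal →
        ∀ γ : L ≃ₐ[F] L, γ ∈ P.inertia (L ≃ₐ[F] L) → γ ∈ H → γ = 1) →
      ∀ k, Nat.card H = p ^ k → k = 0) {ζ : AlgebraicClosure F}
    (hζ : IsPrimitiveRoot ζ p) {E : Type} [Group E] (f : GF F →* E)
    (hf : IsOpen (f.ker : Set (GF F))) (hle : ∀ g ∈ f.ker, g ζ = ζ)
    (hpU : ∀ u : GF F, u ζ = ζ → ∃ k : ℕ, f (u ^ p ^ k) = 1)
    (hI : ∀ P : Ideal (OO F), P.IsMaximal → ∀ τ : GF F, InInertia P τ → τ ζ = ζ → f τ = 1) :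
    ∀ u : GF F, u ζ = ζ → f u = 1 := by
  classical
  have hclosed : IsClosed (f.ker : Set (GF F)) := Subgroup.isClosed_of_isOpen _ hf
  have hfix : (FF f.ker).fixingSubgroup = f.ker :=
    InfiniteGalois.fixingSubgroup_fixedField ⟨f.ker, hclosed⟩
  have hfd : FiniteDimensional F (FF f.ker) :=
    (InfiniteGalois.isOpen_iff_finite (FF f.ker)).1 (by rw [hfix]; exact hf)
  have hgal : IsGalois F (FF f.ker) :=
    (InfiniteGalois.normal_iff_isGalois (FF f.ker)).1 (by rw [hfix]; infer_instance)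
  have hfd' : FiniteDimensional ℚ (FF f.ker) := FiniteDimensional.trans ℚ F (FF f.ker)
  have hnf : NumberField (FF f.ker) := ⟨⟩
  let L := FF f.ker
  let C : IntermediateField F (AlgebraicClosure F) := IntermediateField.adjoin F {ζ}
  have hmemC : ∀ g : GF F, g ∈ C.fixingSubgroup ↔ g ζ = ζ := by
    intro g
    rw [IntermediateField.mem_fixingSubgroup_iff]
    constructor
    · intro h
      exact h ζ (IntermediateField.mem_adjoin_simple_self F ζ)
    · intro h x hx
      have h1 : C ≤ IntermediateField.fixedField (Subgroup.zpowers g) := by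
        rw [IntermediateField.adjoin_simple_le_iff, IntermediateField.mem_fixedField_iff]
        intro k hk
        obtain ⟨n, rfl⟩ := Subgroup.mem_zpowers_iff.1 hk
        have h2 : g ∈ MulAction.stabilizer (GF F) ζ := h
        exact (Subgroup.zpow_mem _ h2 n)
      have h2 := h1 hx
      rw [IntermediateField.mem_fixedField_iff] at h2
      exact h2 g (Subgroup.mem_zpowers g)
  have hCL : C ≤ L := by
    rw [IntermediateField.adjoin_simple_le_iff, IntermediateField.mem_fixedField_iff]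
    exact hle
  let res := AlgEquiv.restrictNormalHom (F := F) (K₁ := AlgebraicClosure F) L
  have hres : ∀ (g : GF F) (x : L), ((res g x : L) : AlgebraicClosure F) = g x := by
    intro g x
    exact AlgEquiv.restrictNormal_commutes g L x
  have hkerres : ∀ u : GF F, res u = 1 ↔ u ∈ f.ker := by
    intro u
    rw [← hfix, IntermediateField.mem_fixingSubgroup_iff]
    constructor
    · intro h x hx
      have h1 := hres u ⟨x, hx⟩
      rw [h] at h1
      exact h1.symm
    · intro h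
      ext x
      rw [hres]
      exact h _ x.2
  let H : Subgroup (L ≃ₐ[F] L) := C.fixingSubgroup.map res
  let E0 : IntermediateField F L := FixedPoints.intermediateField H
  have hlift : IntermediateField.lift E0 = C := by
    rw [← InfiniteGalois.fixedField_fixingSubgroup C]
    ext x
    rw [IntermediateField.mem_fixedField_iff]
    constructor
    · intro hx g hg
      have hxL : x ∈ L := IntermediateField.lift_le E0 hx
      have h1 : (⟨x, hxL⟩ : L) ∈ E0 := (IntermediateField.mem_lift (⟨x, hxL⟩ : L)).1 hx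
      have h2 := h1 ⟨res g, Subgroup.mem_map_of_mem res hg⟩
      have h3 := congrArg (fun z : L => (z : AlgebraicClosure F)) h2
      exact (hres g ⟨x, hxL⟩).symm.trans h3
    · intro hx
      have hxC : x ∈ C := by
        rw [← InfiniteGalois.fixedField_fixingSubgroup C, IntermediateField.mem_fixedField_iff]
        exact hx
      have hxL : x ∈ L := hCL hxC
      refine (IntermediateField.mem_lift (⟨x, hxL⟩ : L)).2 ?_
      rintro ⟨h, hh⟩
      obtain ⟨g, hg, rfl⟩ := hh
      apply Subtype.ext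
      exact (hres g ⟨x, hxL⟩).trans (hx g hg)
  have hNZ : NeZero p := ⟨hp.out.ne_zero⟩
  have hcycC : IsCyclotomicExtension {p} F C := hζ.intermediateField_adjoin_isCyclotomicExtension F
  have hcycE : IsCyclotomicExtension {p} F E0 := by
    have hcyc' : IsCyclotomicExtension {p} F (IntermediateField.lift E0) := by
      rw [hlift]; exact hcycC
    exact IsCyclotomicExtension.equiv {p} F _ (IntermediateField.liftAlgEquiv E0).symm
  have hH1 : ∀ P : Ideal (𝓞 L), P.IsMaximal →
      ∀ γ : L ≃ₐ[F] L, γ ∈ P.inertia (L ≃ₐ[F] L) → γ ∈ H → γ = 1 := by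
    intro P hP γ hγ hγH
    obtain ⟨Q, τ, hQ, hτ, hτγ⟩ := exists_lift f hf P hP γ hγ
    obtain ⟨u, hu, huγ⟩ := hγH
    have h1 : u⁻¹ * τ ∈ f.ker := by
      rw [← hkerres, map_mul, map_inv, huγ]
      have : res τ = γ := hτγ
      rw [this, inv_mul_cancel]
    have h2 : τ ζ = ζ := by
      have h3 : (u⁻¹ * τ) ζ = ζ := hle _ h1
      have h4 : u ζ = ζ := (hmemC u).1 hu
      have h5 : u ((u⁻¹ * τ) ζ) = u ζ := congrArg u h3
      rw [h4] at h5
      have h6 : u ((u⁻¹ * τ) ζ) = τ ζ := by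
        show (u * (u⁻¹ * τ)) ζ = τ ζ
        rw [mul_inv_cancel_left]
      exact h6.symm.trans h5
    have h3 := hI Q hQ τ hτ h2
    have h4 : res τ = 1 := (hkerres τ).2 h3
    exact hτγ.symm.trans h4
  have hHp : IsPGroup p H := by
    rintro ⟨h, hh⟩
    obtain ⟨u, hu, rfl⟩ := hh
    obtain ⟨k, hk⟩ := hpU u ((hmemC u).1 hu)
    refine ⟨k, Subtype.ext ?_⟩
    show (res u) ^ p ^ k = 1
    rw [← map_pow, hkerres]
    exact hk
  obtain ⟨k, hk⟩ := (IsPGroup.iff_card).1 hHp
  have hk0 : k = 0 := hNU L H hcycE hH1 k hk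
  rw [hk0, pow_zero] at hk
  intro u hu
  have h1 : res u ∈ H := Subgroup.mem_map_of_mem res ((hmemC u).2 hu)
  have h2 : H = ⊥ := Subgroup.card_eq_one.1 hk
  rw [h2, Subgroup.mem_bot] at h1
  exact (hkerres u).1 h1

theorem noUnr_field {p : ℕ} (hNU : NoUnr p) (L : Type) [Field L] [NumberField L]
    [inst : Algebra ℚ L] [IsGalois ℚ L] (H : Subgroup (L ≃ₐ[ℚ] L))
    (hcyc : IsCyclotomicExtension {p} ℚ (FixedPoints.intermediateField H : IntermediateField ℚ L))
    (hH : ∀ P : Ideal (𝓞 L), P.IsMaximal →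
      ∀ γ : L ≃ₐ[ℚ] L, γ ∈ P.inertia (L ≃ₐ[ℚ] L) → γ ∈ H → γ = 1) (k : ℕ)
    (hk : Nat.card H = p ^ k) : k = 0 := by
  obtain rfl : inst = DivisionRing.toRatAlgebra := Subsingleton.elim _ _
  let E0 : IntermediateField ℚ L := FixedPoints.intermediateField H
  have hgalE : IsGaloisGroup H E0 L := IsGaloisGroup.subgroup (L ≃ₐ[ℚ] L) ℚ L H
  have hcard : Nat.card H = Module.finrank E0 L := IsGaloisGroup.card_eq_finrank H E0 L
  exact hNU E0 L (fun Q hQ => unramified_of_inertia L H hH Q hQ) k (by rw [← hcard, hk])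

theorem ker_of_noUnr {p : ℕ} [hp : Fact p.Prime] (hNU : NoUnr p) {ζ : AlgebraicClosure ℚ}
    (hζ : IsPrimitiveRoot ζ p) {E : Type} [Group E] (f : GF ℚ →* E)
    (hf : IsOpen (f.ker : Set (GF ℚ))) (hle : ∀ g ∈ f.ker, g ζ = ζ)
    (hpU : ∀ u : GF ℚ, u ζ = ζ → ∃ k : ℕ, f (u ^ p ^ k) = 1)
    (hI : ∀ P : Ideal (OO ℚ), P.IsMaximal → ∀ τ : GF ℚ, InInertia P τ → τ ζ = ζ → f τ = 1) :
    ∀ u : GF ℚ, u ζ = ζ → f u = 1 :=
  ker_core (F := ℚ) (fun L _ _ H hc hH k hk => noUnr_field hNU L H hc hH k hk) hζ f hf hle hpU hI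

end Pool.Agent.X290.Reg
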