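import Pool.Agent.X290.Reg.Mat
import Pool.Agent.X290.FM2.Char2
import Pool.Agent.X148.FM.NCrit3

/-!
# `2`-adic representations of `Gal(ℚbar/ℚ)` are generated by few Frobenius elements
-/

set_option autoImplicit false

namespace Pool.Agent.X290.Reg

open NumberField Pool.Agent.W569.FM Pool.Agent.W215.FM IsLocalRing Matrix

section
variable {G : Type} [Group G] [TopologicalSpace G] [IsTopologicalGroup G] [CompactSpace G]
  {A : Type} [CommRing A] [IsLocalRing A] [IsNoetherianRing A] [TopologicalSpace A] {n : ℕ}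
  {ρ : G →* GL (Fin n) A} {p : ℕ} [hp : Fact p.Prime]

theorem gen_approx (hpm : (p : A) ∈ maximalIdeal A) (hA : IsAdic (maximalIdeal A))
    (hρ : Continuous ρ)
    (hres : ∀ g, IsNilpotent ((ρ g : Matrix (Fin n) (Fin n) A).map (residue A) - 1))
    (Ur T : Set G) (hur : ∀ g ∈ Ur, ρ g = 1)
    (hT : ∀ F : G →* Multiplicative (ZMod p), IsOpen (F.ker : Set G) →
      (∀ τ ∈ Ur, F τ = 1) → (∀ t ∈ T, F t = 1) → ∀ g, F g = 1) (g : G) (N : ℕ) :
    ∃ d ∈ Subgroup.closure T, d⁻¹ * g ∈ KK ρ (maximalIdeal A ^ N) := by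
  have hfin : Finite (G ⧸ KK ρ (maximalIdeal A ^ N)) :=
    Subgroup.quotient_finite_of_isOpen _ (KK_open hA hρ N)
  have hpg : IsPGroup p (G ⧸ KK ρ (maximalIdeal A ^ N)) := by
    intro x
    obtain ⟨g, rfl⟩ := QuotientGroup.mk'_surjective _ x
    obtain ⟨k, hk⟩ := co_pow hpm (hres g) N
    refine ⟨k, ?_⟩
    rw [← map_pow]
    refine (QuotientGroup.eq_one_iff _).2 (mem_KK.2 ?_)
    rw [map_pow]
    exact hk
  have h1 : Subgroup.closure (QuotientGroup.mk' (KK ρ (maximalIdeal A ^ N)) '' T) = ⊤ := by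
    refine Pool.Agent.X148.FM.gen_fin hpg (QuotientGroup.mk' _)
      (QuotientGroup.mk'_surjective _) ?_ Ur T ?_ hT
    · rw [QuotientGroup.ker_mk']
      exact KK_open hA hρ N
    · intro g hg
      refine (QuotientGroup.eq_one_iff g).2 (mem_KK.2 ?_)
      rw [hur g hg]
      intro i j
      simp
  have h2 : QuotientGroup.mk' (KK ρ (maximalIdeal A ^ N)) g ∈
      (Subgroup.closure T).map (QuotientGroup.mk' (KK ρ (maximalIdeal A ^ N))) := by
    rw [MonoidHom.map_closure, h1]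
    trivial
  obtain ⟨d, hd, h3⟩ := h2
  exact ⟨d, hd, QuotientGroup.eq.1 h3⟩

theorem gen_top (hpm : (p : A) ∈ maximalIdeal A) (hA : IsAdic (maximalIdeal A))
    (hρ : Continuous ρ)
    (hres : ∀ g, IsNilpotent ((ρ g : Matrix (Fin n) (Fin n) A).map (residue A) - 1))
    (Ur T : Set G) (hur : ∀ g ∈ Ur, ρ g = 1)
    (hT : ∀ F : G →* Multiplicative (ZMod p), IsOpen (F.ker : Set G) →
      (∀ τ ∈ Ur, F τ = 1) → (∀ t ∈ T, F t = 1) → ∀ g, F g = 1) (g : G) :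
    ∃ h ∈ (Subgroup.closure T).topologicalClosure, ρ h = ρ g := by
  refine exists_limit' hA hρ (Subgroup.isClosed_topologicalClosure _) fun N => ?_
  obtain ⟨d, hd, h⟩ := gen_approx hpm hA hρ hres Ur T hur hT g N
  exact ⟨d, Subgroup.le_topologicalClosure _ hd, h⟩

omit [IsTopologicalGroup G] [CompactSpace G] [TopologicalSpace G] [TopologicalSpace A] in
/-- polynomials -/
theorem zariski {L : Type} [Field L] [Algebra A L] (D : Set G) (g : G)
    (h : ∀ N : ℕ, ∃ d ∈ D, d⁻¹ * g ∈ KK ρ (maximalIdeal A ^ N))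
    (f : MvPolynomial (Fin n × Fin n) L)
    (hf : ∀ d ∈ D, MvPolynomial.eval (fun x => algebraMap A L (ρ d x.1 x.2)) f = 0) :
    MvPolynomial.eval (fun x => algebraMap A L (ρ g x.1 x.2)) f = 0 := by
  classical
  set M : Submodule A L := Submodule.span A (f.support.image f.coeff : Finset L) with hM
  have hMn : Module.Finite A M := Module.Finite.span_finset A _
  have hform : ∀ X : Matrix (Fin n) (Fin n) A,
      MvPolynomial.eval (fun x => algebraMap A L (X x.1 x.2)) f =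
        ∑ d ∈ f.support, (∏ i, X i.1 i.2 ^ d i) • f.coeff d := by
    intro X
    rw [MvPolynomial.eval_eq']
    refine Finset.sum_congr rfl fun d _ => ?_
    rw [Algebra.smul_def, map_prod, mul_comm]
    congr 1
    exact Finset.prod_congr rfl fun i _ => by rw [map_pow]
  have hcM : ∀ d ∈ f.support, f.coeff d ∈ M := fun d hd =>
    Submodule.subset_span (by
      rw [Finset.coe_image]
      exact ⟨d, hd, rfl⟩)
  have hmem : ∀ X : Matrix (Fin n) (Fin n) A,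
      MvPolynomial.eval (fun x => algebraMap A L (X x.1 x.2)) f ∈ M := by
    intro X
    rw [hform]
    exact M.sum_mem fun d hd => M.smul_mem _ (hcM d hd)
  set y : M := ⟨_, hmem (ρ g : Matrix (Fin n) (Fin n) A)⟩ with hy
  have key : ∀ N : ℕ, y ∈ (maximalIdeal A ^ N • ⊤ : Submodule A M) := by
    intro N
    obtain ⟨d, hd, hdN⟩ := h N
    rw [mem_KK] at hdN
    have hcong : ∀ i j, (ρ g : Matrix (Fin n) (Fin n) A) i j -
        (ρ d : Matrix (Fin n) (Fin n) A) i j ∈ maximalIdeal A ^ N := by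
      intro i j
      have h1 : (ρ g : Matrix (Fin n) (Fin n) A) =
          (ρ d : Matrix (Fin n) (Fin n) A) * (ρ (d⁻¹ * g) : Matrix (Fin n) (Fin n) A) := by
        rw [← Units.val_mul, ← map_mul, mul_inv_cancel_left]
      have h2 : (ρ g : Matrix (Fin n) (Fin n) A) - (ρ d : Matrix (Fin n) (Fin n) A) =
          (ρ d : Matrix (Fin n) (Fin n) A) *
            ((ρ (d⁻¹ * g) : Matrix (Fin n) (Fin n) A) - 1) := by
        rw [mul_sub, mul_one, ← h1]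
      rw [← Matrix.sub_apply, h2, Matrix.mul_apply]
      exact Ideal.sum_mem _ fun k _ => Ideal.mul_mem_left _ _ (hdN k j)
    have hprod : ∀ e : (Fin n × Fin n) →₀ ℕ,
        (∏ i, (ρ g : Matrix (Fin n) (Fin n) A) i.1 i.2 ^ e i) -
          (∏ i, (ρ d : Matrix (Fin n) (Fin n) A) i.1 i.2 ^ e i) ∈ maximalIdeal A ^ N := by
      intro e
      rw [← Ideal.Quotient.eq, map_prod, map_prod]
      refine Finset.prod_congr rfl fun i _ => ?_
      rw [map_pow, map_pow, Ideal.Quotient.eq.2 (hcong i.1 i.2)]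
    have h3 : (y : L) = ∑ e ∈ f.support, ((∏ i, (ρ g : Matrix (Fin n) (Fin n) A) i.1 i.2 ^ e i) -
          (∏ i, (ρ d : Matrix (Fin n) (Fin n) A) i.1 i.2 ^ e i)) • f.coeff e := by
      have h4 := hf d hd
      rw [hform (ρ d : Matrix (Fin n) (Fin n) A)] at h4
      have h5 : (y : L) = ∑ e ∈ f.support,
          (∏ i, (ρ g : Matrix (Fin n) (Fin n) A) i.1 i.2 ^ e i) • f.coeff e :=
        hform (ρ g : Matrix (Fin n) (Fin n) A)
      rw [h5]
      simp only [sub_smul, Finset.sum_sub_distrib]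
      rw [h4, sub_zero]
    have h6 : y = ∑ e ∈ f.support.attach,
        ((∏ i, (ρ g : Matrix (Fin n) (Fin n) A) i.1 i.2 ^ e.1 i) -
          (∏ i, (ρ d : Matrix (Fin n) (Fin n) A) i.1 i.2 ^ e.1 i)) •
            (⟨f.coeff e.1, hcM e.1 e.2⟩ : M) := by
      apply Subtype.ext
      rw [h3, ← Finset.sum_attach]
      rw [Submodule.coe_sum]
      rfl
    rw [h6]
    exact Submodule.sum_mem _ fun e _ => Submodule.smul_mem_smul (hprod e.1) trivial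
  have h1 : y ∈ ⨅ N : ℕ, (maximalIdeal A ^ N • ⊤ : Submodule A M) := by
    rw [Submodule.mem_iInf]
    exact key
  rw [Ideal.iInf_pow_smul_eq_bot_of_isLocalRing _ (Ideal.IsPrime.ne_top inferInstance)] at h1
  have h2 : y = 0 := h1
  exact congrArg Subtype.val h2

end

/-- the primes `ℓ` in `T` detect all quadratic fields unramified outside `S` and `2` -/
def Separates (S T : Set ℕ) : Prop :=
  ∀ d : ℤ, Squarefree d → d ≠ 1 → (∀ l : ℕ, l.Prime → (l : ℤ) ∣ d → l = 2 ∨ l ∈ S) →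
    ∃ ℓ ∈ T, ¬ IsSquare (d : ZMod ℓ)

/-- a choice of Frobenius elements -/
def IsFrob (ℓ : ℕ) (φ : GF ℚ) : Prop :=
  ∃ Q : Ideal (OO ℚ), Q.IsMaximal ∧ (ℓ : OO ℚ) ∈ Q ∧ ∀ x : OO ℚ, φ • x - x ^ ℓ ∈ Q

theorem frob_sqrt {ℓ : ℕ} (hℓ : ℓ.Prime) (hℓ2 : ℓ ≠ 2) {φ : GF ℚ} (hφ : IsFrob ℓ φ)
    {s : OO ℚ} {d : ℤ} (hs : s ^ 2 = d) (hd : ¬ IsSquare (d : ZMod ℓ)) : φ • s ≠ s := by
  obtain ⟨Q, hQ, hℓQ, hφ⟩ := hφ
  have hfact : Fact ℓ.Prime := ⟨hℓ⟩
  intro h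
  have h1 := hφ s
  rw [h] at h1
  have hodd : ℓ = 2 * (ℓ / 2) + 1 := by
    rcases hℓ.eq_two_or_odd' with h | h
    · exact absurd h hℓ2
    · obtain ⟨k, hk⟩ := h; omega
  have hd0 : (d : ZMod ℓ) ≠ 0 := by
    intro h0
    apply hd
    rw [h0]
    exact ⟨0, by simp⟩
  have hdQ : (d : OO ℚ) ∉ Q := by
    intro h0
    have h2 := Pool.Agent.X290.FM2.int_mem hQ.isPrime hℓ hℓQ h0
    exact hd0 ((ZMod.intCast_zmod_eq_zero_iff_dvd d ℓ).2 h2)
  have hsQ : s ∉ Q := by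
    intro h0
    apply hdQ
    rw [← hs]
    exact Q.pow_mem_of_mem h0 2 (by norm_num)
  have h2 : s * (1 - s ^ (2 * (ℓ / 2))) ∈ Q := by
    have : s * (1 - s ^ (2 * (ℓ / 2))) = s - s ^ ℓ := by
      conv_rhs => rw [hodd]
      ring
    rw [this]
    exact h1
  have h3 := (hQ.isPrime.mem_or_mem h2).resolve_left hsQ
  rw [pow_mul, hs] at h3
  have h4 : ((1 - d ^ (ℓ / 2) : ℤ) : OO ℚ) ∈ Q := by
    push_cast
    exact h3
  have h5 := Pool.Agent.X290.FM2.int_mem hQ.isPrime hℓ hℓQ h4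
  have h6 := (ZMod.intCast_zmod_eq_zero_iff_dvd _ ℓ).2 h5
  push_cast at h6
  exact hd ((ZMod.euler_criterion ℓ hd0).2 (sub_eq_zero.1 h6).symm)

theorem char_triv (S T : Set ℕ) (hT : ∀ ℓ ∈ T, ℓ.Prime ∧ ℓ ≠ 2) (hsep : Separates S T)
    (φ : ℕ → GF ℚ) (hφ : ∀ ℓ ∈ T, IsFrob ℓ (φ ℓ))
    (F : GF ℚ →* Multiplicative (ZMod 2)) (hF : IsOpen (F.ker : Set (GF ℚ)))
    (hur : ∀ Q : Ideal (OO ℚ), Q.IsMaximal → (2 : OO ℚ) ∉ Q →
      (∀ r ∈ S, r.Prime → (r : OO ℚ) ∉ Q) → ∀ τ, InInertia Q τ → F τ = 1)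
    (hFT : ∀ t ∈ φ '' T, F t = 1) (g : GF ℚ) : F g = 1 := by
  by_contra hg
  obtain ⟨s, d, hs, hs0, hd, h1, h2⟩ := Pool.Agent.X290.FM2.exists_root F hF hg
  have hd1 : d ≠ 1 := by
    rintro rfl
    rw [Int.cast_one] at hs
    have h3 := h2 g hg
    have hs' : s ^ 2 = 1 ^ 2 := by rw [hs, one_pow]
    rcases sq_eq_sq_iff_eq_or_eq_neg.1 hs' with h | h
    · rw [h, smul_one] at h3
      have : (2 : OO ℚ) = 0 := by linear_combination h3
      exact two_ne_zero this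
    · rw [h, smul_neg, smul_one] at h3
      have : (2 : OO ℚ) = 0 := by linear_combination -h3
      exact two_ne_zero this
  have h4 : ∀ l : ℕ, l.Prime → (l : ℤ) ∣ d → l = 2 ∨ l ∈ S := by
    intro l hl hld
    by_contra hcon
    push Not at hcon
    obtain ⟨Q, hQ, hlQ, -⟩ := (Pool.Agent.W571.FM.main l hl).1
    obtain ⟨τ, hτ, hτs⟩ := Pool.Agent.X290.FM2.ram hs hs0 hd (h2 g hg) hld Q hQ.isPrime hlQ
    have hne : ∀ r : ℕ, r.Prime → l ≠ r → (r : OO ℚ) ∉ Q := by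
      intro r hr hlr hrQ
      have h5 : (l : ℤ) ∣ (r : ℤ) := Pool.Agent.X290.FM2.int_mem hQ.isPrime hl hlQ
        (by exact_mod_cast hrQ)
      exact hlr ((Nat.prime_dvd_prime_iff_eq hl hr).1 (by exact_mod_cast h5))
    have h6 : F τ = 1 := hur Q hQ (by exact_mod_cast hne 2 Nat.prime_two hcon.1) (by
      intro r hr hrp
      exact hne r hrp (by rintro rfl; exact hcon.2 hr)) τ hτ
    have h7 := h1 τ h6
    rw [hτs] at h7
    apply hs0
    have h8 : (2 : OO ℚ) * s = 0 := by linear_combination -h7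
    exact (mul_eq_zero.1 h8).resolve_left two_ne_zero
  obtain ⟨ℓ, hℓ, hnsq⟩ := hsep d hd hd1 h4
  have h5 := frob_sqrt (hT ℓ hℓ).1 (hT ℓ hℓ).2 (hφ ℓ hℓ) hs hnsq
  exact h5 (h1 _ (hFT _ ⟨ℓ, hℓ, rfl⟩))

/-- The theorem. -/
theorem mainQ {S T : Set ℕ} (hT : ∀ ℓ ∈ T, ℓ.Prime ∧ ℓ ≠ 2) (hsep : Separates S T)
    {n : ℕ} {A : Type} [CommRing A] [IsLocalRing A] [IsNoetherianRing A] [TopologicalSpace A]
    (hA : IsAdic (maximalIdeal A)) (h2A : (2 : A) ∈ maximalIdeal A) (ρ : GF ℚ →* GL (Fin n) A)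
    (hρ : Continuous ρ)
    (hur : ∀ Q : Ideal (OO ℚ), Q.IsMaximal → (2 : OO ℚ) ∉ Q →
      (∀ r ∈ S, r.Prime → (r : OO ℚ) ∉ Q) → ∀ τ, InInertia Q τ → ρ τ = 1)
    (hres : ∀ g, IsNilpotent ((ρ g : Matrix (Fin n) (Fin n) A).map (residue A) - 1))
    (φ : ℕ → GF ℚ) (hφ : ∀ ℓ ∈ T, IsFrob ℓ (φ ℓ)) :
    (∀ g, ∃ h ∈ (Subgroup.closure (φ '' T)).topologicalClosure, ρ h = ρ g) ∧
    ∀ (L : Type) [Field L] [Algebra A L] (f : MvPolynomial (Fin n × Fin n) L),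
      (∀ h ∈ Subgroup.closure (φ '' T),
        MvPolynomial.eval (fun x => algebraMap A L (ρ h x.1 x.2)) f = 0) →
      ∀ g, MvPolynomial.eval (fun x => algebraMap A L (ρ g x.1 x.2)) f = 0 := by
  have h2A' : ((2 : ℕ) : A) ∈ maximalIdeal A := by exact_mod_cast h2A
  have hf2 : Fact (Nat.Prime 2) := ⟨Nat.prime_two⟩
  have hchar : ∀ F : GF ℚ →* Multiplicative (ZMod 2), IsOpen (F.ker : Set (GF ℚ)) →
      (∀ τ ∈ {τ : GF ℚ | ∃ Q : Ideal (OO ℚ), Q.IsMaximal ∧ (2 : OO ℚ) ∉ Q ∧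
        (∀ r ∈ S, r.Prime → (r : OO ℚ) ∉ Q) ∧ InInertia Q τ}, F τ = 1) →
      (∀ t ∈ φ '' T, F t = 1) → ∀ g, F g = 1 := by
    intro F hF h1 h2 g
    exact char_triv S T hT hsep φ hφ F hF
      (fun Q hQ h2Q hSQ τ hτ => h1 τ ⟨Q, hQ, h2Q, hSQ, hτ⟩) h2 g
  have hur' : ∀ g ∈ {τ : GF ℚ | ∃ Q : Ideal (OO ℚ), Q.IsMaximal ∧ (2 : OO ℚ) ∉ Q ∧
        (∀ r ∈ S, r.Prime → (r : OO ℚ) ∉ Q) ∧ InInertia Q τ}, ρ g = 1 := by
    rintro g ⟨Q, hQ, h2Q, hSQ, hg⟩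
    exact hur Q hQ h2Q hSQ g hg
  refine ⟨fun g => gen_top (p := 2) h2A' hA hρ hres _ _ hur' hchar g, ?_⟩
  intro L _ _ f hf g
  exact zariski (ρ := ρ) (Subgroup.closure (φ '' T) : Set (GF ℚ)) g
    (fun N => gen_approx (p := 2) h2A' hA hρ hres _ _ hur' hchar g N) f hf

end Pool.Agent.X290.Reg
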