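import Pool.Agent.X290.Reg.Asm
import Pool.Agent.W327.FM.TameAbs
import Pool.Agent.W258.FM.TameFin

/-!
# Characters of order prime to `p` unramified outside `p`
-/

set_option autoImplicit false

namespace Pool.Agent.X290.Reg

open NumberField Pool.Agent.W569.FM Pool.Agent.W215.FM IsLocalRing
open scoped Pointwise

theorem exists_gal_core {F : Type} [Field F] {p : ℕ} (hp : p.Prime) [CharZero F]
    (hirr : Irreducible (Polynomial.cyclotomic p F)) {ζ : AlgebraicClosure F}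
    (hζ : IsPrimitiveRoot ζ p) {a : ℕ} (ha : a.Coprime p) : ∃ σ : GF F, σ ζ = ζ ^ a := by
  have hζa : IsPrimitiveRoot (ζ ^ a) p := hζ.pow_of_coprime a ha
  have : NeZero p := ⟨hp.ne_zero⟩
  have : NeZero ((p : ℕ) : F) := ⟨by exact_mod_cast hp.ne_zero⟩
  have h1 := hζ.minpoly_eq_cyclotomic_of_irreducible hirr
  obtain ⟨σ, hσ⟩ := minpoly.exists_algEquiv_of_root (K := F) (L := AlgebraicClosure F) (x := ζ ^ a)
    (y := ζ) (Algebra.IsAlgebraic.isAlgebraic ζ) (by
      rw [← h1]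
      have h2 := hζa.isRoot_cyclotomic hp.pos
      rw [Polynomial.aeval_def, ← Polynomial.eval_map, Polynomial.map_cyclotomic]
      exact h2)
  exact ⟨σ.symm, by rw [AlgEquiv.symm_apply_eq]; exact hσ.symm⟩

theorem exists_gal {p : ℕ} [hp : Fact p.Prime] {ζ : OO ℚ} (hζ : IsPrimitiveRoot ζ p) {a : ℕ}
    (ha : a.Coprime p) : ∃ σ : GF ℚ, σ • ζ = ζ ^ a := by
  have hζ' : IsPrimitiveRoot (ζ : AlgebraicClosure ℚ) p :=
    hζ.map_of_injective (f := algebraMap (OO ℚ) (AlgebraicClosure ℚ))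
      RingOfIntegers.coe_injective
  obtain ⟨σ, hσ⟩ := exists_gal_core hp.out (Polynomial.cyclotomic.irreducible_rat hp.out.pos) hζ' ha
  refine ⟨σ, RingOfIntegers.ext ?_⟩
  rw [coe_smul, hσ]
  rfl

/-- an element of order `p - 1` modulo `Uz ζ` -/
theorem exists_gen {p : ℕ} [hp : Fact p.Prime] {ζ : OO ℚ} (hζ : IsPrimitiveRoot ζ p) :
    ∃ y : GF ℚ, ∀ j : ℕ, y ^ j ∈ Uz ζ → p - 1 ∣ j := by
  obtain ⟨u, hu⟩ := IsCyclic.exists_generator (α := (ZMod p)ˣ)
  obtain ⟨y, hy⟩ := exists_gal hζ (a := (u : ZMod p).val) (ZMod.val_coe_unit_coprime u)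
  refine ⟨y, fun j hj => ?_⟩
  have h1 : y ^ j • ζ = ζ ^ ((u : ZMod p).val ^ j) := by
    clear hj
    induction j with
    | zero => simp
    | succ j ih => rw [pow_succ, mul_smul, hy, smul_pow', ih, ← pow_mul, ← pow_succ]
  rw [mem_Uz.1 hj] at h1
  have hv : 0 < (u : ZMod p).val ^ j := by
    apply Nat.pow_pos
    rw [Nat.pos_iff_ne_zero, ne_eq, ZMod.val_eq_zero]
    exact u.ne_zero
  obtain ⟨N, hN⟩ : ∃ N, (u : ZMod p).val ^ j = N + 1 := ⟨(u : ZMod p).val ^ j - 1, by omega⟩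
  have h3 : p ∣ N := by
    rw [hN, pow_succ] at h1
    have hζ0 : ζ ≠ 0 := hζ.ne_zero hp.out.ne_zero
    have h2 : ζ ^ N = 1 := (mul_eq_right₀ hζ0).1 h1.symm
    exact (hζ.pow_eq_one_iff_dvd N).1 h2
  have h4 : ((1 : ℕ) : ZMod p) = (((u : ZMod p).val ^ j : ℕ) : ZMod p) := by
    rw [hN]
    push_cast
    rw [(ZMod.natCast_eq_zero_iff N p).2 h3, zero_add]
  push_cast at h4
  rw [ZMod.natCast_zmod_val] at h4
  have h5 : u ^ j = 1 := Units.ext (by push_cast; exact h4.symm)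
  have h6 := orderOf_dvd_of_pow_eq_one h5
  rw [orderOf_eq_card_of_forall_mem_zpowers hu, Nat.card_eq_fintype_card,
    ZMod.card_units_eq_totient, Nat.totient_prime hp.out] at h6
  exact h6

/-- A character of order prime to `p` which is unramified outside `p` is a power of the cyclotomic
character modulo `p`. -/
theorem kw {p : ℕ} [hp : Fact p.Prime] {ζ : OO ℚ} (hζ : IsPrimitiveRoot ζ p)
    {k : Type} [Field k] [CharP k p] (χ : GF ℚ →* kˣ) (hχ : IsOpen (χ.ker : Set (GF ℚ)))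
    (hur : ∀ Q : Ideal (OO ℚ), Q.IsMaximal → (p : OO ℚ) ∉ Q → ∀ τ, InInertia Q τ → χ τ = 1)
    (x : GF ℚ) (hx : x ∈ Uz ζ) : χ x = 1 := by
  classical
  have hUn := Uz_normal hζ
  have hGEN : S_GEN := Pool.Agent.W215.FM.main
  have hFROB : S_FROB := Pool.Agent.W571.FM.main
  have hTAME : S_TAME := Pool.Agent.W327.FM.main Pool.Agent.W258.FM.main
  let D : Subgroup (GF ℚ) := χ.ker ⊓ Uz ζ
  have hDn : D.Normal := inferInstance
  have hDo : IsOpen (D : Set (GF ℚ)) := hχ.inter (Uz_open ζ)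
  have hDc : ∀ a b : GF ℚ, a * b * a⁻¹ * b⁻¹ ∈ D := by
    intro a b
    refine ⟨?_, comm_mem hζ a b⟩
    show χ (a * b * a⁻¹ * b⁻¹) = 1
    rw [map_mul, map_mul, map_mul, map_inv, map_inv, mul_comm (χ a) (χ b), mul_inv_cancel_right,
      mul_inv_cancel]
  have hfin : Finite (GF ℚ ⧸ D) := Subgroup.quotient_finite_of_isOpen _ hDo
  let inst : CommGroup (GF ℚ ⧸ D) :=
    { (inferInstance : Group (GF ℚ ⧸ D)) with
      mul_comm := by
        intro a b
        obtain ⟨a, rfl⟩ := QuotientGroup.mk_surjective a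
        obtain ⟨b, rfl⟩ := QuotientGroup.mk_surjective b
        show ((a * b : GF ℚ) : GF ℚ ⧸ D) = ((b * a : GF ℚ) : GF ℚ ⧸ D)
        rw [QuotientGroup.eq]
        have h1 := hDc b⁻¹ a⁻¹
        have e : (a * b)⁻¹ * (b * a) = b⁻¹ * a⁻¹ * b⁻¹⁻¹ * a⁻¹⁻¹ := by group
        rw [e]
        exact h1 }
  have hDur : ∀ Q : Ideal (OO ℚ), Q.IsMaximal → (p : OO ℚ) ∉ Q → ∀ τ, InInertia Q τ → τ ∈ D :=
    fun Q hQ hpQ τ hτ => ⟨hur Q hQ hpQ τ hτ, fix_of_inertia hζ.pow_eq_one hpQ hτ⟩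
  obtain ⟨P, hP, hpP, σ, hσ⟩ := (hFROB p hp.out).1
  obtain ⟨y, hy⟩ := exists_gen hζ
  -- no prime divides the order
  have key : ∀ r : ℕ, r.Prime → ¬ r ∣ orderOf (χ x) := by
    intro r hr
    by_cases hrp : r = p
    · subst hrp
      intro hdvd
      obtain ⟨j, hj⟩ := hdvd
      have h1 : (χ x ^ j) ^ r = 1 := by
        rw [← pow_mul, mul_comm, ← hj, pow_orderOf_eq_one]
      have h2 : ((χ x ^ j : kˣ) : k) ^ r = 1 := by
        rw [← Units.val_pow_eq_pow_val, h1, Units.val_one]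
      have h3 : (((χ x ^ j : kˣ) : k) - 1) ^ r = 0 := by
        rw [sub_pow_char, h2, one_pow, sub_self]
      have h4 : χ x ^ j = 1 := Units.ext (sub_eq_zero.1 ((pow_eq_zero_iff hr.ne_zero).1 h3))
      have h5 := orderOf_dvd_of_pow_eq_one h4
      have hpos : 0 < orderOf (χ x) := by
        have h6 : (QuotientGroup.mk x : GF ℚ ⧸ D) ^ Nat.card (GF ℚ ⧸ D) = 1 := pow_card_eq_one'
        rw [← QuotientGroup.mk_pow, QuotientGroup.eq_one_iff] at h6
        have h7 : χ x ^ Nat.card (GF ℚ ⧸ D) = 1 := by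
          rw [← map_pow]; exact h6.1
        exact Nat.pos_of_dvd_of_pos (orderOf_dvd_of_pow_eq_one h7) Nat.card_pos
      rw [hj] at h5 hpos
      have hj0 : 0 < j := Nat.pos_of_mul_pos_left hpos
      have := Nat.le_of_dvd hj0 h5
      have := hr.two_le
      nlinarith
    · obtain ⟨v, M, hrM, hM⟩ := Nat.exists_eq_pow_mul_and_not_dvd
        (n := Nat.card (GF ℚ ⧸ D)) Nat.card_pos.ne' r hr.one_lt.ne'
      let E := (powMonoidHom M : (GF ℚ ⧸ D) →* (GF ℚ ⧸ D)).range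
      let f : GF ℚ →* E := (powMonoidHom M : (GF ℚ ⧸ D) →* (GF ℚ ⧸ D)).rangeRestrict.comp
        (QuotientGroup.mk' D)
      have hfv : ∀ g, ((f g : E) : GF ℚ ⧸ D) = (QuotientGroup.mk g) ^ M := fun g => rfl
      have hf1 : ∀ g, f g = 1 ↔ g ^ M ∈ D := by
        intro g
        rw [← QuotientGroup.eq_one_iff, QuotientGroup.mk_pow, ← hfv]
        exact ⟨fun h => by rw [h]; rfl, fun h => Subtype.ext h⟩
      have hfD : ∀ g ∈ D, f g = 1 := fun g hg => (hf1 g).2 (D.pow_mem hg M)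
      have hfo : IsOpen (f.ker : Set (GF ℚ)) :=
        Subgroup.isOpen_mono (fun g hg => hfD g hg) hDo
      have hE : IsPGroup r E := by
        intro z
        obtain ⟨w, hw⟩ := z.2
        refine ⟨v, Subtype.ext ?_⟩
        show (z : GF ℚ ⧸ D) ^ r ^ v = 1
        rw [← hw]
        show (w ^ M) ^ r ^ v = 1
        rw [← pow_mul, mul_comm, ← hM]
        exact pow_card_eq_one'
      obtain ⟨h1, τ₀, hτ₀, h2⟩ := hTAME r p hr hp.out hrp E hE f hfo P hP hpP
      have h3 : f τ₀ ^ (p - 1) = 1 := by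
        have h4 := h1 τ₀ hτ₀ σ hσ
        have h5 : f (σ * τ₀ * σ⁻¹) = f τ₀ := by
          rw [map_mul, map_mul, map_inv, mul_comm (f σ), mul_inv_cancel_right]
        rw [h5] at h4
        have hp1 : p = p - 1 + 1 := by have := hp.out.pos; omega
        rw [hp1, pow_succ] at h4
        exact (mul_eq_right.1 h4.symm)
      have hZ : ∀ g, f g ∈ Subgroup.zpowers (f τ₀) := by
        intro g
        have h4 := hGEN (E ⧸ Subgroup.zpowers (f τ₀))
          ((QuotientGroup.mk' (Subgroup.zpowers (f τ₀))).comp f) (by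
            refine Subgroup.isOpen_mono (H₁ := f.ker) ?_ hfo
            intro g hg
            show QuotientGroup.mk' _ (f g) = 1
            rw [MonoidHom.mem_ker.1 hg, map_one]) (by
            intro Q hQ τ hτ
            show QuotientGroup.mk' _ (f τ) = 1
            by_cases hpQ : (p : OO ℚ) ∈ Q
            · obtain ⟨c, hc⟩ := (hFROB p hp.out).2 P Q hP hQ hpP hpQ
              have h5 := h2 _ (hc τ hτ)
              have h6 : f (c⁻¹ * τ * c) = f τ := by
                rw [map_mul, map_mul, map_inv, mul_comm (f c)⁻¹, inv_mul_cancel_right]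
              rw [h6] at h5
              exact (QuotientGroup.eq_one_iff _).2 h5
            · rw [hfD τ (hDur Q hQ hpQ τ hτ), map_one]) g
        exact (QuotientGroup.eq_one_iff _).1 h4
      have hZ' : ∀ g, ∃ t : ℕ, f g = f τ₀ ^ t := by
        intro g
        have h4 := (mem_powers_iff_mem_zpowers (x := f τ₀) (y := f g)).2 (hZ g)
        obtain ⟨t, ht⟩ := h4
        exact ⟨t, ht.symm⟩
      obtain ⟨m, hm⟩ := hZ' x
      obtain ⟨t, ht⟩ := hZ' y
      -- `o ∣ m`
      have h4 : f (y ^ m) = f (x ^ t) := by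
        rw [map_pow, map_pow, ht, hm, ← pow_mul, ← pow_mul, mul_comm]
      have h5 : (y ^ m)⁻¹ ^ M * (x ^ t) ^ M ∈ D := by
        have h6 : f ((y ^ m)⁻¹ * x ^ t) = 1 := by
          rw [map_mul, map_inv, h4, inv_mul_cancel]
        rw [hf1] at h6
        rw [← QuotientGroup.eq_one_iff] at h6 ⊢
        rw [← h6]
        have e : ∀ a b : GF ℚ ⧸ D, a ^ M * b ^ M = (a * b) ^ M := fun a b => (mul_pow a b M).symm
        exact e (QuotientGroup.mk (y ^ m)⁻¹) (QuotientGroup.mk (x ^ t))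
      have h6 : y ^ (m * M) ∈ Uz ζ := by
        have h7 : (x ^ t) ^ M ∈ Uz ζ := (Uz ζ).pow_mem ((Uz ζ).pow_mem hx _) _
        have h8 : (y ^ m)⁻¹ ^ M ∈ Uz ζ := by
          have := (Uz ζ).mul_mem h5.2 ((Uz ζ).inv_mem h7)
          rwa [mul_inv_cancel_right] at this
        rw [inv_pow, ← pow_mul] at h8
        exact (Uz ζ).inv_mem_iff.1 h8
      have h7 := hy _ h6
      have h8 : orderOf (f τ₀) ∣ m * M := (orderOf_dvd_of_pow_eq_one h3).trans h7
      have h9 : (orderOf (f τ₀)).Coprime M := by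
        have hrf : Fact r.Prime := ⟨hr⟩
        obtain ⟨s, hs⟩ := (IsPGroup.iff_orderOf.1 hE) (f τ₀)
        rw [hs]
        exact Nat.Coprime.pow_left _ ((Nat.Prime.coprime_iff_not_dvd hr).2 hrM)
      have h10 : orderOf (f τ₀) ∣ m := h9.dvd_of_dvd_mul_right h8
      have h11 : f x = 1 := by rw [hm]; exact orderOf_dvd_iff_pow_eq_one.1 h10
      have h12 : χ x ^ M = 1 := by
        rw [← map_pow]
        exact ((hf1 x).1 h11).1
      exact fun h => hrM (h.trans (orderOf_dvd_of_pow_eq_one h12))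
  by_contra hne
  have h1 : orderOf (χ x) ≠ 1 := fun h => hne (orderOf_eq_one_iff.1 h)
  obtain ⟨r, hr, hrd⟩ := Nat.exists_prime_and_dvd h1
  exact key r hr hrd

end Pool.Agent.X290.Reg
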