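import Mathlib

/-!
# Numerical form of Minkowski's bound
-/

set_option autoImplicit false

namespace Pool.Agent.X290.Reg

open Real

/-- Minkowski's bound -/
noncomputable def mb (n : ℕ) : ℝ := (n : ℝ) ^ (2 * n) / ((4 / π) ^ n * (n.factorial : ℝ) ^ 2)

theorem mb_pos {n : ℕ} (hn : 1 ≤ n) : 0 < mb n := by
  unfold mb
  have : (0 : ℝ) < n := by exact_mod_cast hn
  positivity

theorem mb_succ {n : ℕ} (hn : 1 ≤ n) :
    mb (n + 1) = (π / 4) * (1 + 1 / (n : ℝ)) ^ (2 * n) * mb n := by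
  unfold mb
  have h1 : (0 : ℝ) < n := by exact_mod_cast hn
  have h2 : (1 + 1 / (n : ℝ)) = ((n : ℝ) + 1) / n := by field_simp
  have h3 : ((n.factorial : ℕ) : ℝ) ≠ 0 := by exact_mod_cast n.factorial_ne_zero
  rw [h2, div_pow, Nat.factorial_succ]
  push_cast
  have h4 : ((n : ℝ) + 1) ≠ 0 := by positivity
  have h5 : (n : ℝ) ≠ 0 := h1.ne'
  have e1 : ((n : ℝ) + 1) ^ (2 * (n + 1)) = ((n : ℝ) + 1) ^ (2 * n) * ((n : ℝ) + 1) ^ 2 := by
    rw [← pow_add]; ring_nf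
  rw [e1, div_pow, div_pow, pow_succ, pow_succ]
  have hpi : π ≠ 0 := Real.pi_ne_zero
  field_simp
  ring

theorem exp_le {n : ℕ} (hn : 1 ≤ n) : Real.exp 1 ≤ (1 + 1 / (n : ℝ)) ^ (n + 1) := by
  have h1 : (0 : ℝ) < n := by exact_mod_cast hn
  have h2 := Real.add_one_le_exp (-(1 / ((n : ℝ) + 1)))
  have h3 : -(1 / ((n : ℝ) + 1)) + 1 = (1 + 1 / (n : ℝ))⁻¹ := by field_simp; ring
  rw [h3, Real.exp_neg] at h2
  have h4 : Real.exp (1 / ((n : ℝ) + 1)) ≤ 1 + 1 / (n : ℝ) :=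
    (inv_le_inv₀ (by positivity) (Real.exp_pos _)).1 h2
  have h5 := pow_le_pow_left₀ (Real.exp_pos _).le h4 (n + 1)
  refine le_trans (le_of_eq ?_) h5
  rw [← Real.exp_nat_mul]
  congr 1
  push_cast
  field_simp

theorem ratio {n n0 : ℕ} (hn0 : 1 ≤ n0) (hn : n0 ≤ n) :
    (3.14 / 4) * (2.718 * ((n0 : ℝ) / (n0 + 1))) ^ 2 ≤ (π / 4) * (1 + 1 / (n : ℝ)) ^ (2 * n) := by
  have h1 : (0 : ℝ) < n := by exact_mod_cast (hn0.trans hn)
  have h0 : (0 : ℝ) < n0 := by exact_mod_cast hn0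
  have hle : (n0 : ℝ) ≤ n := by exact_mod_cast hn
  have h2 := exp_le (hn0.trans hn)
  have h3 := Real.exp_one_gt_d9
  have h4 : 2.718 * ((n0 : ℝ) / (n0 + 1)) ≤ (1 + 1 / (n : ℝ)) ^ n := by
    rw [pow_succ] at h2
    have h5 : (n0 : ℝ) / (n0 + 1) ≤ (1 + 1 / (n : ℝ))⁻¹ := by
      rw [show (1 + 1 / (n : ℝ))⁻¹ = (n : ℝ) / (n + 1) by field_simp]
      rw [div_le_div_iff₀ (by positivity) (by positivity)]
      nlinarith
    have h6 : (2.718 : ℝ) ≤ (1 + 1 / (n : ℝ)) ^ n * (1 + 1 / (n : ℝ)) := by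
      refine le_trans ?_ h2
      linarith
    have h7 : (0 : ℝ) < 1 + 1 / (n : ℝ) := by positivity
    calc 2.718 * ((n0 : ℝ) / (n0 + 1)) ≤ 2.718 * (1 + 1 / (n : ℝ))⁻¹ := by gcongr
      _ ≤ (1 + 1 / (n : ℝ)) ^ n * (1 + 1 / (n : ℝ)) * (1 + 1 / (n : ℝ))⁻¹ := by gcongr
      _ = (1 + 1 / (n : ℝ)) ^ n := by
        rw [mul_assoc, mul_inv_cancel₀ h7.ne', mul_one]
  have h8 : (1 + 1 / (n : ℝ)) ^ (2 * n) = ((1 + 1 / (n : ℝ)) ^ n) ^ 2 := by
    rw [← pow_mul, mul_comm]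
  rw [h8]
  have h9 := Real.pi_gt_d2
  have h10 : (0 : ℝ) ≤ 2.718 * ((n0 : ℝ) / (n0 + 1)) := by positivity
  gcongr

theorem growth {c : ℝ} (hc : 0 ≤ c) {n0 : ℕ} (hn0 : 1 ≤ n0)
    (h : c ≤ (3.14 / 4) * (2.718 * ((n0 : ℝ) / (n0 + 1))) ^ 2) (k : ℕ) :
    c ^ k * mb n0 ≤ mb (n0 + k) := by
  induction k with
  | zero => simp
  | succ k ih =>
    rw [← add_assoc, mb_succ (by omega)]
    have h1 := ratio (n := n0 + k) hn0 (by omega)
    have h2 := mb_pos (n := n0 + k) (by omega)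
    calc c ^ (k + 1) * mb n0 = c * (c ^ k * mb n0) := by ring
      _ ≤ c * mb (n0 + k) := by gcongr
      _ ≤ _ := by
        apply mul_le_mul_of_nonneg_right _ h2.le
        exact h.trans h1

theorem mb6 : (3 : ℝ) ^ 3 < mb 6 := by
  have h : mb 6 = (6 : ℝ) ^ 12 * (π / 4) ^ 6 / 720 ^ 2 := by
    unfold mb
    have hpi : π ≠ 0 := Real.pi_ne_zero
    rw [div_pow, div_pow, show (6 : ℕ).factorial = 720 by rfl]
    push_cast
    field_simp
  rw [h]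
  have h9 := Real.pi_gt_d2
  calc (3 : ℝ) ^ 3 < (6 : ℝ) ^ 12 * (3.14 / 4) ^ 6 / 720 ^ 2 := by norm_num
    _ ≤ _ := by gcongr

theorem mb20 : (125 : ℝ) ^ 5 < mb 20 := by
  have h : mb 20 = (20 : ℝ) ^ 40 * (π / 4) ^ 20 / (2432902008176640000) ^ 2 := by
    unfold mb
    have hpi : π ≠ 0 := Real.pi_ne_zero
    rw [div_pow, div_pow, show (20 : ℕ).factorial = 2432902008176640000 by
      norm_num [Nat.factorial]]
    push_cast
    field_simp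
  rw [h]
  have h9 := Real.pi_gt_d2
  calc (125 : ℝ) ^ 5 < (20 : ℝ) ^ 40 * (3.14 / 4) ^ 20 / (2432902008176640000) ^ 2 := by norm_num
    _ ≤ _ := by gcongr

theorem mb42 : (16807 : ℝ) ^ 7 < mb 42 := by
  have h : mb 42 = (42 : ℝ) ^ 84 * (π / 4) ^ 42 / (((42 : ℕ).factorial : ℕ) : ℝ) ^ 2 := by
    unfold mb
    have hpi : π ≠ 0 := Real.pi_ne_zero
    have h3 : (((42 : ℕ).factorial : ℕ) : ℝ) ≠ 0 := by
      exact_mod_cast (Nat.factorial_ne_zero 42)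
    rw [div_pow, div_pow]
    push_cast
    field_simp
  rw [h, show (42 : ℕ).factorial = 1405006117752879898543142606244511569936384000000000 by
      norm_num [Nat.factorial]]
  have h9 := Real.pi_gt_d2
  calc (16807 : ℝ) ^ 7 < (42 : ℝ) ^ 84 * (3.14 / 4) ^ 42 /
      ((1405006117752879898543142606244511569936384000000000 : ℕ) : ℝ) ^ 2 := by norm_num
    _ ≤ _ := by gcongr

theorem big3 (j : ℕ) : (3 : ℝ) ^ (3 + j) < mb (6 + 2 * j) := by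
  have h1 := growth (c := 4) (by norm_num) (n0 := 6) (by norm_num) (by norm_num) (2 * j)
  have h2 : (3 : ℝ) ^ j ≤ 4 ^ (2 * j) := by
    rw [pow_mul]; gcongr; norm_num
  calc (3 : ℝ) ^ (3 + j) = 3 ^ j * 3 ^ 3 := by ring
    _ < 3 ^ j * mb 6 := by gcongr; exact mb6
    _ ≤ 4 ^ (2 * j) * mb 6 := by
      gcongr
      exact (mb_pos (by norm_num)).le
    _ ≤ _ := h1

theorem big5 (j : ℕ) : (125 : ℝ) ^ (5 + j) < mb (20 + 4 * j) := by
  have h1 := growth (c := 5.2) (by norm_num) (n0 := 20) (by norm_num) (by norm_num) (4 * j)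
  have h2 : (125 : ℝ) ^ j ≤ 5.2 ^ (4 * j) := by
    rw [pow_mul]; gcongr; norm_num
  calc (125 : ℝ) ^ (5 + j) = 125 ^ j * 125 ^ 5 := by ring
    _ < 125 ^ j * mb 20 := by gcongr; exact mb20
    _ ≤ 5.2 ^ (4 * j) * mb 20 := by
      gcongr
      exact (mb_pos (by norm_num)).le
    _ ≤ _ := h1

theorem big7 (j : ℕ) : (16807 : ℝ) ^ (7 + j) < mb (42 + 6 * j) := by
  have h1 := growth (c := 5.2) (by norm_num) (n0 := 42) (by norm_num) (by norm_num) (6 * j)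
  have h2 : (16807 : ℝ) ^ j ≤ 5.2 ^ (6 * j) := by
    rw [pow_mul]; gcongr; norm_num
  calc (16807 : ℝ) ^ (7 + j) = 16807 ^ j * 16807 ^ 7 := by ring
    _ < 16807 ^ j * mb 42 := by gcongr; exact mb42
    _ ≤ 5.2 ^ (6 * j) * mb 42 := by
      gcongr
      exact (mb_pos (by norm_num)).le
    _ ≤ _ := h1

end Pool.Agent.X290.Reg
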