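import Pool.Agent.X290.Reg.Disc
import Pool.Agent.X290.Reg.Num

/-!
# The fields of `p`-th roots of unity for `p = 2, 3, 5, 7`
-/

set_option autoImplicit false

namespace Pool.Agent.X290.Reg

open NumberField Real

/-- The field of `p`-th roots of unity has no Galois extension of `p`-power degree different from
`1` which is unramified at all finite primes. -/
def NoUnr (p : ℕ) : Prop :=
  ∀ (K L : Type) [Field K] [NumberField K] [IsCyclotomicExtension {p} ℚ K] [Field L]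
    [NumberField L] [Algebra K L] [IsGalois K L],
    (∀ (Q : Ideal (𝓞 L)) [Q.IsMaximal], Algebra.IsUnramifiedAt (𝓞 K) Q) →
      ∀ k : ℕ, Module.finrank K L = p ^ k → k = 0

theorem discr_cyc (p : ℕ) (hp : p.Prime) (K : Type) [Field K] [NumberField K]
    [IsCyclotomicExtension {p} ℚ K] : (discr K).natAbs = p ^ (p - 2) := by
  have : NeZero p := ⟨hp.ne_zero⟩
  have h := IsCyclotomicExtension.Rat.natAbs_discr p K
  rw [Nat.totient_prime hp, hp.primeFactors, Finset.prod_singleton,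
    Nat.div_self (by have := hp.two_le; omega), pow_one] at h
  convert h using 1
  have h2 := hp.two_le
  obtain ⟨m, rfl⟩ : ∃ m, p = m + 2 := ⟨p - 2, by omega⟩
  rw [show m + 2 - 1 = m + 1 by omega, pow_succ, Nat.mul_div_cancel _ (by omega)]
  rfl

theorem rank_cyc (p : ℕ) (hp : p.Prime) (K : Type) [Field K] [NumberField K]
    [IsCyclotomicExtension {p} ℚ K] : Module.finrank ℚ K = p - 1 := by
  have : NeZero p := ⟨hp.ne_zero⟩
  rw [IsCyclotomicExtension.Rat.finrank p K, Nat.totient_prime hp]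

theorem mink (L : Type) [Field L] [NumberField L] [IsTotallyComplex L] :
    mb (Module.finrank ℚ L) ≤ ((discr L).natAbs : ℝ) := by
  have h := abs_discr_ge_of_isTotallyComplex L
  unfold mb
  rw [Nat.cast_natAbs]
  exact h

theorem noUnr_odd {p : ℕ} (hp : p.Prime) (hp2 : 2 < p)
    (h : ∀ k, 1 ≤ k → (p : ℝ) ^ ((p - 2) * p ^ k) < mb ((p - 1) * p ^ k)) : NoUnr p := by
  intro K L _ _ _ _ _ _ _ hur k hk
  by_contra h0
  have hKc : IsTotallyComplex K := by
    have : NeZero p := ⟨hp.ne_zero⟩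
    exact IsCyclotomicExtension.Rat.isTotallyComplex K hp2
  have hLc : IsTotallyComplex L := isTotallyComplex_of_algebra K L
  have h1 := natAbs_discr_of_unramified K L hur
  rw [discr_cyc p hp K, hk, ← pow_mul] at h1
  have h2 : Module.finrank ℚ L = (p - 1) * p ^ k := by
    rw [← Module.finrank_mul_finrank ℚ K L, rank_cyc p hp K, hk]
  have h3 := mink L
  rw [h1, h2] at h3
  have h4 := h k (by omega)
  push_cast at h3
  exact absurd h3 (not_le.2 h4)

theorem noUnr3 : NoUnr 3 := by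
  refine noUnr_odd Nat.prime_three (by norm_num) fun k hk => ?_
  obtain ⟨m, rfl⟩ : ∃ m, k = m + 1 := ⟨k - 1, by omega⟩
  have h1 : 3 ^ (m + 1) = 3 + (3 ^ (m + 1) - 3) := by
    have : 3 ^ 1 ≤ 3 ^ (m + 1) := Nat.pow_le_pow_right (by norm_num) (by omega)
    omega
  have h2 := big3 (3 ^ (m + 1) - 3)
  rw [← h1] at h2
  rw [show (3 - 2) * 3 ^ (m + 1) = 3 ^ (m + 1) by omega,
    show (3 - 1) * 3 ^ (m + 1) = 6 + 2 * (3 ^ (m + 1) - 3) by omega]
  exact_mod_cast h2

theorem noUnr5 : NoUnr 5 := by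
  refine noUnr_odd Nat.prime_five (by norm_num) fun k hk => ?_
  obtain ⟨m, rfl⟩ : ∃ m, k = m + 1 := ⟨k - 1, by omega⟩
  have h1 : 5 ^ (m + 1) = 5 + (5 ^ (m + 1) - 5) := by
    have : 5 ^ 1 ≤ 5 ^ (m + 1) := Nat.pow_le_pow_right (by norm_num) (by omega)
    omega
  have h2 := big5 (5 ^ (m + 1) - 5)
  rw [← h1] at h2
  rw [show (5 - 2) * 5 ^ (m + 1) = 3 * 5 ^ (m + 1) by omega,
    show (5 - 1) * 5 ^ (m + 1) = 20 + 4 * (5 ^ (m + 1) - 5) by omega, pow_mul]
  norm_num at h2 ⊢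
  exact h2

theorem noUnr7 : NoUnr 7 := by
  refine noUnr_odd (by norm_num) (by norm_num) fun k hk => ?_
  obtain ⟨m, rfl⟩ : ∃ m, k = m + 1 := ⟨k - 1, by omega⟩
  have h1 : 7 ^ (m + 1) = 7 + (7 ^ (m + 1) - 7) := by
    have : 7 ^ 1 ≤ 7 ^ (m + 1) := Nat.pow_le_pow_right (by norm_num) (by omega)
    omega
  have h2 := big7 (7 ^ (m + 1) - 7)
  rw [← h1] at h2
  rw [show (7 - 2) * 7 ^ (m + 1) = 5 * 7 ^ (m + 1) by omega,
    show (7 - 1) * 7 ^ (m + 1) = 42 + 6 * (7 ^ (m + 1) - 7) by omega, pow_mul]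
  norm_num at h2 ⊢
  exact h2

theorem noUnr2 : NoUnr 2 := by
  intro K L _ _ _ _ _ _ _ hur k hk
  by_contra h0
  have h1 := natAbs_discr_of_unramified K L hur
  rw [discr_cyc 2 Nat.prime_two K] at h1
  have h2 : Module.finrank ℚ L = 2 ^ k := by
    rw [← Module.finrank_mul_finrank ℚ K L, rank_cyc 2 Nat.prime_two K, hk]
    omega
  have h3 : 1 < Module.finrank ℚ L := by
    rw [h2]
    exact Nat.one_lt_two_pow h0
  have h4 := abs_discr_gt_two h3
  rw [Int.abs_eq_natAbs, h1] at h4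
  norm_num at h4

end Pool.Agent.X290.Reg
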