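import Pool.Agent.X290.Reg.Coh

/-!
# Potentially ordinary representations
-/

set_option autoImplicit false

namespace Pool.Agent.X290.Reg

open NumberField Pool.Agent.W569.FM Pool.Agent.W215.FM IsLocalRing Matrix

section
variable {G : Type} [Group G] {A : Type} [CommRing A] {n : ℕ} (ρ : G →* GL (Fin n) A)
  (e : G →* Aˣ)

/-- the block matrices -/
noncomputable def blkd : G →* Matrix (Fin n ⊕ Fin 1) (Fin n ⊕ Fin 1) A where
  toFun g := fromBlocks (ρ g : Matrix (Fin n) (Fin n) A) 0 0
    (Matrix.scalar (Fin 1) ((e g : Aˣ) : A))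
  map_one' := by
    rw [map_one, map_one, Units.val_one, Units.val_one, map_one, fromBlocks_one]
  map_mul' g g' := by
    rw [fromBlocks_multiply, map_mul, map_mul, Units.val_mul, Units.val_mul, map_mul]
    simp only [Matrix.mul_zero, Matrix.zero_mul, add_zero, zero_add]

/-- the sum of `ρ` and `e` -/
noncomputable def dsum : G →* GL (Fin (n + 1)) A :=
  MonoidHom.toHomUnits (((reindexAlgEquiv A A (finSumFinEquiv (m := n) (n := 1))).toMonoidHom).comp
    (blkd ρ e))

theorem dsum_val (g : G) :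
    (dsum ρ e g : Matrix (Fin (n + 1)) (Fin (n + 1)) A) =
      Matrix.reindex finSumFinEquiv finSumFinEquiv
        (fromBlocks (ρ g : Matrix (Fin n) (Fin n) A) 0 0
          (Matrix.scalar (Fin 1) ((e g : Aˣ) : A))) := rfl

variable {ρ e}

theorem dsum_inj {g g' : G} (h : dsum ρ e g = dsum ρ e g') :
    ρ g = ρ g' ∧ e g = e g' := by
  have h1 : (dsum ρ e g : Matrix (Fin (n + 1)) (Fin (n + 1)) A) = dsum ρ e g' := by rw [h]
  rw [dsum_val, dsum_val] at h1
  have h2 := (Matrix.reindex finSumFinEquiv finSumFinEquiv).injective h1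
  rw [fromBlocks_inj] at h2
  refine ⟨Units.ext h2.1, Units.ext ?_⟩
  have h3 := congrFun (congrFun h2.2.2.2 0) 0
  simpa using h3

theorem dsum_one {g : G} (h1 : ρ g = 1) (h2 : e g = 1) : dsum ρ e g = 1 := by
  apply Units.ext
  rw [dsum_val, h1, h2, Units.val_one, Units.val_one, Units.val_one, map_one, fromBlocks_one]
  exact map_one (reindexAlgEquiv A A (finSumFinEquiv (m := n) (n := 1)))

theorem dsum_cont [TopologicalSpace A] [TopologicalSpace G] [IsTopologicalGroup G]
    (hρ : Continuous ρ) (he : Continuous e) : Continuous (dsum ρ e) := by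
  have hv : Continuous fun g => (ρ g : Matrix (Fin n) (Fin n) A) :=
    Units.continuous_val.comp hρ
  have hev : Continuous fun g => ((e g : Aˣ) : A) := Units.continuous_val.comp he
  have h1 : Continuous fun g => (dsum ρ e g : Matrix (Fin (n + 1)) (Fin (n + 1)) A) := by
    have h2 : Continuous fun g => fromBlocks (ρ g : Matrix (Fin n) (Fin n) A)
        (0 : Matrix (Fin n) (Fin 1) A) 0 (Matrix.scalar (Fin 1) ((e g : Aˣ) : A)) := by
      refine Continuous.matrix_fromBlocks hv continuous_const continuous_const ?_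
      refine continuous_matrix fun i j => ?_
      obtain rfl : i = j := Subsingleton.elim i j
      simpa using hev
    refine continuous_matrix fun i j => ?_
    have : (fun g => (dsum ρ e g : Matrix (Fin (n + 1)) (Fin (n + 1)) A) i j) = fun g =>
        fromBlocks (ρ g : Matrix (Fin n) (Fin n) A) (0 : Matrix (Fin n) (Fin 1) A) 0
          (Matrix.scalar (Fin 1) ((e g : Aˣ) : A))
          (finSumFinEquiv.symm i) (finSumFinEquiv.symm j) := rfl
    rw [this]
    exact h2.matrix_elem _ _
  refine Units.continuous_iff.2 ⟨h1, ?_⟩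
  have h3 : (fun g => ((dsum ρ e g)⁻¹ : GL (Fin (n + 1)) A).val) = fun g =>
      (dsum ρ e g⁻¹ : Matrix (Fin (n + 1)) (Fin (n + 1)) A) := by
    funext g
    rw [map_inv]
  show Continuous (fun g => ((dsum ρ e g)⁻¹ : GL (Fin (n + 1)) A).val)
  rw [h3]
  exact h1.comp continuous_inv

theorem dsum_nil [IsLocalRing A] {g : G}
    (hg : IsNilpotent ((ρ g : Matrix (Fin n) (Fin n) A).map (residue A) - 1))
    (he : ((e g : Aˣ) : A) - 1 ∈ maximalIdeal A) :
    IsNilpotent ((dsum ρ e g : Matrix (Fin (n + 1)) (Fin (n + 1)) A).map (residue A) - 1) := by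
  have h1 := nil_block ((ρ g : Matrix (Fin n) (Fin n) A).map (residue A) - 1) 0 hg
  have h2 : (dsum ρ e g : Matrix (Fin (n + 1)) (Fin (n + 1)) A).map (residue A) - 1 =
      reindexAlgEquiv (ResidueField A) (ResidueField A) (finSumFinEquiv (m := n) (n := 1))
        (fromBlocks ((ρ g : Matrix (Fin n) (Fin n) A).map (residue A) - 1)
          0 0 (0 : Matrix (Fin 1) (Fin 1) (ResidueField A))) := by
    have he' : residue A ((e g : Aˣ) : A) = 1 := by
      rw [← residue_eq_zero_iff, map_sub, map_one, sub_eq_zero] at he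
      exact he
    have h3 : fromBlocks ((ρ g : Matrix (Fin n) (Fin n) A).map (residue A) - 1)
          0 0 (0 : Matrix (Fin 1) (Fin 1) (ResidueField A)) =
        (fromBlocks (ρ g : Matrix (Fin n) (Fin n) A) 0 0
          (Matrix.scalar (Fin 1) ((e g : Aˣ) : A))).map (residue A) - 1 := by
      rw [fromBlocks_map]
      ext i j
      rcases i with i | i <;> rcases j with j | j
      · simp [Matrix.one_apply]
      · simp
      · simp
      · obtain rfl : i = j := Subsingleton.elim i j
        simp [he']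
    rw [h3, map_sub, map_one]
    rfl
  rw [h2]
  exact h1.map _

end

/-- joint values over a number field -/
theorem joint_mainU {F : Type} [Field F] [NumberField F] {p : ℕ} [hp : Fact p.Prime]
    (U : Subgroup (GF F)) [hUn : U.Normal]
    (hUo : IsOpen (U : Set (GF F))) (hNU : NoUnrF p (FF U)) (hone : OnePrime p (FF U))
    {n : ℕ} {A : Type} [CommRing A]
    [IsLocalRing A] [IsNoetherianRing A] [TopologicalSpace A] (hA : IsAdic (maximalIdeal A))
    (hpA : (p : A) ∈ maximalIdeal A) (ρ : GF F →* GL (Fin n) A)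
    (hρ : Continuous ρ)
    (hur : ∀ Q : Ideal (OO F), Q.IsMaximal → (p : OO F) ∉ Q → ∀ τ, InInertia Q τ → ρ τ = 1)
    (hres : ∀ u ∈ U, IsNilpotent ((ρ u : Matrix (Fin n) (Fin n) A).map (residue A) - 1))
    (e : GF F →* Aˣ) (he : Continuous e)
    (heur : ∀ Q : Ideal (OO F), Q.IsMaximal → (p : OO F) ∉ Q → ∀ τ, InInertia Q τ → e τ = 1)
    (heres : ∀ u ∈ U, ((e u : Aˣ) : A) - 1 ∈ maximalIdeal A)
    {P : Ideal (OO F)} (hP : P.IsMaximal) (hpP : (p : OO F) ∈ P) :
    (∀ u ∈ U, ∃ h, InInertia P h ∧ h ∈ U ∧ ρ h = ρ u ∧ e h = e u) ∧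
    ∀ g, ∃ d, (∀ x : OO F, d • x ∈ P ↔ x ∈ P) ∧ ρ d = ρ g ∧ e d = e g := by
  have h0 := mainU U hUo hNU hone hA hpA (dsum ρ e) (dsum_cont hρ he)
    (fun Q hQ hpQ τ hτ => dsum_one (hur Q hQ hpQ τ hτ) (heur Q hQ hpQ τ hτ))
    (fun u hu => dsum_nil (hres u hu) (heres u hu)) hP hpP
  refine ⟨fun u hu => ?_, fun g => ?_⟩
  · obtain ⟨d, hd, hdU, h⟩ := h0.1 u hu
    exact ⟨d, hd, hdU, dsum_inj h⟩
  · obtain ⟨d, hd, h⟩ := h0.2 g
    exact ⟨d, hd, dsum_inj h⟩

/-- joint values over `ℚ` -/
theorem joint_main2 {p : ℕ} [hp : Fact p.Prime] (hNU : NoUnr p) {n : ℕ} {A : Type} [CommRing A]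
    [IsLocalRing A] [IsNoetherianRing A] [TopologicalSpace A] (hA : IsAdic (maximalIdeal A))
    (hpA : (p : A) ∈ maximalIdeal A) (ρ : GF ℚ →* GL (Fin n) A)
    (hρ : Continuous ρ)
    (hur : ∀ Q : Ideal (OO ℚ), Q.IsMaximal → (p : OO ℚ) ∉ Q → ∀ τ, InInertia Q τ → ρ τ = 1)
    (hres : ∃ (k : Type) (_ : Field k) (_ : Algebra (ResidueField A) k)
      (χ : Fin n → (GF ℚ →* kˣ)), ∀ g : GF ℚ,
        (((ρ g : Matrix (Fin n) (Fin n) A).map (residue A)).map
          (algebraMap (ResidueField A) k)).charpoly =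
            ∏ i, (Polynomial.X - Polynomial.C ((χ i g : kˣ) : k)))
    (e : GF ℚ →* Aˣ) (he : Continuous e)
    (heur : ∀ Q : Ideal (OO ℚ), Q.IsMaximal → (p : OO ℚ) ∉ Q → ∀ τ, InInertia Q τ → e τ = 1)
    {P : Ideal (OO ℚ)} (hP : P.IsMaximal) (hpP : (p : OO ℚ) ∈ P) (g : GF ℚ) :
    ∃ h, InInertia P h ∧ ρ h = ρ g ∧ e h = e g := by
  obtain ⟨k, _, _, χ, hχ⟩ := hres
  obtain ⟨d, hd, h⟩ := main2 hNU hA hpA (dsum ρ e) (dsum_cont hρ he)
    (fun Q hQ hpQ τ hτ => dsum_one (hur Q hQ hpQ τ hτ) (heur Q hQ hpQ τ hτ))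
    ⟨k, inferInstance, inferInstance, Fin.snoc χ
      ((Units.map (((algebraMap (ResidueField A) k).comp (residue A)) : A →* k)).comp e),
      fun g => by
      rw [dsum_val, Fin.prod_univ_castSucc]
      simp only [Fin.snoc_castSucc, Fin.snoc_last]
      rw [← hχ g]
      have h1 : ((Matrix.reindex (finSumFinEquiv (m := n) (n := 1)) finSumFinEquiv
          (fromBlocks (ρ g : Matrix (Fin n) (Fin n) A) 0 0
            (Matrix.scalar (Fin 1) ((e g : Aˣ) : A)))).map (residue A)).map
            (algebraMap (ResidueField A) k) =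
          Matrix.reindex finSumFinEquiv finSumFinEquiv
            (fromBlocks (((ρ g : Matrix (Fin n) (Fin n) A).map (residue A)).map
              (algebraMap (ResidueField A) k)) 0 0
              (Matrix.scalar (Fin 1) (algebraMap (ResidueField A) k
                (residue A ((e g : Aˣ) : A))))) := by
        have h2 : fromBlocks (((ρ g : Matrix (Fin n) (Fin n) A).map (residue A)).map
              (algebraMap (ResidueField A) k)) 0 0
              (Matrix.scalar (Fin 1) (algebraMap (ResidueField A) k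
                (residue A ((e g : Aˣ) : A)))) =
            ((fromBlocks (ρ g : Matrix (Fin n) (Fin n) A) 0 0
              (Matrix.scalar (Fin 1) ((e g : Aˣ) : A))).map (residue A)).map
              (algebraMap (ResidueField A) k) := by
          rw [fromBlocks_map, fromBlocks_map]
          congr 1
          · ext i j; simp
          · ext i j; simp
          · ext i j
            obtain rfl : i = j := Subsingleton.elim i j
            simp
        rw [h2]
        rfl
      rw [h1, Matrix.charpoly_reindex, Matrix.charpoly_fromBlocks_zero₂₁]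
      congr 1
      rw [Matrix.charpoly, Matrix.det_unique]
      simp [Matrix.charmatrix_apply]⟩ hP hpP g
  exact ⟨d, hd, dsum_inj h⟩

end Pool.Agent.X290.Reg
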