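import Pool.Agent.X290.Reg.Ord

/-!
# Cyclotomic character, Frobenius elements, linear algebra
-/

set_option autoImplicit false

namespace Pool.Agent.X290.Reg

open NumberField Pool.Agent.W569.FM Pool.Agent.W215.FM IsLocalRing Matrix

/-- `e` is the `p`-adic cyclotomic character -/
def Cyc {F : Type} [Field F] (p : ℕ) {A : Type} [CommRing A] (e : GF F →* Aˣ) : Prop :=
  ∀ (g : GF F) (N a : ℕ), (∀ ζ : AlgebraicClosure F, ζ ^ p ^ N = 1 → g ζ = ζ ^ a) →
    ((e g : Aˣ) : A) - (a : A) ∈ Ideal.span {(p : A) ^ N}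

section
variable {F : Type} [Field F] {p : ℕ}

/-- roots of unity of `p`-power order are distinct modulo primes not above `p` -/
theorem root_eq (Q : Ideal (OO F)) (hQ : Q.IsMaximal) (hpQ : (p : OO F) ∉ Q) {N : ℕ}
    {x y : OO F} (hx : x ^ p ^ N = 1) (hy : y ^ p ^ N = 1) (hxy : x - y ∈ Q) : x = y := by
  have hpos : 0 < p ^ N := by
    rcases Nat.eq_zero_or_pos (p ^ N) with h | h
    · exfalso
      apply hpQ
      have : p = 0 := by
        by_contra hp
        exact (pow_ne_zero N hp) h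
      rw [this]; simp
    · exact h
  -- the inverse of `y`
  set n := p ^ N with hn
  set u := x * y ^ (n - 1) with hu
  have hyy : y ^ (n - 1) * y = 1 := by
    rw [← pow_succ, Nat.sub_add_cancel hpos]
    exact hy
  have hu1 : u ^ n = 1 := by
    rw [hu, mul_pow, hx, one_mul, ← pow_mul, mul_comm, pow_mul, hy, one_pow]
  have huQ : u - 1 ∈ Q := by
    have : u - 1 = (x - y) * y ^ (n - 1) := by
      rw [hu, sub_mul, mul_comm y, hyy]
    rw [this]
    exact Q.mul_mem_right _ hxy
  have hu2 : u = 1 := by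
    by_contra hne
    have h1 : (∑ i ∈ Finset.range n, u ^ i) = 0 := by
      have h2 := geom_sum_mul u n
      rw [hu1, sub_self] at h2
      rcases mul_eq_zero.1 h2 with h3 | h3
      · exact h3
      · exact absurd (sub_eq_zero.1 h3) hne
    have h2 : (n : OO F) ∈ Q := by
      have h3 : (n : OO F) = ∑ i ∈ Finset.range n, (1 - u ^ i) := by
        rw [Finset.sum_sub_distrib, h1]
        simp
      rw [h3]
      refine Q.sum_mem fun i _ => ?_
      have h4 : u - 1 ∣ u ^ i - 1 := sub_one_dvd_pow_sub_one u i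
      have h5 : (1 : OO F) - u ^ i = -(u ^ i - 1) := by ring
      rw [h5]
      exact Q.neg_mem (Q.mem_of_dvd h4 huQ)
    have h3 : (p : OO F) ^ N ∈ Q := by
      rw [hn] at h2
      push_cast at h2
      exact h2
    exact hpQ (hQ.isPrime.mem_of_pow_mem N h3)
  calc x = x * (y ^ (n - 1) * y) := by rw [hyy, mul_one]
    _ = u * y := by rw [hu]; ring
    _ = y := by rw [hu2, one_mul]

/-- a Frobenius or inertia element acts on roots of unity of `p`-power order by a power -/
theorem act_root (Q : Ideal (OO F)) (hQ : Q.IsMaximal) (hpQ : (p : OO F) ∉ Q) (hp0 : p ≠ 0)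
    {g : GF F} {q : ℕ} (hg : ∀ x : OO F, g • x - x ^ q ∈ Q) {N : ℕ} {ζ : AlgebraicClosure F}
    (hζ : ζ ^ p ^ N = 1) : g ζ = ζ ^ q := by
  have hint : IsIntegral ℤ ζ :=
    IsIntegral.of_pow (Nat.pos_of_ne_zero (pow_ne_zero N hp0)) (by rw [hζ]; exact isIntegral_one)
  set x : OO F := ⟨ζ, hint⟩ with hx
  have hx1 : x ^ p ^ N = 1 := by
    apply RingOfIntegers.ext
    push_cast
    exact hζ
  have h1 := root_eq (p := p) Q hQ hpQ (N := N) (x := g • x) (y := x ^ q)
    (by rw [← smul_pow', hx1, smul_one]) (by rw [← pow_mul, mul_comm, pow_mul, hx1, one_pow])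
    (hg x)
  have h2 := congrArg (fun z : OO F => (z : AlgebraicClosure F)) h1
  exact h2

variable {A : Type} [CommRing A] [IsLocalRing A] [IsNoetherianRing A]

theorem eq_zero_of_pow (hpA : (p : A) ∈ maximalIdeal A) {x : A}
    (h : ∀ N : ℕ, x ∈ Ideal.span {(p : A) ^ N}) : x = 0 := by
  have h1 : x ∈ ⨅ N : ℕ, maximalIdeal A ^ N := by
    rw [Ideal.mem_iInf]
    intro N
    refine (Ideal.span_singleton_le_iff_mem _).2 ?_ (h N)
    exact Ideal.pow_mem_pow hpA N
  rw [Ideal.iInf_pow_eq_bot_of_isLocalRing _ (Ideal.IsPrime.ne_top inferInstance)] at h1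
  exact h1

theorem cyc_frob (hp0 : p ≠ 0) (hpA : (p : A) ∈ maximalIdeal A) {e : GF F →* Aˣ}
    (he : Cyc p e) (Q : Ideal (OO F)) (hQ : Q.IsMaximal) (hpQ : (p : OO F) ∉ Q)
    {g : GF F} {q : ℕ} (hg : ∀ x : OO F, g • x - x ^ q ∈ Q) : ((e g : Aˣ) : A) = q :=
  sub_eq_zero.1 (eq_zero_of_pow hpA fun N => he g N q fun _ hζ => act_root Q hQ hpQ hp0 hg hζ)

theorem cyc_inertia (hp0 : p ≠ 0) (hpA : (p : A) ∈ maximalIdeal A) {e : GF F →* Aˣ}
    (he : Cyc p e) (Q : Ideal (OO F)) (hQ : Q.IsMaximal) (hpQ : (p : OO F) ∉ Q)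
    {g : GF F} (hg : InInertia Q g) : e g = 1 := by
  apply Units.ext
  have h1 := cyc_frob hp0 hpA he Q hQ hpQ (g := g) (q := 1) (fun x => by
    rw [pow_one]; exact hg x)
  rw [h1]
  simp

end

section lin
variable {L : Type} [Field L] {m : ℕ}

/-- the operator of a matrix -/
theorem pigeon (M : Matrix (Fin m) (Fin m) L) (hM : IsUnit M) (c : L) (hc : c ≠ 0)
    (W W' : Submodule L (Fin m → L)) (hst : ∀ w ∈ W', M *ᵥ w ∈ W')
    (S : Set (Matrix (Fin m) (Fin m) L)) (hS : S.Finite)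
    (h : ∀ k : ℕ, ∃ s ∈ S, ∀ w ∈ W', (M ^ k) *ᵥ w - c ^ k • (s *ᵥ w) ∈ W) :
    ∃ N : ℕ, 0 < N ∧ ∀ w ∈ W', (M ^ N) *ᵥ w - c ^ N • w ∈ W := by
  choose s hsS hs using h
  obtain ⟨i, j, hij, hs2⟩ := Set.Finite.exists_lt_map_eq_of_forall_mem hsS hS
  refine ⟨j - i, by omega, ?_⟩
  -- `M ^ i` is bijective on `W'`
  have hpow : ∀ (k : ℕ), ∀ w ∈ W', (M ^ k) *ᵥ w ∈ W' := by
    intro k
    induction k with
    | zero => intro w hw; simpa using hw
    | succ k ih =>
      intro w hw
      rw [pow_succ', ← Matrix.mulVec_mulVec]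
      exact hst _ (ih w hw)
  have hinj : Function.Injective (((Matrix.toLin' (M ^ i)).restrict (p := W') (q := W')
      (fun w hw => by
        rw [Matrix.toLin'_apply]
        exact hpow i w hw))) := by
    intro a b hab
    apply Subtype.ext
    have h1 := congrArg Subtype.val hab
    simp only [LinearMap.restrict_coe_apply, Matrix.toLin'_apply] at h1
    exact Matrix.mulVec_injective_of_isUnit (hM.pow i) h1
  have hsurj := LinearMap.injective_iff_surjective.1 hinj
  intro w hw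
  obtain ⟨⟨v, hv⟩, hvw⟩ := hsurj ⟨w, hw⟩
  have h2 : (M ^ i) *ᵥ v = w := by
    have h1 := congrArg Subtype.val hvw
    simp only [LinearMap.restrict_coe_apply, Matrix.toLin'_apply] at h1
    exact h1
  have h3 := hs i v hv
  have h4 := hs j v hv
  rw [← hs2] at h4
  have h5 := W.sub_mem h4 (W.smul_mem (c ^ (j - i)) h3)
  have h6 : (M ^ j) *ᵥ v - c ^ j • (s i *ᵥ v) - c ^ (j - i) • ((M ^ i) *ᵥ v - c ^ i • (s i *ᵥ v)) =
      (M ^ (j - i)) *ᵥ w - c ^ (j - i) • w := by
    rw [smul_sub, smul_smul, ← pow_add, Nat.sub_add_cancel hij.le, ← h2, Matrix.mulVec_mulVec,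
      ← pow_add, Nat.sub_add_cancel hij.le]
    abel
  rw [h6] at h5
  exact h5

theorem not_coprime (M : Matrix (Fin m) (Fin m) L) (N : ℕ) (d : L)
    (W W' : Submodule L (Fin m → L)) (hlt : W < W')
    (h : ∀ w ∈ W', (M ^ N) *ᵥ w - d • w ∈ W) :
    ¬ IsCoprime M.charpoly (Polynomial.X ^ N - Polynomial.C d) := by
  rintro ⟨a, b, hab⟩
  have h1 := congrArg (Polynomial.aeval M) hab
  rw [map_add, map_mul, map_mul, Matrix.aeval_self_charpoly, mul_zero, zero_add, map_one, map_sub,
    map_pow, Polynomial.aeval_X, Polynomial.aeval_C] at h1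
  have h2 : ∀ w, (M ^ N - algebraMap L (Matrix (Fin m) (Fin m) L) d) *ᵥ w =
      (M ^ N) *ᵥ w - d • w := by
    intro w
    rw [Matrix.sub_mulVec, Matrix.algebraMap_eq_diagonal]
    congr 1
    ext i
    simp [Matrix.mulVec_diagonal]
  have hinj : Function.Injective (((Matrix.toLin'
      (M ^ N - algebraMap L (Matrix (Fin m) (Fin m) L) d)).restrict (p := W') (q := W)
      (fun w hw => by
        rw [Matrix.toLin'_apply, h2]
        exact h w hw))) := by
    intro x y hxy
    apply Subtype.ext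
    have h3 := congrArg Subtype.val hxy
    simp only [LinearMap.restrict_coe_apply, Matrix.toLin'_apply] at h3
    have h4 := congrArg (fun v => (Polynomial.aeval M b) *ᵥ v) h3
    simp only [Matrix.mulVec_mulVec] at h4
    rw [h1, Matrix.one_mulVec, Matrix.one_mulVec] at h4
    exact h4
  have h3 := LinearMap.finrank_le_finrank_of_injective hinj
  have h4 := Submodule.finrank_lt_finrank_of_lt hlt
  omega

theorem common_root {E : Type} [Field E] (i : E →+* L) (f : Polynomial E)
    (M : Matrix (Fin m) (Fin m) L) (hf : f.map i = M.charpoly) (N : ℕ) (d : E)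
    (h : ¬ IsCoprime M.charpoly (Polynomial.X ^ N - Polynomial.C (i d))) (τ : E →+* ℂ) :
    ∃ z : ℂ, (f.map τ).IsRoot z ∧ z ^ N = τ d := by
  have h1 : ¬ IsCoprime f (Polynomial.X ^ N - Polynomial.C d) := by
    intro h2
    apply h
    have h3 := h2.map (Polynomial.mapRingHom i)
    simp only [Polynomial.coe_mapRingHom, Polynomial.map_sub, Polynomial.map_pow,
      Polynomial.map_X, Polynomial.map_C] at h3
    rw [hf] at h3
    exact h3
  have h2 : ¬ IsCoprime (f.map τ) (Polynomial.X ^ N - Polynomial.C (τ d)) := by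
    intro h3
    apply h1
    have h4 : (Polynomial.X ^ N - Polynomial.C (τ d)) =
        (Polynomial.X ^ N - Polynomial.C d : Polynomial E).map τ := by
      simp
    rw [h4] at h3
    exact (Polynomial.isCoprime_map τ).1 h3
  rw [Polynomial.isCoprime_iff_aeval_ne_zero_of_isAlgClosed ℂ ℂ] at h2
  push Not at h2
  obtain ⟨z, hz1, hz2⟩ := h2
  refine ⟨z, ?_, ?_⟩
  · rw [Polynomial.IsRoot.def]
    simpa [Polynomial.aeval_def, Polynomial.eval₂_eq_eval_map] using hz1
  · have h3 : Polynomial.aeval z (Polynomial.X ^ N - Polynomial.C (τ d)) = z ^ N - τ d := by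
      simp
    rw [h3] at hz2
    exact sub_eq_zero.1 hz2

end lin

end Pool.Agent.X290.Reg
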