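import Pool.Agent.X290.Reg.Gen2

/-!
# Bounds for spaces of cocycles
-/

set_option autoImplicit false

namespace Pool.Agent.X290.Reg

open NumberField Pool.Agent.W569.FM Pool.Agent.W215.FM IsLocalRing Matrix

section
variable {G : Type} [Group G] {A : Type} [CommRing A] {n k : ℕ} (ρ : G →* GL (Fin n) A)
  (z : Fin k → G → Fin n → A)

/-- `z i` are cocycles -/
def Cocycs : Prop := ∀ i g h, z i (g * h) = z i g + (ρ g : Matrix (Fin n) (Fin n) A) *ᵥ z i h

/-- the columns -/
def colk (g : G) : Matrix (Fin n) (Fin k) A := fun j i => z i g j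

variable {ρ z}

theorem colk_mul (h : Cocycs ρ z) (g g' : G) :
    colk z (g * g') = (ρ g : Matrix (Fin n) (Fin n) A) * colk z g' + colk z g := by
  ext j i
  rw [Matrix.add_apply, Matrix.mul_apply]
  show z i (g * g') j = _
  rw [h i g g', Pi.add_apply, add_comm]
  rfl

theorem colk_one (h : Cocycs ρ z) : colk z 1 = 0 := by
  ext j i
  have h1 := h i 1 1
  rw [map_one, Units.val_one, Matrix.one_mulVec, mul_one] at h1
  exact congrFun (left_eq_add.1 h1) j

/-- the block matrices -/
noncomputable def blkk (h : Cocycs ρ z) : G →* Matrix (Fin n ⊕ Fin k) (Fin n ⊕ Fin k) A where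
  toFun g := fromBlocks (ρ g : Matrix (Fin n) (Fin n) A) (colk z g) 0 1
  map_one' := by
    rw [colk_one h, map_one, Units.val_one, fromBlocks_one]
  map_mul' g g' := by
    rw [fromBlocks_multiply, colk_mul h g g', map_mul, Units.val_mul]
    simp only [Matrix.mul_zero, Matrix.zero_mul, add_zero, zero_add, Matrix.mul_one]

/-- the representation of dimension `n + k` -/
noncomputable def extk (h : Cocycs ρ z) : G →* GL (Fin (n + k)) A :=
  MonoidHom.toHomUnits (((reindexAlgEquiv A A (finSumFinEquiv (m := n) (n := k))).toMonoidHom).comp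
    (blkk h))

theorem extk_val (h : Cocycs ρ z) (g : G) :
    (extk h g : Matrix (Fin (n + k)) (Fin (n + k)) A) =
      Matrix.reindex finSumFinEquiv finSumFinEquiv
        (fromBlocks (ρ g : Matrix (Fin n) (Fin n) A) (colk z g) 0 1) := rfl

theorem extk_inl (h : Cocycs ρ z) (g : G) (i j : Fin n) :
    (extk h g : Matrix (Fin (n + k)) (Fin (n + k)) A) (finSumFinEquiv (Sum.inl i))
      (finSumFinEquiv (Sum.inl j)) = (ρ g : Matrix (Fin n) (Fin n) A) i j := by
  rw [extk_val]
  simp

theorem extk_inr (h : Cocycs ρ z) (g : G) (j : Fin n) (i : Fin k) :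
    (extk h g : Matrix (Fin (n + k)) (Fin (n + k)) A) (finSumFinEquiv (Sum.inl j))
      (finSumFinEquiv (Sum.inr i)) = z i g j := by
  rw [extk_val]
  simp [colk]

theorem extk_one (h : Cocycs ρ z) {g : G} (h1 : ρ g = 1) (h2 : ∀ i, z i g = 0) : extk h g = 1 := by
  apply Units.ext
  rw [extk_val, h1, Units.val_one, Units.val_one]
  have : colk z g = 0 := by
    ext j i
    exact congrFun (h2 i) j
  rw [this, fromBlocks_one]
  exact map_one (reindexAlgEquiv A A (finSumFinEquiv (m := n) (n := k)))

theorem extk_cont [TopologicalSpace A] [TopologicalSpace G] [IsTopologicalGroup G]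
    (h : Cocycs ρ z) (hρ : Continuous ρ) (hz : ∀ i, Continuous (z i)) : Continuous (extk h) := by
  have hv : Continuous fun g => (ρ g : Matrix (Fin n) (Fin n) A) :=
    Units.continuous_val.comp hρ
  have h1 : Continuous fun g => (extk h g : Matrix (Fin (n + k)) (Fin (n + k)) A) := by
    have h2 : Continuous fun g => fromBlocks (ρ g : Matrix (Fin n) (Fin n) A) (colk z g) 0
        (1 : Matrix (Fin k) (Fin k) A) := by
      refine Continuous.matrix_fromBlocks hv ?_ continuous_const continuous_const
      refine continuous_matrix fun j i => ?_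
      exact (continuous_apply j).comp (hz i)
    refine continuous_matrix fun i j => ?_
    have : (fun g => (extk h g : Matrix (Fin (n + k)) (Fin (n + k)) A) i j) = fun g =>
        fromBlocks (ρ g : Matrix (Fin n) (Fin n) A) (colk z g) 0
        (1 : Matrix (Fin k) (Fin k) A) (finSumFinEquiv.symm i) (finSumFinEquiv.symm j) := rfl
    rw [this]
    exact h2.matrix_elem _ _
  refine Units.continuous_iff.2 ⟨h1, ?_⟩
  have h3 : (fun g => ((extk h g)⁻¹ : GL (Fin (n + k)) A).val) = fun g =>
      (extk h g⁻¹ : Matrix (Fin (n + k)) (Fin (n + k)) A) := by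
    funext g
    rw [map_inv]
  show Continuous (fun g => ((extk h g)⁻¹ : GL (Fin (n + k)) A).val)
  rw [h3]
  exact h1.comp continuous_inv

theorem nil_blockk {F : Type} [CommRing F] (X : Matrix (Fin n) (Fin n) F)
    (c : Matrix (Fin n) (Fin k) F) (hX : IsNilpotent X) :
    IsNilpotent (fromBlocks X c 0 (0 : Matrix (Fin k) (Fin k) F)) := by
  obtain ⟨m, hm⟩ := hX
  have key : ∀ j : ℕ, (fromBlocks X c 0 (0 : Matrix (Fin k) (Fin k) F)) ^ (j + 1) =
      fromBlocks (X ^ (j + 1)) (X ^ j * c) 0 0 := by
    intro j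
    induction j with
    | zero => simp
    | succ j ih =>
      rw [pow_succ, ih, fromBlocks_multiply]
      simp only [Matrix.mul_zero, Matrix.zero_mul, add_zero]
      rw [← pow_succ]
  refine ⟨m + 1, ?_⟩
  rw [key, pow_succ, hm]
  simp only [Matrix.zero_mul]
  exact fromBlocks_zero

theorem extk_nil [IsLocalRing A] (h : Cocycs ρ z) {g : G}
    (hg : IsNilpotent ((ρ g : Matrix (Fin n) (Fin n) A).map (residue A) - 1)) :
    IsNilpotent ((extk h g : Matrix (Fin (n + k)) (Fin (n + k)) A).map (residue A) - 1) := by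
  have h1 := nil_blockk ((ρ g : Matrix (Fin n) (Fin n) A).map (residue A) - 1)
    ((colk z g).map (residue A)) hg
  have h2 : (extk h g : Matrix (Fin (n + k)) (Fin (n + k)) A).map (residue A) - 1 =
      reindexAlgEquiv (ResidueField A) (ResidueField A) (finSumFinEquiv (m := n) (n := k))
        (fromBlocks ((ρ g : Matrix (Fin n) (Fin n) A).map (residue A) - 1)
          ((colk z g).map (residue A)) 0 (0 : Matrix (Fin k) (Fin k) (ResidueField A))) := by
    have h3 : fromBlocks ((ρ g : Matrix (Fin n) (Fin n) A).map (residue A) - 1)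
          ((colk z g).map (residue A)) 0 (0 : Matrix (Fin k) (Fin k) (ResidueField A)) =
        (fromBlocks (ρ g : Matrix (Fin n) (Fin n) A) (colk z g) 0 1).map (residue A) - 1 := by
      rw [fromBlocks_map]
      ext i j
      rcases i with i | i <;> rcases j with j | j
      · simp [Matrix.one_apply]
      · simp
      · simp
      · simp only [fromBlocks_apply₂₂, Matrix.sub_apply, Matrix.zero_apply, Matrix.map_apply,
          Matrix.one_apply, Sum.inr.injEq]
        by_cases hij : i = j
        · simp [hij]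
        · simp [hij]
    rw [h3, map_sub, map_one]
    rfl
  rw [h2]
  exact h1.map _

end

section
variable {G : Type} [Group G] [TopologicalSpace G] [IsTopologicalGroup G] [CompactSpace G]
  {A : Type} [CommRing A] [IsLocalRing A] [IsNoetherianRing A] [TopologicalSpace A] {n k : ℕ}
  {ρ : G →* GL (Fin n) A} {p : ℕ} [hp : Fact p.Prime] {z : Fin k → G → Fin n → A}

/-- the matrix over `L` -/
noncomputable def matL (ρ : G →* GL (Fin n) A) (L : Type) [Field L] [Algebra A L] (g : G) :
    Matrix (Fin n) (Fin n) L :=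
  (ρ g : Matrix (Fin n) (Fin n) A).map (algebraMap A L)

/-- the combination of cocycles -/
noncomputable def comb (ρ : G →* GL (Fin n) A) (z : Fin k → G → Fin n → A) {L : Type} [Field L]
    [Algebra A L] (c : Fin k → L) (v : Fin n → L) (g : G) : Fin n → L :=
  (∑ i, c i • fun j => algebraMap A L (z i g j)) - (matL ρ L g *ᵥ v - v)

theorem comb_mul (h : Cocycs ρ z) {L : Type} [Field L] [Algebra A L] (c : Fin k → L)
    (v : Fin n → L) (g g' : G) :
    comb ρ z c v (g * g') = comb ρ z c v g + matL ρ L g *ᵥ comb ρ z c v g' := by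
  have h1 : ∀ i, (fun j => algebraMap A L (z i (g * g') j)) =
      (fun j => algebraMap A L (z i g j)) + matL ρ L g *ᵥ fun j => algebraMap A L (z i g' j) := by
    intro i
    funext j
    rw [h i g g', Pi.add_apply, map_add, RingHom.map_mulVec, Pi.add_apply]
    rfl
  have h2 : matL ρ L (g * g') = matL ρ L g * matL ρ L g' := by
    unfold matL
    rw [map_mul, Units.val_mul, Matrix.map_mul]
  unfold comb
  simp only [h1, h2, smul_add, Finset.sum_add_distrib, Matrix.mulVec_sub, ← Matrix.mulVec_mulVec,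
    Matrix.mulVec_sum, Matrix.mulVec_smul]
  abel

theorem comb_zero (h : Cocycs ρ z) {L : Type} [Field L] [Algebra A L] (c : Fin k → L)
    (v : Fin n → L) (T : Set G) (hT : ∀ t ∈ T, comb ρ z c v t = 0) :
    ∀ g ∈ Subgroup.closure T, comb ρ z c v g = 0 := by
  have h1 : comb ρ z c v 1 = 0 := by
    have h2 := comb_mul h c v 1 1
    rw [mul_one] at h2
    have h3 : matL ρ L (1 : G) = 1 := by
      unfold matL
      rw [map_one, Units.val_one]
      exact Matrix.map_one _ (map_zero _) (map_one _)
    rw [h3, Matrix.one_mulVec] at h2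
    exact left_eq_add.1 h2
  intro g hg
  refine Subgroup.closure_induction (p := fun g _ => comb ρ z c v g = 0) hT h1 ?_ ?_ hg
  · intro x y _ _ hx hy
    rw [comb_mul h, hx, hy, Matrix.mulVec_zero, add_zero]
  · intro x _ hx
    have h2 := comb_mul h c v x⁻¹ x
    rw [inv_mul_cancel, h1, hx, Matrix.mulVec_zero, add_zero] at h2
    exact h2.symm

theorem comb_all (hpm : (p : A) ∈ maximalIdeal A) (hA : IsAdic (maximalIdeal A))
    (hρ : Continuous ρ) (hz : ∀ i, Continuous (z i)) (h : Cocycs ρ z)
    (hres : ∀ g, IsNilpotent ((ρ g : Matrix (Fin n) (Fin n) A).map (residue A) - 1))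
    (Ur T : Set G) (hur : ∀ g ∈ Ur, ρ g = 1) (hzur : ∀ g ∈ Ur, ∀ i, z i g = 0)
    (hT : ∀ F : G →* Multiplicative (ZMod p), IsOpen (F.ker : Set G) →
      (∀ τ ∈ Ur, F τ = 1) → (∀ t ∈ T, F t = 1) → ∀ g, F g = 1)
    {L : Type} [Field L] [Algebra A L] (c : Fin k → L) (v : Fin n → L)
    (hc : ∀ t ∈ T, comb ρ z c v t = 0) (g : G) : comb ρ z c v g = 0 := by
  funext j
  have h1 := zariski (ρ := extk h) (L := L) (Subgroup.closure T : Set G) g
    (fun N => gen_approx (ρ := extk h) hpm hA (extk_cont h hρ hz) (fun g => extk_nil h (hres g))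
      Ur T (fun g hg => extk_one h (hur g hg) (hzur g hg)) hT g N)
    ((∑ i : Fin k, MvPolynomial.C (c i) * MvPolynomial.X
      (finSumFinEquiv (Sum.inl j), finSumFinEquiv (Sum.inr i))) -
      ((∑ l : Fin n, MvPolynomial.C (v l) * MvPolynomial.X
      (finSumFinEquiv (Sum.inl j), finSumFinEquiv (Sum.inl l))) - MvPolynomial.C (v j)))
  have h2 : ∀ x : G, MvPolynomial.eval (fun y => algebraMap A L (extk h x y.1 y.2))
      ((∑ i : Fin k, MvPolynomial.C (c i) * MvPolynomial.X
      (finSumFinEquiv (Sum.inl j), finSumFinEquiv (Sum.inr i))) -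
      ((∑ l : Fin n, MvPolynomial.C (v l) * MvPolynomial.X
      (finSumFinEquiv (Sum.inl j), finSumFinEquiv (Sum.inl l))) - MvPolynomial.C (v j))) =
      comb ρ z c v x j := by
    intro x
    rw [map_sub, map_sub, map_sum, map_sum, MvPolynomial.eval_C]
    simp only [map_mul, MvPolynomial.eval_C, MvPolynomial.eval_X, extk_inl, extk_inr]
    unfold comb matL
    rw [Pi.sub_apply, Pi.sub_apply, Finset.sum_apply]
    congr 2
    rw [Matrix.mulVec, dotProduct]
    exact Finset.sum_congr rfl fun l _ => by rw [Matrix.map_apply, mul_comm]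
  rw [h2] at h1
  refine h1 fun d hd => ?_
  rw [h2, comb_zero h c v T hc d hd]
  rfl

end

/-- the invariants -/
def Inv {G : Type} [Group G] {A : Type} [CommRing A] {n : ℕ} (ρ : G →* GL (Fin n) A) (L : Type)
    [Field L] [Algebra A L] : Submodule L (Fin n → L) where
  carrier := {v | ∀ g, (ρ g : Matrix (Fin n) (Fin n) A).map (algebraMap A L) *ᵥ v = v}
  add_mem' {v w} hv hw g := by rw [Matrix.mulVec_add, hv g, hw g]
  zero_mem' g := Matrix.mulVec_zero _
  smul_mem' c v hv g := by rw [Matrix.mulVec_smul, hv g]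

/-- the dimension count -/
theorem dim_count {G : Type} [Group G] {A : Type} [CommRing A] {n k : ℕ} (ρ : G →* GL (Fin n) A)
    (z : Fin (k + 1) → G → Fin n → A) {L : Type} [Field L] [Algebra A L] {ι : Type} [Fintype ι]
    (t : ι → G) (V : ι → Submodule L (Fin n → L))
    (hV : ∀ i v, matL ρ L (t i) *ᵥ v - v ∈ V i)
    (hz : ∀ i j, (fun l => algebraMap A L (z j (t i) l)) ∈ V i)
    (hall : ∀ (c : Fin (k + 1) → L) (v : Fin n → L), (∀ i, comb ρ z c v (t i) = 0) →
      ∀ g, comb ρ z c v g = 0)
    (hk : (∑ i, Module.finrank L (V i)) + Module.finrank L (Inv ρ L) ≤ n + k) :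
    ∃ c : Fin (k + 1) → L, c ≠ 0 ∧ ∃ v : Fin n → L, ∀ g, comb ρ z c v g = 0 := by
  by_contra hcon
  push Not at hcon
  -- the linear map
  let φ : ι → ((Fin (k + 1) → L) × (Fin n → L)) →ₗ[L] (Fin n → L) := fun i =>
    { toFun := fun x => comb ρ z x.1 x.2 (t i)
      map_add' := fun x y => by
        unfold comb
        simp only [Prod.fst_add, Prod.snd_add, Pi.add_apply, add_smul, Finset.sum_add_distrib,
          Matrix.mulVec_add]
        abel
      map_smul' := fun a x => by
        unfold comb
        simp only [Prod.smul_fst, Prod.smul_snd, Pi.smul_apply, Matrix.mulVec_smul,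
          RingHom.id_apply, smul_sub, Finset.smul_sum, smul_assoc] }
  have hφ : ∀ i x, φ i x ∈ V i := by
    intro i x
    show comb ρ z x.1 x.2 (t i) ∈ V i
    unfold comb
    refine (V i).sub_mem ((V i).sum_mem fun j _ => (V i).smul_mem _ (hz i j)) (hV i _)
  let Φ : ((Fin (k + 1) → L) × (Fin n → L)) →ₗ[L] ((i : ι) → V i) :=
    LinearMap.pi fun i => (φ i).codRestrict (V i) (hφ i)
  have h1 := Φ.finrank_range_add_finrank_ker
  have h2 : Module.finrank L (LinearMap.range Φ) ≤ ∑ i, Module.finrank L (V i) := by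
    refine (Submodule.finrank_le _).trans ?_
    rw [Module.finrank_pi_fintype]
  have hker : ∀ x ∈ LinearMap.ker Φ, x.1 = 0 ∧ x.2 ∈ Inv ρ L := by
    intro x hx
    have h3 : ∀ i, comb ρ z x.1 x.2 (t i) = 0 := by
      intro i
      have h4 := congrFun (LinearMap.mem_ker.1 hx) i
      exact congrArg Subtype.val h4
    have h4 := hall x.1 x.2 h3
    have h5 : x.1 = 0 := by
      by_contra h5
      obtain ⟨g, hg⟩ := hcon x.1 h5 x.2
      exact hg (h4 g)
    refine ⟨h5, fun g => ?_⟩
    have h6 := h4 g
    unfold comb at h6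
    rw [h5] at h6
    simp only [Pi.zero_apply, zero_smul, Finset.sum_const_zero, zero_sub, neg_eq_zero] at h6
    exact sub_eq_zero.1 h6
  have h3 : Module.finrank L (LinearMap.ker Φ) ≤ Module.finrank L (Inv ρ L) := by
    let ψ : LinearMap.ker Φ →ₗ[L] Inv ρ L :=
      LinearMap.codRestrict (Inv ρ L) ((LinearMap.snd L (Fin (k + 1) → L) (Fin n → L)).comp
        (LinearMap.ker Φ).subtype) (fun x => (hker x.1 x.2).2)
    refine LinearMap.finrank_le_finrank_of_injective (f := ψ) ?_
    intro x y hxy
    apply Subtype.ext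
    apply Prod.ext
    · rw [(hker x.1 x.2).1, (hker y.1 y.2).1]
    · exact congrArg Subtype.val hxy
  rw [Module.finrank_prod, Module.finrank_fintype_fun_eq_card, Module.finrank_fintype_fun_eq_card,
    Fintype.card_fin, Fintype.card_fin] at h1
  omega

end Pool.Agent.X290.Reg
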