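import Pool.Agent.X290.Reg.Sel
import Pool.Agent.X290.FM2.Fin

/-!
# Bounds for Selmer groups over `ℚ` at `2`
-/

set_option autoImplicit false

namespace Pool.Agent.X290.Reg

open NumberField Pool.Agent.W569.FM Pool.Agent.W215.FM IsLocalRing Matrix

theorem exists_sigma : ∃ σ : GF ℚ, ∀ r : OO ℚ, r ^ 2 = 2 → σ • r = -r := by
  obtain ⟨t, ht⟩ := Pool.Agent.X290.FM2.exists_sqrt_int 2
  have h1 : ∃ σ : GF ℚ, σ • t ≠ t := by
    by_contra hcon
    push Not at hcon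
    obtain ⟨n, hn⟩ := Pool.Agent.X290.FM2.fixed_int t hcon
    rw [hn] at ht
    have h2 : n ^ 2 = 2 := Pool.Agent.X290.FM2.int_inj (by rw [Int.cast_pow]; exact ht)
    have h3 : n < 2 := by nlinarith
    have h4 : -2 < n := by nlinarith
    interval_cases n <;> omega
  obtain ⟨σ, hσ⟩ := h1
  have h2 := (Pool.Agent.X290.FM2.smul_eq_or ht σ).resolve_left hσ
  refine ⟨σ, fun r hr => ?_⟩
  have h3 : r ^ 2 = t ^ 2 := by rw [hr, ht]; norm_num
  rcases sq_eq_sq_iff_eq_or_eq_neg.1 h3 with h | h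
  · rw [h, h2]
  · rw [h, smul_neg, h2]

theorem detect (S : Finset ℕ) (hS : ∀ q ∈ S, q.Prime ∧ q ≠ 2) (Q : ℕ → Ideal (OO ℚ))
    (τ : ℕ → GF ℚ) (hQ : ∀ q ∈ S, (Q q).IsMaximal ∧ (q : OO ℚ) ∈ Q q)
    (hτ : ∀ q ∈ S, InInertia (Q q) (τ q) ∧ ∀ r : OO ℚ, r ^ 2 = q → τ q • r = -r)
    {c : GF ℚ} (φ : AlgebraicClosure ℚ →+* ℂ) (hc : ∀ x, φ (c x) = (starRingEnd ℂ) (φ x))
    {σ : GF ℚ} (hσ : ∀ r : OO ℚ, r ^ 2 = 2 → σ • r = -r)
    (F : GF ℚ →* Multiplicative (ZMod 2)) (hF : IsOpen (F.ker : Set (GF ℚ)))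
    (hur : ∀ Q : Ideal (OO ℚ), Q.IsMaximal → (2 : OO ℚ) ∉ Q →
      (∀ r ∈ S, (r : OO ℚ) ∉ Q) → ∀ τ, InInertia Q τ → F τ = 1)
    (hFc : F c = 1) (hFσ : F σ = 1) (hFτ : ∀ q ∈ S, F (τ q) = 1) (g : GF ℚ) : F g = 1 := by
  by_contra hg
  obtain ⟨s, d, hs, hs0, hd, h1, h2⟩ := Pool.Agent.X290.FM2.exists_root F hF hg
  have hne0 : ∀ x : OO ℚ, x ≠ 0 → x ≠ -x := by
    intro x hx h
    apply hx
    have h8 : (2 : OO ℚ) * x = 0 := by linear_combination h
    exact (mul_eq_zero.1 h8).resolve_left two_ne_zero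
  have hd1 : d ≠ 1 := by
    rintro rfl
    rw [Int.cast_one] at hs
    have h3 := h2 g hg
    have hs' : s ^ 2 = 1 ^ 2 := by rw [hs, one_pow]
    rcases sq_eq_sq_iff_eq_or_eq_neg.1 hs' with h | h
    · rw [h, smul_one] at h3
      exact hne0 1 one_ne_zero h3
    · rw [h, smul_neg, smul_one] at h3
      exact hne0 (-1) (neg_ne_zero.2 one_ne_zero) h3
  have h4 : ∀ l : ℕ, l.Prime → (l : ℤ) ∣ d → l = 2 ∨ l ∈ S := by
    intro l hl hld
    by_contra hcon
    push Not at hcon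
    obtain ⟨Q', hQ', hlQ, -⟩ := (Pool.Agent.W571.FM.main l hl).1
    obtain ⟨τ', hτ', hτs⟩ := Pool.Agent.X290.FM2.ram hs hs0 hd (h2 g hg) hld Q' hQ'.isPrime hlQ
    have hne : ∀ r : ℕ, r.Prime → l ≠ r → (r : OO ℚ) ∉ Q' := by
      intro r hr hlr hrQ
      have h5 : (l : ℤ) ∣ (r : ℤ) := Pool.Agent.X290.FM2.int_mem hQ'.isPrime hl hlQ
        (by exact_mod_cast hrQ)
      exact hlr ((Nat.prime_dvd_prime_iff_eq hl hr).1 (by exact_mod_cast h5))
    have h6 : F τ' = 1 := hur Q' hQ' (by exact_mod_cast hne 2 Nat.prime_two hcon.1) (by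
      intro r hr
      exact hne r (hS r hr).1 (by rintro rfl; exact hcon.2 hr)) τ' hτ'
    have h7 := h1 τ' h6
    rw [hτs] at h7
    exact hne0 s hs0 h7.symm
  -- no prime of `S` divides `d`
  have h5 : ∀ q ∈ S, ¬ (q : ℤ) ∣ d := by
    intro q hq hqd
    obtain ⟨d', hd'⟩ := hqd
    obtain ⟨hQm, hqQ⟩ := hQ q hq
    obtain ⟨hτi, hτr⟩ := hτ q hq
    have hqp := (hS q hq).1
    obtain ⟨r, hr⟩ := Pool.Agent.X290.FM2.exists_sqrt_int (q : ℤ)
    obtain ⟨u, hu⟩ := Pool.Agent.X290.FM2.exists_sqrt_int d'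
    have hqd' : ¬ (q : ℤ) ∣ d' := by
      rintro ⟨e, rfl⟩
      have h6 : (q : ℤ) * q ∣ d := ⟨e, by rw [hd']; ring⟩
      have h7 := hd _ h6
      exact (Nat.prime_iff_prime_int.1 hqp).not_unit h7
    have h2Q : (2 : OO ℚ) ∉ Q q := by
      intro h
      have h6 : (q : ℤ) ∣ (2 : ℤ) := Pool.Agent.X290.FM2.int_mem hQm.isPrime hqp hqQ
        (by exact_mod_cast h)
      have h7 : q ∣ 2 := by exact_mod_cast h6
      exact (hS q hq).2 ((Nat.prime_dvd_prime_iff_eq hqp Nat.prime_two).1 h7)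
    have huQ : u ∉ Q q := by
      intro h
      apply hqd'
      apply Pool.Agent.X290.FM2.int_mem hQm.isPrime hqp hqQ
      rw [← hu]
      exact (Q q).pow_mem_of_mem h 2 (by norm_num)
    have hτu : τ q • u = u := by
      rcases Pool.Agent.X290.FM2.smul_eq_or hu (τ q) with h | h
      · exact h
      · exfalso
        have h6 := hτi u
        rw [h] at h6
        have h7 : (2 : OO ℚ) * u ∈ Q q := by
          have : (2 : OO ℚ) * u = -(-u - u) := by ring
          rw [this]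
          exact (Q q).neg_mem h6
        rcases hQm.isPrime.mem_or_mem h7 with h | h
        · exact h2Q h
        · exact huQ h
    have hτr' : τ q • r = -r := hτr r (by rw [hr]; norm_cast)
    have hsr : (s * r) ^ 2 = ((q : OO ℚ) * u) ^ 2 := by
      rw [mul_pow, mul_pow, hs, hr, hu, hd']
      push_cast
      ring
    have hfix : τ q • (s * r) = s * r := by
      have h6 : τ q • ((q : OO ℚ) * u) = (q : OO ℚ) * u := by
        rw [smul_mul', hτu]
        congr 1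
        exact_mod_cast Pool.Agent.TH831.OT.smul_intCast (τ q) (q : ℤ)
      rcases sq_eq_sq_iff_eq_or_eq_neg.1 hsr with h | h
      · rw [h, h6]
      · rw [h, smul_neg, h6]
    rw [smul_mul', hτr', h1 _ (hFτ q hq)] at hfix
    have hr0 : r ≠ 0 := by
      rintro rfl
      have h6 : ((q : ℤ) : OO ℚ) = 0 := by rw [← hr]; ring
      have h7 : (q : ℤ) = 0 := by exact_mod_cast h6
      exact hqp.ne_zero (by exact_mod_cast h7)
    apply hne0 (s * r) (mul_ne_zero hs0 hr0)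
    rw [mul_neg] at hfix
    exact hfix.symm
  have h6 := Pool.Agent.X290.FM2.nat_sqfree (q := 3) Nat.prime_three (by norm_num)
    (Int.squarefree_natAbs.2 hd) (fun l hl hld => by
      have h7 := Int.natCast_dvd.2 hld
      rcases h4 l hl h7 with h | h
      · exact Or.inl h
      · exact absurd h7 (h5 l h))
  have h3 : ¬ (3 : ℤ) ∣ d := by
    intro h3
    rcases h4 3 Nat.prime_three (by exact_mod_cast h3) with h | h
    · omega
    · exact h5 3 h (by exact_mod_cast h3)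
  have hdpos : 0 ≤ d := by
    have h4 := congrArg (fun z : OO ℚ => (z : AlgebraicClosure ℚ)) (h1 c hFc)
    have h5 := hc (s : AlgebraicClosure ℚ)
    have h6 : c (s : AlgebraicClosure ℚ) = s := h4
    rw [h6] at h5
    obtain ⟨x, hx⟩ := Complex.conj_eq_iff_real.1 h5.symm
    have h7 := congrArg (fun z : OO ℚ => φ (z : AlgebraicClosure ℚ)) hs
    have h8 : φ (s : AlgebraicClosure ℚ) ^ 2 = (d : ℂ) := by
      simpa using h7
    rw [hx] at h8
    have h9 : x ^ 2 = (d : ℝ) := by exact_mod_cast h8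
    have h10 : (0 : ℝ) ≤ d := by rw [← h9]; positivity
    exact_mod_cast h10
  have h7 : d = 2 := by omega
  subst h7
  have h8 := hσ s (by rw [hs]; norm_num)
  rw [h1 σ hFσ] at h8
  exact hne0 s hs0 h8

/-- **Selmer groups over `ℚ` at `2`.** -/
theorem selQ (S : Finset ℕ) (hS : ∀ q ∈ S, q.Prime ∧ q ≠ 2) (Q : ℕ → Ideal (OO ℚ))
    (τ : ℕ → GF ℚ) (hQ : ∀ q ∈ S, (Q q).IsMaximal ∧ (q : OO ℚ) ∈ Q q)
    (hτ : ∀ q ∈ S, InInertia (Q q) (τ q) ∧ ∀ r : OO ℚ, r ^ 2 = q → τ q • r = -r)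
    {c : GF ℚ} (φ : AlgebraicClosure ℚ →+* ℂ) (hc : ∀ x, φ (c x) = (starRingEnd ℂ) (φ x))
    {n : ℕ} {A : Type} [CommRing A] [IsLocalRing A] [IsNoetherianRing A] [TopologicalSpace A]
    (hA : IsAdic (maximalIdeal A)) (h2A : (2 : A) ∈ maximalIdeal A) (ρ : GF ℚ →* GL (Fin n) A)
    (hρ : Continuous ρ)
    (hur : ∀ Q : Ideal (OO ℚ), Q.IsMaximal → (2 : OO ℚ) ∉ Q →
      (∀ r ∈ S, (r : OO ℚ) ∉ Q) → ∀ τ, InInertia Q τ → ρ τ = 1)
    (hres : ∀ g, IsNilpotent ((ρ g : Matrix (Fin n) (Fin n) A).map (residue A) - 1))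
    {L : Type} [Field L] [Algebra A L] (h2L : (2 : L) ≠ 0) {k : ℕ}
    (z : Fin (k + 1) → GF ℚ → Fin n → A) (hz : ∀ i, Continuous (z i)) (hzc : Cocycs ρ z)
    (hzur : ∀ Q : Ideal (OO ℚ), Q.IsMaximal → (2 : OO ℚ) ∉ Q →
      (∀ r ∈ S, (r : OO ℚ) ∉ Q) → ∀ τ, InInertia Q τ → ∀ i, z i τ = 0)
    (hzq : ∀ q ∈ S, ∀ i, ∃ v : Fin n → L, ∀ g, InInertia (Q q) g →
      (fun j => algebraMap A L (z i g j)) = matL ρ L g *ᵥ v - v)
    (hk : (matL ρ L c - 1).rank + (∑ q ∈ S, (matL ρ L (τ q) - 1).rank) +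
      Module.finrank L (Inv ρ L) ≤ k) :
    ∃ a : Fin (k + 1) → L, a ≠ 0 ∧ ∃ v : Fin n → L, ∀ g, comb ρ z a v g = 0 := by
  obtain ⟨σ, hσ⟩ := exists_sigma
  let t : Option (Option {x // x ∈ S}) → GF ℚ := fun i =>
    Option.elim i c (fun j => Option.elim j σ (fun q => τ q.1))
  let V : Option (Option {x // x ∈ S}) → Submodule L (Fin n → L) := fun i =>
    Option.elim i (LinearMap.range (matL ρ L c - 1).mulVecLin)
      (fun j => Option.elim j ⊤ (fun q => LinearMap.range (matL ρ L (τ q.1) - 1).mulVecLin))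
  have hmem : ∀ (X : Matrix (Fin n) (Fin n) L) (v : Fin n → L),
      X *ᵥ v - v ∈ LinearMap.range (X - 1).mulVecLin := by
    intro X v
    refine ⟨v, ?_⟩
    rw [Matrix.mulVecLin_apply, Matrix.sub_mulVec, Matrix.one_mulVec]
  refine dim_count ρ z t V ?_ ?_ ?_ ?_
  · rintro (_ | _ | q) v
    · exact hmem _ _
    · exact Submodule.mem_top
    · exact hmem _ _
  · rintro (_ | _ | q) j
    · show (fun l => algebraMap A L (z j c l)) ∈ LinearMap.range (matL ρ L c - 1).mulVecLin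
      have hcc := Pool.Agent.X290.FM2.conj_sq hc
      have h1 := comb_mul hzc (L := L) (Pi.single j 1) 0 c c
      have h2 : ∀ g, comb ρ z (Pi.single j (1 : L)) 0 g = fun l => algebraMap A L (z j g l) := by
        intro g
        unfold comb
        rw [Matrix.mulVec_zero, sub_zero, sub_zero, Finset.sum_eq_single j]
        · rw [Pi.single_eq_same, one_smul]
        · intro i _ hij
          rw [Pi.single_eq_of_ne hij, zero_smul]
        · intro h
          exact absurd (Finset.mem_univ j) h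
      have hz1 : z j 1 = 0 := by
        have h1 := hzc j 1 1
        rw [map_one, Units.val_one, Matrix.one_mulVec, mul_one] at h1
        exact left_eq_add.1 h1
      rw [h2, h2, hcc, hz1] at h1
      have h3 : (0 : Fin n → L) = (fun l => algebraMap A L (z j c l)) +
          matL ρ L c *ᵥ fun l => algebraMap A L (z j c l) := by
        rw [← h1]
        funext l
        simp
      set y : Fin n → L := fun l => algebraMap A L (z j c l) with hy
      refine ⟨-((2 : L)⁻¹ • y), ?_⟩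
      rw [Matrix.mulVecLin_apply, Matrix.sub_mulVec, Matrix.one_mulVec, Matrix.mulVec_neg,
        Matrix.mulVec_smul]
      have h4 : matL ρ L c *ᵥ y = -y := by
        rw [eq_neg_iff_add_eq_zero, add_comm]
        exact h3.symm
      rw [h4, smul_neg, neg_neg, sub_neg_eq_add, ← add_smul]
      have h5 : (2 : L)⁻¹ + 2⁻¹ = 1 := by
        rw [← two_mul]
        exact mul_inv_cancel₀ h2L
      rw [h5, one_smul]
    · exact Submodule.mem_top
    · obtain ⟨v, hv⟩ := hzq q.1 q.2 j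
      show (fun l => algebraMap A L (z j (τ q.1) l)) ∈ _
      rw [hv _ (hτ q.1 q.2).1]
      exact hmem _ _
  · intro a v h g
    have h2A' : ((2 : ℕ) : A) ∈ maximalIdeal A := by exact_mod_cast h2A
    have hf2 : Fact (Nat.Prime 2) := ⟨Nat.prime_two⟩
    refine comb_all (p := 2) h2A' hA hρ hz hzc hres
      {τ : GF ℚ | ∃ Q : Ideal (OO ℚ), Q.IsMaximal ∧ (2 : OO ℚ) ∉ Q ∧
        (∀ r ∈ S, (r : OO ℚ) ∉ Q) ∧ InInertia Q τ} (Set.range t) ?_ ?_ ?_ a v ?_ g
    · rintro g ⟨Q, hQ, h2Q, hSQ, hg⟩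
      exact hur Q hQ h2Q hSQ g hg
    · rintro g ⟨Q, hQ, h2Q, hSQ, hg⟩ i
      exact hzur Q hQ h2Q hSQ g hg i
    · intro F hF h1 h2 g
      refine detect S hS Q τ hQ hτ φ hc hσ F hF
        (fun Q hQ h2Q hSQ τ hτ => h1 τ ⟨Q, hQ, h2Q, hSQ, hτ⟩) (h2 c ⟨none, rfl⟩)
        (h2 σ ⟨some none, rfl⟩) (fun q hq => h2 _ ⟨some (some ⟨q, hq⟩), rfl⟩) g
    · rintro _ ⟨i, rfl⟩
      exact h i
  · rw [Fintype.sum_option, Fintype.sum_option]
    have h1 : Module.finrank L (V none) = (matL ρ L c - 1).rank := rfl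
    have h2 : Module.finrank L (V (some none)) = n := by
      show Module.finrank L (⊤ : Submodule L (Fin n → L)) = n
      rw [finrank_top, Module.finrank_fintype_fun_eq_card, Fintype.card_fin]
    have h3 : ∑ i : {x // x ∈ S}, Module.finrank L (V (some (some i))) =
        ∑ q ∈ S, (matL ρ L (τ q) - 1).rank := by
      rw [← Finset.sum_coe_sort S]
      rfl
    rw [h1, h2, h3]
    omega

end Pool.Agent.X290.Reg
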